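import Pool.Agent.H436.HP.Gen

/-!
# The curves of degree four and six on a conic bundle (helper436)
-/

set_option autoImplicit false

namespace Pool.Agent.H436.FP

open Polynomial Pool.Agent.H436.HP

section defs

variable {R : Type*} [CommRing R]

/-- the numerator of the increment, degree four -/
def T4 (s q z : R) : R := -2 * s * (z * (1 + q * z))

/-- the denominator of the increment, degree four -/
def D4 (l z : R) : R := 1 + l * z ^ 2

/-- the binary form of degree four -/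
def h4 (g : Fin 9 → R) (T D : R) : R :=
  g 0 * D ^ 4 + g 1 * T * D ^ 3 + g 2 * T ^ 2 * D ^ 2 + g 3 * T ^ 3 * D + g 4 * T ^ 4

/-- the binary form of degree two -/
def h2 (g : Fin 9 → R) (T D : R) : R := g 0 * D ^ 2 + g 1 * T * D + g 2 * T ^ 2

/-- the binary form of degree six -/
def h6 (g : Fin 9 → R) (T D : R) : R :=
  g 0 * D ^ 6 + g 1 * T * D ^ 5 + g 2 * T ^ 2 * D ^ 4 + g 3 * T ^ 3 * D ^ 3 + g 4 * T ^ 4 * D ^ 2 +
    g 5 * T ^ 5 * D + g 6 * T ^ 6

/-- a coefficient -/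
def a6 (o s ρ z : R) : R := ρ * z + o * s

/-- a coefficient -/
def b6 (s r1 μ z : R) : R := -1 + 2 * s * r1 * z + 2 * s * μ * z ^ 2

/-- the denominator of the increment, degree six -/
def D6 (o s r1 ρ μ p6 z : R) : R :=
  o * b6 s r1 μ z ^ 2 - 4 * s ^ 2 * z ^ 2 * a6 o s ρ z ^ 2 + 4 * s ^ 2 * p6 * z ^ 4

/-- a coefficient -/
def V6 (o s r1 r2 ρ μ p5 z : R) : R :=
  2 * s * r2 * z ^ 2 * a6 o s ρ z - o * b6 s r1 μ z - s * p5 * z ^ 3

/-- the numerator of the increment, degree six -/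
def T6 (o s r1 r2 ρ μ p5 z : R) : R := 4 * s * (z * V6 o s r1 r2 ρ μ p5 z)

/-- the covariant of degree three of the forms of degree eight -/
def W8 (g : Fin 9 → R) : R := 7 * g 1 ^ 3 - 24 * g 0 * g 1 * g 2 + 32 * g 0 ^ 2 * g 3

/-- a covariant of the forms of degree four -/
def K4 (g : Fin 9 → R) : R := 8 * g 0 ^ 2 * g 3 - 4 * g 0 * g 1 * g 2 + g 1 ^ 3

/-- the Hessian of the forms of degree four -/
def H4 (g : Fin 9 → R) : R := 3 * g 1 ^ 2 - 8 * g 0 * g 2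

/-- the discriminant of the forms of degree two -/
def D2 (g : Fin 9 → R) : R := g 1 ^ 2 - 4 * g 0 * g 2

end defs

section maps

variable {R S : Type*} [CommRing R] [CommRing S] (φ : R →+* S)

lemma T4_map (s q z : R) : φ (T4 s q z) = T4 (φ s) (φ q) (φ z) := by
  simp only [T4, map_mul, map_add, map_neg, map_one, map_ofNat]

lemma D4_map (l z : R) : φ (D4 l z) = D4 (φ l) (φ z) := by
  simp only [D4, map_mul, map_add, map_pow, map_one]

lemma h4_map (g : Fin 9 → R) (T D : R) : φ (h4 g T D) = h4 (fun i => φ (g i)) (φ T) (φ D) := by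
  simp only [h4, map_mul, map_add, map_pow]

lemma h2_map (g : Fin 9 → R) (T D : R) : φ (h2 g T D) = h2 (fun i => φ (g i)) (φ T) (φ D) := by
  simp only [h2, map_mul, map_add, map_pow]

lemma D6_map (o s r1 ρ μ p6 z : R) :
    φ (D6 o s r1 ρ μ p6 z) = D6 (φ o) (φ s) (φ r1) (φ ρ) (φ μ) (φ p6) (φ z) := by
  simp only [D6, a6, b6, map_mul, map_add, map_sub, map_neg, map_pow, map_one, map_ofNat]

lemma T6_map (o s r1 r2 ρ μ p5 z : R) :
    φ (T6 o s r1 r2 ρ μ p5 z) = T6 (φ o) (φ s) (φ r1) (φ r2) (φ ρ) (φ μ) (φ p5) (φ z) := by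
  simp only [T6, V6, a6, b6, map_mul, map_add, map_sub, map_neg, map_pow, map_one, map_ofNat]

end maps

section idents

variable {K : Type*} [Field K] [CharZero K]

/-- The identity of degree four. -/
lemma quart_id {o s q l r2 z : K} {g : Fin 9 → K} (h0 : g 0 = 1)
    (e2 : 2 * r2 = g 2 - g 1 ^ 2 / 4 + o * s ^ 2) (e3 : 2 * o * s * q = g 3 - g 1 * r2)
    (e4 : o * l = g 4 - r2 ^ 2) :
    h4 g (T4 s q z) (D4 l z) =
      (D4 l z ^ 2 + g 1 / 2 * T4 s q z * D4 l z + r2 * T4 s q z ^ 2) ^ 2 -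
        o * (s * T4 s q z * D4 l z + 4 * s ^ 2 * z * (1 + q * z) ^ 2) ^ 2 := by
  have g2 : g 2 = 2 * r2 + g 1 ^ 2 / 4 - o * s ^ 2 := by linear_combination -e2
  have g3 : g 3 = g 1 * r2 + 2 * o * s * q := by linear_combination -e3
  have g4 : g 4 = r2 ^ 2 + o * l := by linear_combination -e4
  rw [h4, h0, g2, g3, g4, T4, D4]
  ring

/-- The identity of degree six. -/
lemma sext_id {o s r1 r2 ρ μ z : K} {g : Fin 9 → K} (h0 : g 0 = 1) (h1 : g 1 = 2 * r1)
    (h2 : g 2 = 2 * r2 + r1 ^ 2 - o * s ^ 2) (h3 : g 3 = 2 * ρ + 2 * r1 * r2)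
    (h4 : g 4 = 2 * r1 * ρ + r2 ^ 2 - 2 * o * s * μ) {T V D : K}
    (hV : V = V6 o s r1 r2 ρ μ (g 5) z) (hD : D = D6 o s r1 ρ μ (g 6) z)
    (hT : T = 4 * s * (z * V)) :
    h6 g T D = (D ^ 3 + r1 * T * D ^ 2 + r2 * T ^ 2 * D + a6 o s ρ z * (4 * s * V) * T ^ 2) ^ 2 -
      o * (s * T * D ^ 2 + 4 * s * V * T * D + 8 * s * b6 s r1 μ z * V ^ 2 * T) ^ 2 := by
  rw [V6] at hV
  rw [D6] at hD
  rw [h6, h0, h1, h2, h3, h4, hT]
  rw [a6, b6] at hV hD ⊢
  linear_combination (16 * s * V ^ 2 * (4 * s * (z * V)) ^ 2 * (4 * s * V) * D) * hV +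
    (-(64 * s ^ 2 * V ^ 4 * (4 * s * (z * V)) ^ 2)) * hD

end idents

end Pool.Agent.H436.FP
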