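import Pool.Agent.H436.FP.Mv2

/-!
# The conditions at a point, in the direction of one coordinate (helper436)
-/

set_option autoImplicit false

namespace Pool.Agent.H436.FP

open MvPolynomial Pool.Agent.H436.HP

section defs

variable {k α : Type*} [Field k] [DecidableEq α]

/-- a covariant -/
noncomputable def K3 (j : α) (g : MvPolynomial α k) : MvPolynomial α k :=
  3 * pderiv j g ^ 3 - 6 * g * pderiv j g * pderiv j (pderiv j g) +
    4 * g ^ 2 * pderiv j (pderiv j (pderiv j g))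

/-- the Hessian -/
noncomputable def H2 (j : α) (g : MvPolynomial α k) : MvPolynomial α k :=
  3 * pderiv j g ^ 2 - 4 * g * pderiv j (pderiv j g)

/-- the discriminant -/
noncomputable def Dd (j : α) (g : MvPolynomial α k) : MvPolynomial α k :=
  pderiv j g ^ 2 - 2 * g * pderiv j (pderiv j g)

/-- a Jacobian -/
noncomputable def J1 (j : α) (f g : MvPolynomial α k) : MvPolynomial α k :=
  pderiv j g * f - pderiv j f * g

/-- a Jacobian -/
noncomputable def J3 (j : α) (f g : MvPolynomial α k) : MvPolynomial α k :=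
  3 * pderiv j g * f - pderiv j f * g

/-- the conditions on one polynomial -/
def Gd {Ω : Type*} [Field Ω] [Algebra k Ω] (j : α) (g : MvPolynomial α k) (z : α → Ω) : Prop :=
  aeval z g ≠ 0 ∧ aeval z (pderiv j g) ≠ 0 ∧ aeval z (W3 j g) ≠ 0 ∧ aeval z (K3 j g) ≠ 0 ∧
    aeval z (H2 j g) ≠ 0 ∧ aeval z (Dd j g) ≠ 0

/-- the conditions on two polynomials -/
def Gp {Ω : Type*} [Field Ω] [Algebra k Ω] (j : α) (f g : MvPolynomial α k) (z : α → Ω) : Prop :=
  aeval z (J1 j f g) ≠ 0 ∧ aeval z (J3 j f g) ≠ 0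

end defs

section cov

variable {k F : Type*} {α : Type*} [Field k] [Field F] [CharZero F] [Algebra k F] [DecidableEq α]
  {j : α} {z : α → F} {g : MvPolynomial α k}

lemma W8_uni (h : aeval z (W3 j g) ≠ 0) : W8 (tc (uni j z g) (z j)) ≠ 0 := by
  intro h0
  apply h
  rw [W3]
  simp only [map_add, map_sub, map_mul, map_pow, map_ofNat]
  rw [← tc_uni_three, ← tc_uni_two, ← tc_uni_one, ← tc_uni_zero j z g]
  rw [W8] at h0
  linear_combination 3 * h0

lemma K4_uni (h : aeval z (K3 j g) ≠ 0) : K4 (tc (uni j z g) (z j)) ≠ 0 := by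
  intro h0
  apply h
  rw [K3]
  simp only [map_add, map_sub, map_mul, map_pow, map_ofNat]
  rw [← tc_uni_three, ← tc_uni_two, ← tc_uni_one, ← tc_uni_zero j z g]
  rw [K4] at h0
  linear_combination 3 * h0

lemma H4_uni (h : aeval z (H2 j g) ≠ 0) : H4 (tc (uni j z g) (z j)) ≠ 0 := by
  intro h0
  apply h
  rw [H2]
  simp only [map_add, map_sub, map_mul, map_pow, map_ofNat]
  rw [← tc_uni_two, ← tc_uni_one, ← tc_uni_zero j z g]
  rw [H4] at h0
  linear_combination h0

lemma D2_uni (h : aeval z (Dd j g) ≠ 0) : D2 (tc (uni j z g) (z j)) ≠ 0 := by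
  intro h0
  apply h
  rw [Dd]
  simp only [map_add, map_sub, map_mul, map_pow, map_ofNat]
  rw [← tc_uni_two, ← tc_uni_one, ← tc_uni_zero j z g]
  rw [D2] at h0
  linear_combination h0

end cov

section ne

variable {k α : Type*} [Field k] [CharZero k] [DecidableEq α]

omit [CharZero k] in
/-- The general nonvanishing. -/
lemma ne_gen {f : MvPolynomial α k} (hf0 : f ≠ 0) {j : α} (hj : pderiv j f ≠ 0)
    {u v r : MvPolynomial α k} (hr : u * f + v * pderiv j f = r) (hjr : j ∉ r.vars)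
    (hr0 : r ≠ 0) {c : k} (hc : c ≠ 0) (m : ℕ) (q : MvPolynomial α k) :
    C c * pderiv j f ^ m + f * q ≠ 0 := by
  intro h
  apply hj
  have h1 : f ∣ C c * r ^ m := by
    have e1 : C c * (v * pderiv j f) ^ m = v ^ m * (C c * pderiv j f ^ m + f * q) +
        f * (-(v ^ m * q)) := by
      rw [mul_pow]; ring
    rw [h, mul_zero, zero_add] at e1
    have e2 : f ∣ (u * f + v * pderiv j f) ^ m - (v * pderiv j f) ^ m := by
      refine dvd_trans ⟨u, by ring⟩ (sub_dvd_pow_sub_pow _ _ m)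
    rw [hr] at e2
    have e3 : C c * r ^ m = C c * (r ^ m - (v * pderiv j f) ^ m) + f * (-(v ^ m * q)) := by
      rw [← e1]; ring
    rw [e3]
    exact dvd_add (e2.mul_left _) (dvd_mul_right _ _)
  obtain ⟨q', hq⟩ := h1
  have h21 : C c * r ^ m ≠ 0 := mul_ne_zero (by rwa [Ne, C_eq_zero]) (pow_ne_zero _ hr0)
  have hq0 : q' ≠ 0 := by
    rintro rfl
    rw [mul_zero] at hq
    exact h21 hq
  have h2 : degreeOf j f = 0 := by
    have h3 := congrArg (degreeOf j) hq
    rw [degreeOf_mul_eq hf0 hq0] at h3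
    have h5 : degreeOf j r = 0 := by
      by_contra h6
      exact hjr (mem_vars_iff_degreeOf_ne_zero.2 h6)
    have h6 := degreeOf_C_mul_le (r ^ m) j c
    have h7 := degreeOf_pow_le j r m
    rw [h5, mul_zero] at h7
    omega
  refine pderiv_eq_zero_of_notMem_vars ?_
  intro h3
  exact mem_vars_iff_degreeOf_ne_zero.1 h3 h2

lemma K3_ne {f : MvPolynomial α k} (hf0 : f ≠ 0) {j : α} (hj : pderiv j f ≠ 0)
    {u v r : MvPolynomial α k} (hr : u * f + v * pderiv j f = r) (hjr : j ∉ r.vars)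
    (hr0 : r ≠ 0) : K3 j f ≠ 0 := by
  have h := ne_gen hf0 hj hr hjr hr0 (c := 3) (by norm_num) 3
    (-6 * pderiv j f * pderiv j (pderiv j f) + 4 * f * pderiv j (pderiv j (pderiv j f)))
  intro h0
  apply h
  rw [← h0, K3, map_ofNat]
  ring

lemma H2_ne {f : MvPolynomial α k} (hf0 : f ≠ 0) {j : α} (hj : pderiv j f ≠ 0)
    {u v r : MvPolynomial α k} (hr : u * f + v * pderiv j f = r) (hjr : j ∉ r.vars)
    (hr0 : r ≠ 0) : H2 j f ≠ 0 := by
  have h := ne_gen hf0 hj hr hjr hr0 (c := 3) (by norm_num) 2 (-4 * pderiv j (pderiv j f))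
  intro h0
  apply h
  rw [← h0, H2, map_ofNat]
  ring

lemma Dd_ne {f : MvPolynomial α k} (hf0 : f ≠ 0) {j : α} (hj : pderiv j f ≠ 0)
    {u v r : MvPolynomial α k} (hr : u * f + v * pderiv j f = r) (hjr : j ∉ r.vars)
    (hr0 : r ≠ 0) : Dd j f ≠ 0 := by
  have h := ne_gen hf0 hj hr hjr hr0 (c := 1) one_ne_zero 2 (-2 * pderiv j (pderiv j f))
  intro h0
  apply h
  rw [← h0, Dd, map_one]
  ring

omit [CharZero k] in
lemma J_ne {f g : MvPolynomial α k} (hf0 : f ≠ 0) (hg0 : g ≠ 0) {j : α}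
    (hd : degreeOf j g < degreeOf j f) {u v r : MvPolynomial α k}
    (hr : u * f + v * pderiv j f = r) (hjr : j ∉ r.vars) (hr0 : r ≠ 0)
    (q : MvPolynomial α k) : q * f - pderiv j f * g ≠ 0 := by
  intro h
  have h1 : f ∣ r * g := by
    refine ⟨u * g + v * q, ?_⟩
    rw [← hr]
    linear_combination (-v) * h
  obtain ⟨q', hq⟩ := h1
  have h2 : r * g ≠ 0 := mul_ne_zero hr0 hg0
  have hq0 : q' ≠ 0 := by
    rintro rfl
    rw [mul_zero] at hq
    exact h2 hq
  have h3 := congrArg (degreeOf j) hq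
  rw [degreeOf_mul_eq hf0 hq0, degreeOf_mul_eq hr0 hg0] at h3
  have h5 : degreeOf j r = 0 := by
    by_contra h6
    exact hjr (mem_vars_iff_degreeOf_ne_zero.2 h6)
  omega

end ne

section exi

variable {k : Type} [Field k] [CharZero k] {n : ℕ}

/-- the polynomial of the good points for one polynomial -/
lemma exists_H1 {g : MvPolynomial (Fin n) k} (hg : Squarefree g) :
    ∃ H : MvPolynomial (Fin n) k, H ≠ 0 ∧ ∀ (E : Type) [Field E] [Algebra k E] (z : Fin n → E),
      aeval z H ≠ 0 → aeval z g ≠ 0 ∧ ∀ j ∈ g.vars, Gd j g z := by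
  choose u v r hr hj hr0 using fun j => sqf_dir hg j
  have g0 := hg.ne_zero
  refine ⟨g * ∏ j ∈ g.vars, (pderiv j g * W3 j g * K3 j g * H2 j g * Dd j g), ?_, ?_⟩
  · refine mul_ne_zero g0 (Finset.prod_ne_zero_iff.2 fun j h => ?_)
    have hp := pderiv_ne h
    exact mul_ne_zero (mul_ne_zero (mul_ne_zero (mul_ne_zero hp
      (W3_ne g0 hp (hr j) (hj j) (hr0 j))) (K3_ne g0 hp (hr j) (hj j) (hr0 j)))
      (H2_ne g0 hp (hr j) (hj j) (hr0 j))) (Dd_ne g0 hp (hr j) (hj j) (hr0 j))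
  · intro E _ _ z hz
    rw [map_mul, map_prod] at hz
    have h0 := left_ne_zero_of_mul hz
    refine ⟨h0, fun j h => ?_⟩
    have h1 := Finset.prod_ne_zero_iff.1 (right_ne_zero_of_mul hz) j h
    rw [map_mul, map_mul, map_mul, map_mul] at h1
    have h2 := left_ne_zero_of_mul h1
    have h3 := left_ne_zero_of_mul h2
    have h4 := left_ne_zero_of_mul h3
    exact ⟨h0, left_ne_zero_of_mul h4, right_ne_zero_of_mul h4, right_ne_zero_of_mul h3,
      right_ne_zero_of_mul h2, right_ne_zero_of_mul h1⟩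

/-- the polynomial of the good points for two polynomials -/
lemma exists_H2 {f g : MvPolynomial (Fin n) k} (hf : Squarefree f) (hg : g ≠ 0) :
    ∃ H : MvPolynomial (Fin n) k, H ≠ 0 ∧ ∀ (E : Type) [Field E] [Algebra k E] (z : Fin n → E),
      aeval z H ≠ 0 → ∀ j, degreeOf j g < degreeOf j f → Gp j f g z := by
  classical
  choose u v r hr hj hr0 using fun j => sqf_dir hf j
  refine ⟨∏ j : Fin n, (if degreeOf j g < degreeOf j f then J1 j f g * J3 j f g else 1), ?_, ?_⟩
  · refine Finset.prod_ne_zero_iff.2 fun j _ => ?_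
    split_ifs with h
    · exact mul_ne_zero (J_ne hf.ne_zero hg h (hr j) (hj j) (hr0 j) _)
        (J_ne hf.ne_zero hg h (hr j) (hj j) (hr0 j) _)
    · exact one_ne_zero
  · intro E _ _ z hz j h
    rw [map_prod] at hz
    have h1 := Finset.prod_ne_zero_iff.1 hz j (Finset.mem_univ j)
    rw [if_pos h, map_mul] at h1
    exact ⟨left_ne_zero_of_mul h1, right_ne_zero_of_mul h1⟩

/-- **The polynomial of the good points for a family.** -/
lemma exists_Hfam {ι : Type} [Fintype ι] {g : ι → MvPolynomial (Fin n) k}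
    (hg : ∀ i, Squarefree (g i)) :
    ∃ H : MvPolynomial (Fin n) k, H ≠ 0 ∧ ∀ (E : Type) [Field E] [Algebra k E] (z : Fin n → E),
      aeval z H ≠ 0 → (∀ i, aeval z (g i) ≠ 0) ∧ (∀ i, ∀ j ∈ (g i).vars, Gd j (g i) z) ∧
        ∀ i i' j, degreeOf j (g i') < degreeOf j (g i) → Gp j (g i) (g i') z := by
  choose A hA hA' using fun i => exists_H1 (hg i)
  choose B hB hB' using fun i i' => exists_H2 (hg i) (hg i').ne_zero
  refine ⟨(∏ i, A i) * ∏ i, ∏ i', B i i', mul_ne_zero (Finset.prod_ne_zero_iff.2 fun i _ => hA i)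
    (Finset.prod_ne_zero_iff.2 fun i _ => Finset.prod_ne_zero_iff.2 fun i' _ => hB i i'), ?_⟩
  intro E _ _ z hz
  rw [map_mul, map_prod, map_prod] at hz
  have h1 := Finset.prod_ne_zero_iff.1 (left_ne_zero_of_mul hz)
  have h2 := Finset.prod_ne_zero_iff.1 (right_ne_zero_of_mul hz)
  refine ⟨fun i => (hA' i E z (h1 i (Finset.mem_univ i))).1,
    fun i => (hA' i E z (h1 i (Finset.mem_univ i))).2, fun i i' => ?_⟩
  have h3 := h2 i (Finset.mem_univ i)
  rw [map_prod] at h3
  exact hB' i i' E z (Finset.prod_ne_zero_iff.1 h3 i' (Finset.mem_univ i'))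

end exi

end Pool.Agent.H436.FP
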