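import Pool.Agent.H436.FP.Rel
import Pool.Agent.H436.HQ.Fam

/-!
# Families of fibre products of conic bundles (helper436)
-/

set_option autoImplicit false

namespace Pool.Agent.H436.FP

open Pool.Agent.H436.HP Pool.Agent.H436.HQ Pool.Agent.TH178.HI MvPolynomial

section change

variable {k K : Type} [Field k] [Field K] [Algebra k K] {n m : ℕ}

/-- Scaling by nonzero constants. -/
lemma indep_scale {F L : Type} [Field F] [Field L] [Algebra F L] {ι : Type} {y : ι → L}
    (hy : AlgebraicIndependent F y) {u : ι → F} (hu : ∀ i, u i ≠ 0) :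
    AlgebraicIndependent F (fun i => algebraMap F L (u i) * y i) := by
  rw [algebraicIndependent_iff]
  intro P hP
  obtain ⟨Q, hQ⟩ : ∃ Q : MvPolynomial ι F, Q = bind₁ (fun i => C (u i) * X i) P := ⟨_, rfl⟩
  have h1 : aeval y Q = 0 := by
    rw [hQ, aeval_bind₁, ← hP]
    congr 2
    funext i
    rw [map_mul, aeval_C, aeval_X]
  have h2 := algebraicIndependent_iff.1 hy Q h1
  have h3 : bind₁ (fun i => C (u i)⁻¹ * X i) Q = P := by
    rw [hQ, bind₁_bind₁]
    have e : (fun i => bind₁ (fun i => C (u i)⁻¹ * X i) (C (u i) * X i : MvPolynomial ι F)) =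
        X := by
      funext i
      rw [map_mul, bind₁_C_right, bind₁_X_right, ← mul_assoc, ← C_mul, mul_inv_cancel₀ (hu i),
        C_1, one_mul]
    rw [e, bind₁_X_left]
    rfl
  rw [← h3, h2, map_zero]

lemma indep_swap {t : Fin n → K} {y : Fin m → K} :
    AlgebraicIndependent k (Sum.elim t y) ↔ AlgebraicIndependent k (Sum.elim y t) := by
  have e : ∀ {n m : ℕ} {t : Fin n → K} {y : Fin m → K}, AlgebraicIndependent k (Sum.elim t y) →
      AlgebraicIndependent k (Sum.elim y t) := by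
    intro n m t y h
    have h1 := h.comp Sum.swap (Function.HasLeftInverse.injective ⟨Sum.swap, Sum.swap_swap⟩)
    have h2 : Sum.elim t y ∘ Sum.swap = Sum.elim y t := by
      funext i
      rcases i with i | i <;> rfl
    rwa [h2] at h1
  exact ⟨e, e⟩

/-- A change of the model. -/
lemma pf_change {a f a' f' s ρ : Fin m → MvPolynomial (Fin n) k}
    (ha : ∀ i, a i = s i ^ 2 * a' i) (hf : ∀ i, f i = ρ i ^ 2 * f' i) (hs : ∀ i, s i ≠ 0)
    (hr : ∀ i, ρ i ≠ 0) (hK : IsPF k a f K) : IsPF k a' f' K := by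
  obtain ⟨t, y, w, hty, hw, htop⟩ := hK
  obtain ⟨ht, hy⟩ := AlgebraicIndependent.sumElim_iff.1 (indep_swap.1 hty)
  rw [← IntermediateField.algebraicIndependent_adjoin_iff] at hy
  have ev : ∀ g : MvPolynomial (Fin n) k, g ≠ 0 → aeval t g ≠ 0 := fun g hg h =>
    hg (ht (by rw [h, map_zero]))
  have hmem : ∀ g : MvPolynomial (Fin n) k,
      aeval t g ∈ IntermediateField.adjoin k (Set.range t) := fun g =>
    aeval_mem' (fun i => IntermediateField.subset_adjoin k _ (Set.mem_range_self i)) g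
  have hS0 : ∀ i, aeval t (s i) ≠ 0 := fun i => ev _ (hs i)
  have hρ0 : ∀ i, aeval t (ρ i) ≠ 0 := fun i => ev _ (hr i)
  obtain ⟨u, hu⟩ : ∃ u : Fin m → IntermediateField.adjoin k (Set.range t),
      u = fun i => ⟨aeval t (s i) / aeval t (ρ i),
        IntermediateField.div_mem _ (hmem _) (hmem _)⟩ := ⟨_, rfl⟩
  have hu1 : ∀ i, (u i : K) = aeval t (s i) / aeval t (ρ i) := fun i => by rw [hu]
  have hu0 : ∀ i, u i ≠ 0 := fun i h => by
    have h1 := congrArg Subtype.val h
    rw [hu1] at h1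
    exact div_ne_zero (hS0 i) (hρ0 i) h1
  have hy' := indep_scale hy hu0
  have hy2 : AlgebraicIndependent (Algebra.adjoin k (Set.range t))
      (fun i => algebraMap (IntermediateField.adjoin k (Set.range t)) K (u i) * y i) :=
    IntermediateField.algebraicIndependent_adjoin_iff.1 hy'
  obtain ⟨y', hyy⟩ : ∃ y' : Fin m → K,
      y' = fun i => algebraMap (IntermediateField.adjoin k (Set.range t)) K (u i) * y i :=
    ⟨_, rfl⟩
  rw [← hyy] at hy2
  have hy1 : ∀ i, y' i = aeval t (s i) / aeval t (ρ i) * y i := fun i => by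
    rw [hyy]
    change (u i : K) * y i = _
    rw [hu1]
  refine ⟨t, y', fun i => w i / aeval t (ρ i),
    indep_swap.2 (AlgebraicIndependent.sumElim_iff.2 ⟨ht, hy2⟩), fun i => ?_, ?_⟩
  · have h1 := hρ0 i
    rw [div_pow, hw, hy1, ha, hf, map_mul, map_mul, map_pow, map_pow]
    field_simp
  · rw [eq_top_iff, ← htop, IntermediateField.adjoin_le_iff]
    obtain ⟨M, hM⟩ : ∃ M, M = IntermediateField.adjoin k (Set.range t ∪ (Set.range y' ∪
      Set.range fun i => w i / aeval t (ρ i))) := ⟨_, rfl⟩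
    rw [← hM]
    have htM : ∀ i, t i ∈ M := fun i => by
      rw [hM]; exact IntermediateField.subset_adjoin _ _ (Or.inl ⟨i, rfl⟩)
    have hyM : ∀ i, y' i ∈ M := fun i => by
      rw [hM]; exact IntermediateField.subset_adjoin _ _ (Or.inr (Or.inl ⟨i, rfl⟩))
    have hwM : ∀ i, w i / aeval t (ρ i) ∈ M := fun i => by
      rw [hM]; exact IntermediateField.subset_adjoin _ _ (Or.inr (Or.inr ⟨i, rfl⟩))
    have hgM : ∀ g : MvPolynomial (Fin n) k, aeval t g ∈ M := fun g => aeval_mem' htM g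
    rintro _ (⟨i, rfl⟩ | ⟨i, rfl⟩ | ⟨i, rfl⟩)
    · exact htM i
    · have h1 := hρ0 i
      have h2 := hS0 i
      have e : y i = y' i * (aeval t (ρ i) / aeval t (s i)) := by
        rw [hy1]; field_simp
      rw [SetLike.mem_coe, e]
      exact mul_mem (hyM i) (IntermediateField.div_mem _ (hgM _) (hgM _))
    · have h1 := hρ0 i
      have e : w i = w i / aeval t (ρ i) * aeval t (ρ i) := by field_simp
      rw [SetLike.mem_coe, e]
      exact mul_mem (hwM i) (hgM _)

end change

section fam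

variable {k₀ : Type} [Field k₀] {r n m : ℕ}

/-- the conditions on the degrees in the last variables -/
def TypR (r : ℕ) {n m : ℕ} (a f : Fin m → MvPolynomial (Fin (r + n)) k₀) : Prop :=
  (∀ (j : Fin n) (i : Fin m), Fin.natAdd r j ∉ (a i).vars ∨ Fin.natAdd r j ∉ (f i).vars) ∧
  (∀ j : Fin n, (Finset.univ.filter fun i => degreeOf (Fin.natAdd r j) (a i) +
    degreeOf (Fin.natAdd r j) (f i) ≠ 0).card ≤ 3) ∧
  ∀ j : Fin n, ∑ i, (degreeOf (Fin.natAdd r j) (a i) + degreeOf (Fin.natAdd r j) (f i) + 1) / 2 ≤ 4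

/-- The section `c` is split, off the hypersurface `h = 0`. -/
def SplitF (k : Type) [Field k] [Algebra k₀ k] (a f : Fin m → MvPolynomial (Fin (r + n)) k₀)
    (h : MvPolynomial (Fin (r + n)) k₀) : Prop :=
  ∃ c : Fin n → RF r k, av k c h ≠ 0 ∧ ∀ i, ∃ X Y W : RF r k, ¬ (X = 0 ∧ Y = 0 ∧ W = 0) ∧
    X ^ 2 = av k c (a i) * Y ^ 2 + av k c (f i) * W ^ 2

/-- **Function fields of families of fibre products of conic bundles.** -/
theorem fam_uni [CharZero k₀] {a f : Fin m → MvPolynomial (Fin (r + n)) k₀} (ha : ∀ i, a i ≠ 0)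
    (hf : ∀ i, f i ≠ 0) (hT : TypR r a f) :
    ∃ h : MvPolynomial (Fin (r + n)) k₀, h ≠ 0 ∧ ∀ (k : Type) [Field k] [Algebra k₀ k],
      SplitF k a f h → ∀ (K : Type) [Field K] [Algebra k K],
        IsPF k (fun i => map (algebraMap k₀ k) (a i)) (fun i => map (algebraMap k₀ k) (f i)) K →
        Uni k K := by
  choose s a' ha' hsa using fun i => exists_sq (ha i)
  choose ρ f' hf' hsf using fun i => exists_sq (hf i)
  have hs : ∀ i, s i ≠ 0 := fun i h => ha i (by rw [ha', h]; ring)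
  have hρ : ∀ i, ρ i ≠ 0 := fun i h => hf i (by rw [hf', h]; ring)
  obtain ⟨H, hH, hH'⟩ := exists_Hfam (g := Sum.elim a' f') (by
    rintro (i | i)
    · exact hsa i
    · exact hsf i)
  have hdeg : ∀ (s g : MvPolynomial (Fin (r + n)) k₀) (j : Fin (r + n)), s ≠ 0 → g ≠ 0 →
      degreeOf j g ≤ degreeOf j (s ^ 2 * g) := fun s g j hs hg => by
    rw [degreeOf_mul_eq (pow_ne_zero 2 hs) hg]
    omega
  have hda : ∀ i j, degreeOf j (a' i) ≤ degreeOf j (a i) := fun i j => by
    rw [ha' i]; exact hdeg _ _ _ (hs i) (hsa i).ne_zero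
  have hdf : ∀ i j, degreeOf j (f' i) ≤ degreeOf j (f i) := fun i j => by
    rw [hf' i]; exact hdeg _ _ _ (hρ i) (hsf i).ne_zero
  refine ⟨(∏ i, (s i * ρ i)) * H, mul_ne_zero (Finset.prod_ne_zero_iff.2 fun i _ =>
    mul_ne_zero (hs i) (hρ i)) hH, ?_⟩
  rintro k _ _ ⟨c, hc, hXY⟩ K _ _ hK
  have hk : CharZero k := charZero_of_injective_algebraMap (algebraMap k₀ k).injective
  have hF : CharZero (RF r k) := charZero_of_injective_algebraMap
    (algebraMap k (RF r k)).injective
  rw [map_mul, map_prod] at hc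
  have hc1 : ∀ i, av k c (s i) ≠ 0 ∧ av k c (ρ i) ≠ 0 := fun i => by
    have h1 := Finset.prod_ne_zero_iff.1 (left_ne_zero_of_mul hc) i (Finset.mem_univ i)
    rw [map_mul] at h1
    exact ⟨left_ne_zero_of_mul h1, right_ne_zero_of_mul h1⟩
  have hK1 : IsPF k (fun i => map (algebraMap k₀ k) (a' i))
      (fun i => map (algebraMap k₀ k) (f' i)) K :=
    pf_change (s := fun i => map (algebraMap k₀ k) (s i))
      (ρ := fun i => map (algebraMap k₀ k) (ρ i))
      (fun i => by rw [ha', map_mul, map_pow]) (fun i => by rw [hf', map_mul, map_pow])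
      (fun i => map_ne (hs i)) (fun i => map_ne (hρ i)) hK
  obtain ⟨alg, tow, hK2⟩ := pf_rel hK1
  obtain ⟨t1, t2, t3⟩ := hT
  refine uni_res (uni_good (a := fun i => rel k (a' i)) (f := fun i => rel k (f' i))
    (H := rel k H) (c := c) ⟨?_, ?_, ?_⟩ ?_ ?_ ?_ hK2)
  · intro j i
    rcases t1 j i with h | h
    · refine Or.inl (notMem_vars_rel fun h' => h ?_)
      rw [mem_vars_iff_degreeOf_ne_zero] at h' ⊢
      have := hda i (Fin.natAdd r j)
      omega
    · refine Or.inr (notMem_vars_rel fun h' => h ?_)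
      rw [mem_vars_iff_degreeOf_ne_zero] at h' ⊢
      have := hdf i (Fin.natAdd r j)
      omega
  · intro j
    refine (Finset.card_le_card fun i hi => ?_).trans (t2 j)
    rw [Finset.mem_filter] at hi ⊢
    have h1 := hda i (Fin.natAdd r j)
    have h2 := hdf i (Fin.natAdd r j)
    have h3 := hi.2
    rw [degreeOf_rel_eq, degreeOf_rel_eq] at h3
    exact ⟨Finset.mem_univ _, by omega⟩
  · intro j
    refine (Finset.sum_le_sum fun i _ => ?_).trans (t3 j)
    rw [degreeOf_rel_eq, degreeOf_rel_eq]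
    have h1 := hda i (Fin.natAdd r j)
    have h2 := hdf i (Fin.natAdd r j)
    omega
  · intro E _ _ z hz
    let _ : Algebra k₀ E := ((algebraMap (RF r k) E).comp (algebraMap k₀ (RF r k))).toAlgebra
    have : IsScalarTower k₀ (RF r k) E := IsScalarTower.of_algebraMap_eq fun _ => rfl
    rw [aeval_rel] at hz
    obtain ⟨h1, h2, h3⟩ := hH' E _ hz
    have hel : ∀ e : Fin m ⊕ Fin m, Sum.elim (fun i => rel k (a' i)) (fun i => rel k (f' i)) e =
        rel k (Sum.elim a' f' e) := by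
      rintro (i | i) <;> rfl
    refine ⟨fun e => ?_, fun e j hj => ?_, fun e e' j hj => ?_⟩
    · rw [hel, aeval_rel]
      exact h1 e
    · rw [hel] at hj ⊢
      refine Gd_rel (h2 e _ ?_)
      rw [mem_vars_iff_degreeOf_ne_zero, degreeOf_rel_eq] at hj
      exact mem_vars_iff_degreeOf_ne_zero.2 hj
    · rw [hel, hel] at hj ⊢
      rw [degreeOf_rel_eq, degreeOf_rel_eq] at hj
      exact Gp_rel (h3 e e' _ hj)
  · rw [eval_rel]
    exact right_ne_zero_of_mul hc
  · intro i
    obtain ⟨X, Y, W, h0, hX⟩ := hXY i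
    refine ⟨X, av k c (s i) * Y, av k c (ρ i) * W, ?_, ?_⟩
    · rintro ⟨h1, h2, h3⟩
      exact h0 ⟨h1, (mul_eq_zero.1 h2).resolve_left (hc1 i).1,
        (mul_eq_zero.1 h3).resolve_left (hc1 i).2⟩
    · rw [eval_rel, eval_rel, hX, ha', hf', map_mul, map_mul, map_pow, map_pow]
      ring

end fam

end Pool.Agent.H436.FP
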