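import Pool.Agent.H436.FP.Sch

/-!
# Fibre products of conic bundles over an arbitrary field (helper436)
-/

set_option autoImplicit false

namespace Pool.Agent.H436.FP

open Pool.Agent.H436.HP Pool.Agent.H436.HQ Pool.Agent.TH178.HI MvPolynomial

/-- **Function fields of fibre products of conic bundles.** -/
theorem gen_uni {F : Type} [Field F] [CharZero F] {n m : ℕ} {a f : Fin m → MvPolynomial (Fin n) F}
    (ha : ∀ i, a i ≠ 0) (hf : ∀ i, f i ≠ 0) (hT : Typ a f) :
    ∃ h : MvPolynomial (Fin n) F, h ≠ 0 ∧ ∀ c : Fin n → F, eval c h ≠ 0 →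
      (∀ i, ∃ X Y W : F, ¬ (X = 0 ∧ Y = 0 ∧ W = 0) ∧
        X ^ 2 = eval c (a i) * Y ^ 2 + eval c (f i) * W ^ 2) →
      ∀ (K : Type) [Field K] [Algebra F K], IsPF F a f K → Uni F K := by
  choose s a' ha' hsa using fun i => exists_sq (ha i)
  choose ρ f' hf' hsf using fun i => exists_sq (hf i)
  have hs : ∀ i, s i ≠ 0 := fun i h => ha i (by rw [ha', h]; ring)
  have hρ : ∀ i, ρ i ≠ 0 := fun i h => hf i (by rw [hf', h]; ring)
  obtain ⟨H, hH, hH'⟩ := exists_Hfam (g := Sum.elim a' f') (by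
    rintro (i | i)
    · exact hsa i
    · exact hsf i)
  have hdeg : ∀ (s g : MvPolynomial (Fin n) F) (j : Fin n), s ≠ 0 → g ≠ 0 →
      degreeOf j g ≤ degreeOf j (s ^ 2 * g) := fun s g j hs hg => by
    rw [degreeOf_mul_eq (pow_ne_zero 2 hs) hg]
    omega
  have hda : ∀ i j, degreeOf j (a' i) ≤ degreeOf j (a i) := fun i j => by
    rw [ha' i]; exact hdeg _ _ _ (hs i) (hsa i).ne_zero
  have hdf : ∀ i j, degreeOf j (f' i) ≤ degreeOf j (f i) := fun i j => by
    rw [hf' i]; exact hdeg _ _ _ (hρ i) (hsf i).ne_zero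
  refine ⟨(∏ i, (s i * ρ i)) * H, mul_ne_zero (Finset.prod_ne_zero_iff.2 fun i _ =>
    mul_ne_zero (hs i) (hρ i)) hH, ?_⟩
  intro c hc hXY K _ _ hK
  rw [map_mul, map_prod] at hc
  have hc1 : ∀ i, eval c (s i) ≠ 0 ∧ eval c (ρ i) ≠ 0 := fun i => by
    have h1 := Finset.prod_ne_zero_iff.1 (left_ne_zero_of_mul hc) i (Finset.mem_univ i)
    rw [map_mul] at h1
    exact ⟨left_ne_zero_of_mul h1, right_ne_zero_of_mul h1⟩
  obtain ⟨t1, t2, t3⟩ := hT
  refine uni_good (a := a') (f := f') (H := H) (c := c) ⟨?_, ?_, ?_⟩ ?_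
    (right_ne_zero_of_mul hc) ?_ (pf_change ha' hf' hs hρ hK)
  · intro j i
    rcases t1 j i with h | h
    · refine Or.inl fun h' => h ?_
      rw [mem_vars_iff_degreeOf_ne_zero] at h' ⊢
      have := hda i j
      omega
    · refine Or.inr fun h' => h ?_
      rw [mem_vars_iff_degreeOf_ne_zero] at h' ⊢
      have := hdf i j
      omega
  · intro j
    refine (Finset.card_le_card fun i hi => ?_).trans (t2 j)
    rw [Finset.mem_filter] at hi ⊢
    have h1 := hda i j
    have h2 := hdf i j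
    exact ⟨Finset.mem_univ _, by have := hi.2; omega⟩
  · intro j
    refine (Finset.sum_le_sum fun i _ => ?_).trans (t3 j)
    have h1 := hda i j
    have h2 := hdf i j
    omega
  · intro E _ _ z hz
    exact hH' E z hz
  · intro i
    obtain ⟨X, Y, W, h0, hX⟩ := hXY i
    refine ⟨X, eval c (s i) * Y, eval c (ρ i) * W, ?_, ?_⟩
    · rintro ⟨h1, h2, h3⟩
      exact h0 ⟨h1, (mul_eq_zero.1 h2).resolve_left (hc1 i).1,
        (mul_eq_zero.1 h3).resolve_left (hc1 i).2⟩
    · rw [hX, ha', hf', map_mul, map_mul, map_pow, map_pow]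
      ring

end Pool.Agent.H436.FP
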