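import Pool.Agent.H436.FP.Pol

/-!
# Moves in one direction for several polynomials (helper436)
-/

set_option autoImplicit false

namespace Pool.Agent.H436.FP

open Polynomial Pool.Agent.H436.HP

section basic

variable {F Ω : Type*} [Field F] [Field Ω] [Algebra F Ω]

lemma ne_of_tr {s : Ω} (hs : Transcendental F s) {p : F[X]} (hp : p ≠ 0) : aeval s p ≠ 0 :=
  fun h => hs ⟨p, hp, h⟩

lemma quad_ne {s : Ω} (hs : Transcendental F s) {A B : F} (h : A ≠ 0 ∨ B ≠ 0) :
    s ^ 2 * algebraMap F Ω A + algebraMap F Ω B ≠ 0 := by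
  have hp : (X ^ 2 * C A + C B : F[X]) ≠ 0 := by
    intro h0
    rcases h with h | h
    · apply h
      have := congrArg (fun p => coeff p 2) h0
      simpa [coeff_X_pow, coeff_C] using this
    · apply h
      have := congrArg (fun p => coeff p 0) h0
      simpa [coeff_X_pow, coeff_C] using this
  have := ne_of_tr hs hp
  rw [mul_comm]
  simpa using this

lemma quart_ne {s : Ω} (hs : Transcendental F s) {A B D : F} (h : A ≠ 0) :
    algebraMap F Ω A * s ^ 4 + algebraMap F Ω B * s ^ 2 + algebraMap F Ω D ≠ 0 := by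
  have hp : (C A * X ^ 4 + C B * X ^ 2 + C D : F[X]) ≠ 0 := by
    intro h0
    apply h
    have := congrArg (fun p => coeff p 4) h0
    simpa [coeff_X_pow, coeff_C] using this
  have := ne_of_tr hs hp
  simpa using this

/-- A nonconstant fraction of a transcendental element is transcendental. -/
lemma tr_frac {z : Ω} (hz : Transcendental F z) {A B : F[X]} (hA : A ≠ 0) (hA0 : A.coeff 0 = 0)
    (hB0 : B.coeff 0 ≠ 0) : Transcendental F (aeval z A / aeval z B) := by
  intro hal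
  have hB : B ≠ 0 := by
    rintro rfl
    exact hB0 (coeff_zero 0)
  have hA' := ne_of_tr hz hA
  have hB' := ne_of_tr hz hB
  obtain ⟨y, hy⟩ : ∃ y, y = aeval z A / aeval z B := ⟨_, rfl⟩
  have hy0 : y ≠ 0 := by rw [hy]; exact div_ne_zero hA' hB'
  rw [← hy] at hal
  obtain ⟨y', hy'⟩ : ∃ y' : algebraicClosure F Ω, (y' : Ω) = y :=
    ⟨⟨y, mem_algebraicClosure_iff.2 hal⟩, rfl⟩
  have hy'0 : y' ≠ 0 := by
    rintro rfl
    exact hy0 hy'.symm
  obtain ⟨G, hG⟩ : ∃ G : Polynomial (algebraicClosure F Ω),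
    G = A.map (algebraMap F _) - C y' * B.map (algebraMap F _) := ⟨_, rfl⟩
  have hG0 : G ≠ 0 := by
    intro h
    have h2 := congrArg (fun p => coeff p 0) h
    rw [hG] at h2
    simp only [coeff_sub, coeff_map, coeff_C_mul, coeff_zero] at h2
    rw [hA0, map_zero, zero_sub, neg_eq_zero, mul_eq_zero] at h2
    rcases h2 with h2 | h2
    · exact hy'0 h2
    · rw [map_eq_zero_iff _ (algebraMap F (algebraicClosure F Ω)).injective] at h2
      exact hB0 h2
  have hGs : aeval z G = 0 := by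
    rw [hG, map_sub, map_mul, aeval_C, aeval_map_algebraMap, aeval_map_algebraMap]
    change _ - (y' : Ω) * _ = 0
    rw [hy', hy]
    field_simp
    ring
  have h3 : IsAlgebraic (algebraicClosure F Ω) z := ⟨G, hG0, hGs⟩
  exact hz (h3.restrictScalars F)

/-- `u` is `v` times a norm -/
def Nm (o u v : Ω) : Prop := ∃ P Q : Ω, u = v * (P ^ 2 - o * Q ^ 2)

lemma tc_high {f : F[X]} {d : ℕ} (hf : f.natDegree ≤ d) (z : Ω) {k : Fin 9} (hk : d < (k : ℕ)) :
    tc f z k = 0 := by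
  rw [tc, hasseDeriv_eq_zero_of_lt_natDegree _ _ (lt_of_le_of_lt hf hk), map_zero]

lemma h4_eq {f : F[X]} (hf : f.natDegree ≤ 4) (z : Ω) {T D : Ω} (hD : D ≠ 0) :
    h4 (tc f z) T D = D ^ 4 * aeval (z + T / D) f := by
  rw [← pv8_tc (hf.trans (by norm_num)), pv8, tc_high hf z (k := 5) (by decide),
    tc_high hf z (k := 6) (by decide), tc_high hf z (k := 7) (by decide),
    tc_high hf z (k := 8) (by decide), h4]
  field_simp
  ring

lemma h2_eq {f : F[X]} (hf : f.natDegree ≤ 2) (z : Ω) {T D : Ω} (hD : D ≠ 0) :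
    h2 (tc f z) T D = D ^ 2 * aeval (z + T / D) f := by
  rw [← pv8_tc (hf.trans (by norm_num)), pv8, tc_high hf z (k := 3) (by decide),
    tc_high hf z (k := 4) (by decide), tc_high hf z (k := 5) (by decide),
    tc_high hf z (k := 6) (by decide), tc_high hf z (k := 7) (by decide),
    tc_high hf z (k := 8) (by decide), h2]
  field_simp
  ring

lemma h6_eq {f : F[X]} (hf : f.natDegree ≤ 6) (z : Ω) {T D : Ω} (hD : D ≠ 0) :
    h6 (tc f z) T D = D ^ 6 * aeval (z + T / D) f := by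
  rw [← pv8_tc (hf.trans (by norm_num)), pv8, tc_high hf z (k := 7) (by decide),
    tc_high hf z (k := 8) (by decide), h6]
  field_simp
  ring

lemma tc_base (f : F[X]) (c : F) (k : Fin 9) :
    tc f (algebraMap F Ω c) k = algebraMap F Ω (tc f c k) :=
  (congrFun (tc_map (Algebra.ofId F Ω) f c) k).symm

end basic

section mv8

variable {F Ω : Type*} [Field F] [CharZero F] [Field Ω] [Algebra F Ω]

/-- One polynomial of degree at most eight. -/
theorem mv8 {g : F[X]} (hg : g.natDegree ≤ 8) {o c : F} (ho : o ≠ 0) (h0 : tc g c 0 ≠ 0)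
    (h1 : tc g c 1 ≠ 0) (hw : W8 (tc g c) ≠ 0) {σ : Ω} (hσ : Transcendental F σ) :
    ∃ T : Ω, Transcendental F T ∧
      Nm (algebraMap F Ω o) (aeval T g) (algebraMap F Ω (tc g c 0)) := by
  have hw' : vec 0 (Gs (tc g c)) 2 ≠ 0 := by
    intro h
    apply hw
    have e : vec 0 (Gs (tc g c)) 2 = -112 + 6 * (64 * tc g c 2 * tc g c 0 / tc g c 1 ^ 2) +
      (-512 * tc g c 3 * tc g c 0 ^ 2 / tc g c 1 ^ 3) := rfl
    rw [e] at h
    field_simp at h
    rw [W8]
    linear_combination (-1 / 16) * h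
  have : CharZero Ω := charZero_of_injective_algebraMap (algebraMap F Ω).injective
  have hoΩ : algebraMap F Ω o ≠ 0 := (map_ne_zero_iff _ (algebraMap F Ω).injective).2 ho
  have hσ0 : σ ≠ 0 := by
    rintro rfl
    exact hσ isAlgebraic_zero
  have hc : tc g (algebraMap F Ω c) = fun k => algebraMap F Ω (tc g c k) :=
    (tc_map (Algebra.ofId F Ω) g c).symm
  obtain ⟨hJ, hN⟩ := gen_ne (Ω := Ω) hw' (trs ho hσ)
  rw [← hc] at hJ hN
  obtain ⟨P, Q, hPQ⟩ := val_one hg (z := algebraMap F Ω c) (A := algebraMap F Ω o * σ ^ 2)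
    (by rw [hc]; exact (map_ne_zero_iff _ (algebraMap F Ω).injective).2 h1)
    (mul_ne_zero hoΩ (pow_ne_zero _ hσ0)) hJ hN
  refine ⟨m1 g o c σ, m1_tr ho h0 h1 hw' hσ, P, σ * Q, ?_⟩
  change aeval (m1 g o c σ) g = _ at hPQ
  rw [hPQ, tc_zero, ← aeval_algebraMap_apply]
  ring

end mv8

section mv44

variable {F F₁ Ω : Type*} [Field F] [CharZero F] [Field F₁] [Algebra F F₁] [Field Ω]
  [Algebra F₁ Ω] [Algebra F Ω] [IsScalarTower F F₁ Ω]

omit [CharZero F] in
lemma tr_add {y : Ω} (hy : Transcendental F₁ y) (c : F) :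
    Transcendental F (algebraMap F Ω c + y) := by
  intro h
  apply hy
  have h1 : IsAlgebraic F₁ (algebraMap F Ω c + y) := h.tower_top F₁
  have h2 : IsAlgebraic F₁ (algebraMap F Ω c) := by
    rw [IsScalarTower.algebraMap_apply F F₁ Ω]
    exact isAlgebraic_algebraMap _
  have e : y = (algebraMap F Ω c + y) - algebraMap F Ω c := by ring
  rw [e]
  exact h1.sub h2

/-- Two polynomials of degree at most four. -/
theorem mv44 {f g : F[X]} (hf4 : f.natDegree ≤ 4) (hg4 : g.natDegree ≤ 4) {o o' c : F}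
    (ho : o ≠ 0) (ho' : o' ≠ 0) (hf0 : tc f c 0 ≠ 0) (hK : K4 (tc f c) ≠ 0)
    (hg0 : tc g c 0 ≠ 0) (hg1 : tc g c 1 ≠ 0) (hH : H4 (tc g c) ≠ 0) {s : F₁}
    (hs : Transcendental F s) {σ : Ω} (hσ : Transcendental F₁ σ) :
    ∃ T : Ω, Transcendental F T ∧
      Nm (algebraMap F Ω o) (aeval T f) (algebraMap F Ω (tc f c 0)) ∧
      Nm (algebraMap F Ω o') (aeval T g) (algebraMap F Ω (tc g c 0)) := by
  have i1 := (algebraMap F F₁).injective
  have : CharZero F₁ := charZero_of_injective_algebraMap i1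
  have : CharZero Ω := charZero_of_injective_algebraMap (algebraMap F Ω).injective
  have hs0 : s ≠ 0 := by
    rintro rfl
    exact hs isAlgebraic_zero
  obtain ⟨ι, hι⟩ : ∃ ι : F →+* F₁, ι = algebraMap F F₁ := ⟨_, rfl⟩
  obtain ⟨φ, hφ⟩ : ∃ φ : Fin 9 → F, φ = fun k => tc f c k / tc f c 0 := ⟨_, rfl⟩
  have hφ0 : φ 0 = 1 := by rw [hφ]; exact div_self hf0
  have hKφ : K4 φ ≠ 0 := by
    intro h
    apply hK
    rw [hφ, K4] at h
    field_simp at h
    rw [K4]
    linear_combination h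
  have hO : ι o ≠ 0 := (map_ne_zero_iff _ (hι ▸ i1)).2 ho
  obtain ⟨r2, hr2⟩ : ∃ r2 : F₁, r2 = (ι (φ 2) - ι (φ 1) ^ 2 / 4 + ι o * s ^ 2) / 2 := ⟨_, rfl⟩
  obtain ⟨q, hq⟩ : ∃ q : F₁, q = (ι (φ 3) - ι (φ 1) * r2) / (2 * ι o * s) := ⟨_, rfl⟩
  obtain ⟨l, hl⟩ : ∃ l : F₁, l = (ι (φ 4) - r2 ^ 2) / ι o := ⟨_, rfl⟩
  have e2 : 2 * r2 = ι (φ 2) - ι (φ 1) ^ 2 / 4 + ι o * s ^ 2 := by rw [hr2]; ring
  have e3 : 2 * ι o * s * q = ι (φ 3) - ι (φ 1) * r2 := by rw [hq]; field_simp
  have e4 : ι o * l = ι (φ 4) - r2 ^ 2 := by rw [hl]; field_simp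
  obtain ⟨G, hG⟩ : ∃ G : Fin 9 → F₁, G = fun k => ι (tc g c k) := ⟨_, rfl⟩
  obtain ⟨p, hp⟩ : ∃ p, p = p44 G s q l := ⟨_, rfl⟩
  obtain ⟨c0, c1, -, -⟩ := p44_tc G s q l
  have hGH : H4 G = ι (H4 (tc g c)) := by
    rw [hG]; simp only [H4, map_sub, map_mul, map_pow, map_ofNat]
  have hGW : W8 G = ι (W8 (tc g c)) := by
    rw [hG]; simp only [W8, map_sub, map_add, map_mul, map_pow, map_ofNat]
  have hφK : K4 (fun k => ι (φ k)) = ι (K4 φ) := by
    simp only [K4, map_sub, map_add, map_mul, map_pow, map_ofNat]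
  have hW : W8 (tc p (0 : F₁)) ≠ 0 := by
    intro h
    have e := W8_p44 hs0 hO (f := fun k => ι (φ k)) (g := G) (q := q) (l := l) e2 e3
      (by rw [hφ0, map_one])
    rw [← hp, h, mul_zero, hGH, hGW, hφK] at e
    have e0 : G 0 = ι (tc g c 0) := by rw [hG]
    rw [e0] at e
    have h2 := quad_ne (Ω := F₁) hs (A := o * (φ 1 * tc g c 0 * H4 (tc g c) - W8 (tc g c)))
      (B := -(tc g c 0 * H4 (tc g c) * K4 φ / 4)) (Or.inr (neg_ne_zero.2 (div_ne_zero
        (mul_ne_zero (mul_ne_zero hg0 hH) hKφ) (by norm_num))))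
    rw [← hι] at h2
    have h3 : (8 : F₁) * s ≠ 0 := mul_ne_zero (by norm_num) hs0
    apply mul_ne_zero h3 h2
    rw [e]
    simp only [map_sub, map_mul, map_neg, map_div₀, map_ofNat]
    ring
  obtain ⟨Z, hZ, P, Q, hPQ⟩ := mv8 (F := F₁) (Ω := Ω) (g := p) (by rw [hp]; exact p44_deg G s q l)
    (o := algebraMap F F₁ o') (c := 0) ((map_ne_zero_iff _ i1).2 ho')
    (by rw [hp, c0, hG]; exact (map_ne_zero_iff _ (hι ▸ i1)).2 hg0)
    (by
      rw [hp, c1, hG]
      exact mul_ne_zero (mul_ne_zero (by norm_num) ((map_ne_zero_iff _ (hι ▸ i1)).2 hg1)) hs0)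
    hW hσ
  obtain ⟨j, hj⟩ : ∃ j : F₁ →+* Ω, j = algebraMap F₁ Ω := ⟨_, rfl⟩
  have hjι : ∀ x, j (ι x) = algebraMap F Ω x := fun x => by
    rw [hj, hι, ← IsScalarTower.algebraMap_apply]
  have hTp : aeval Z (T4 (C s) (C q) (X : F₁[X])) = T4 (j s) (j q) Z := by
    have h := T4_map (aeval Z : F₁[X] →ₐ[F₁] Ω).toRingHom (C s) (C q) X
    rw [hj]
    simpa using h
  have hDp : aeval Z (D4 (C l) (X : F₁[X])) = D4 (j l) Z := by
    have h := D4_map (aeval Z : F₁[X] →ₐ[F₁] Ω).toRingHom (C l) X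
    rw [hj]
    simpa using h
  have hT0 : (T4 (C s) (C q) (X : F₁[X])).coeff 0 = 0 := by
    rw [T4, mul_comm, mul_assoc, coeff_X_mul_zero]
  have hT1 : T4 (C s) (C q) (X : F₁[X]) ≠ 0 := by
    intro h
    have h1 := congrArg (fun p => coeff p 1) h
    have e : T4 (C s) (C q) (X : F₁[X]) = C (-2 * s) * X + C (-2 * s * q) * X ^ 2 := by
      rw [T4]
      simp only [map_mul, map_neg, map_ofNat]
      ring
    rw [e] at h1
    simp only [coeff_add, coeff_C_mul, coeff_X_pow, coeff_X, coeff_zero] at h1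
    norm_num at h1
    exact hs0 h1
  have hD0 : (D4 (C l) (X : F₁[X])).coeff 0 ≠ 0 := by
    rw [D4, coeff_add, coeff_C_mul, coeff_X_pow, coeff_one]
    norm_num
  have htr := tr_frac hZ hT1 hT0 hD0
  have hD : D4 (j l) Z ≠ 0 := by
    rw [← hDp]
    exact ne_of_tr hZ (fun h => hD0 (by rw [h, coeff_zero]))
  rw [hTp, hDp] at htr
  refine ⟨algebraMap F Ω c + T4 (j s) (j q) Z / D4 (j l) Z, tr_add htr c, ?_, ?_⟩
  · have h1 := h4_eq hf4 (algebraMap F Ω c) (T := T4 (j s) (j q) Z) hD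
    have h2 := quart_id (o := algebraMap F Ω o) (s := j s) (q := j q) (l := j l) (r2 := j r2)
      (z := Z) (g := fun k => algebraMap F Ω (φ k)) (by rw [hφ0, map_one])
      (by
        have := congrArg j e2
        simp only [map_mul, map_sub, map_add, map_pow, map_div₀, map_ofNat, hjι] at this
        exact this)
      (by
        have := congrArg j e3
        simp only [map_mul, map_sub, map_ofNat, hjι] at this
        exact this)
      (by
        have := congrArg j e4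
        simp only [map_mul, map_sub, map_pow, hjι] at this
        exact this)
    have h3 : h4 (tc f (algebraMap F Ω c)) (T4 (j s) (j q) Z) (D4 (j l) Z) =
        algebraMap F Ω (tc f c 0) *
          h4 (fun k => algebraMap F Ω (φ k)) (T4 (j s) (j q) Z) (D4 (j l) Z) := by
      have h4' : ∀ k, tc f (algebraMap F Ω c) k =
          algebraMap F Ω (tc f c 0) * algebraMap F Ω (φ k) := fun k => by
        rw [tc_base, ← map_mul, hφ]
        congr 1
        field_simp
      rw [h4, h4, h4' 0, h4' 1, h4' 2, h4' 3, h4' 4]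
      ring
    rw [h3, h2] at h1
    generalize T4 (j s) (j q) Z = T at h1 ⊢
    generalize D4 (j l) Z = D at h1 hD ⊢
    refine ⟨(D ^ 2 + algebraMap F Ω (φ 1) / 2 * T * D + j r2 * T ^ 2) / D ^ 2,
      (j s * T * D + 4 * j s ^ 2 * Z * (1 + j q * Z) ^ 2) / D ^ 2, ?_⟩
    have h5 : aeval (algebraMap F Ω c + T / D) f =
        (D ^ 4 * aeval (algebraMap F Ω c + T / D) f) / D ^ 4 := by field_simp
    rw [h5, ← h1]
    field_simp
  · have h1 := h4_eq hg4 (algebraMap F Ω c) (T := T4 (j s) (j q) Z) hD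
    have h3 : aeval Z p = h4 (tc g (algebraMap F Ω c)) (T4 (j s) (j q) Z) (D4 (j l) Z) := by
      have h := h4_map (aeval Z : F₁[X] →ₐ[F₁] Ω).toRingHom (fun k => C (G k))
        (T4 (C s) (C q) X) (D4 (C l) X)
      rw [hp, p44]
      refine Eq.trans h ?_
      have hc : (fun i => (aeval Z : F₁[X] →ₐ[F₁] Ω).toRingHom (C (G i))) =
          tc g (algebraMap F Ω c) := by
        funext k
        rw [tc_base, ← hjι, hj]
        change aeval Z (C (G k)) = _
        rw [aeval_C, hG]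
      rw [hc]
      congr 1
    rw [← h3, hPQ, hp, c0] at h1
    refine ⟨P / D4 (j l) Z ^ 2, Q / D4 (j l) Z ^ 2, ?_⟩
    have h5 : aeval (algebraMap F Ω c + T4 (j s) (j q) Z / D4 (j l) Z) g =
        (D4 (j l) Z ^ 4 * aeval (algebraMap F Ω c + T4 (j s) (j q) Z / D4 (j l) Z) g) /
          D4 (j l) Z ^ 4 := by field_simp
    have h6 : algebraMap F₁ Ω (G 0) = algebraMap F Ω (tc g c 0) := by
      rw [← hjι, hj, hG]
    rw [h5, ← h1, h6, IsScalarTower.algebraMap_apply F F₁ Ω o']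
    field_simp

end mv44

end Pool.Agent.H436.FP
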