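import Pool.Agent.H436.FP.Mv

/-!
# Moves in one direction for several polynomials, the other types (helper436)
-/

set_option autoImplicit false

namespace Pool.Agent.H436.FP

open Polynomial Pool.Agent.H436.HP

section mv62

variable {F F₁ Ω : Type*} [Field F] [CharZero F] [Field F₁] [Algebra F F₁] [Field Ω]
  [Algebra F₁ Ω] [Algebra F Ω] [IsScalarTower F F₁ Ω]

/-- A polynomial of degree at most six and one of degree at most two. -/
theorem mv62 {f g : F[X]} (hf6 : f.natDegree ≤ 6) (hg2 : g.natDegree ≤ 2) {o o' c : F}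
    (ho : o ≠ 0) (ho' : o' ≠ 0) (hf0 : tc f c 0 ≠ 0) (hg0 : tc g c 0 ≠ 0)
    (hJ1 : tc g c 1 * tc f c 0 - tc f c 1 * tc g c 0 ≠ 0)
    (hJ3 : 3 * tc g c 1 * tc f c 0 - tc f c 1 * tc g c 0 ≠ 0) {s : F₁}
    (hs : Transcendental F s) {σ : Ω} (hσ : Transcendental F₁ σ) :
    ∃ T : Ω, Transcendental F T ∧
      Nm (algebraMap F Ω o) (aeval T f) (algebraMap F Ω (tc f c 0)) ∧
      Nm (algebraMap F Ω o') (aeval T g) (algebraMap F Ω (tc g c 0)) := by
  have i1 := (algebraMap F F₁).injective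
  have : CharZero F₁ := charZero_of_injective_algebraMap i1
  have : CharZero Ω := charZero_of_injective_algebraMap (algebraMap F Ω).injective
  have hs0 : s ≠ 0 := by
    rintro rfl
    exact hs isAlgebraic_zero
  obtain ⟨ι, hι⟩ : ∃ ι : F →+* F₁, ι = algebraMap F F₁ := ⟨_, rfl⟩
  obtain ⟨φ, hφ⟩ : ∃ φ : Fin 9 → F, φ = fun k => tc f c k / tc f c 0 := ⟨_, rfl⟩
  have hφ0 : φ 0 = 1 := by rw [hφ]; exact div_self hf0
  have hφ1 : φ 1 * tc f c 0 = tc f c 1 := by rw [hφ]; exact div_mul_cancel₀ _ hf0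
  have hO : ι o ≠ 0 := (map_ne_zero_iff _ (hι ▸ i1)).2 ho
  obtain ⟨r1, hr1⟩ : ∃ r1 : F₁, r1 = ι (φ 1) / 2 := ⟨_, rfl⟩
  obtain ⟨r2, hr2⟩ : ∃ r2 : F₁, r2 = (ι (φ 2) - r1 ^ 2 + ι o * s ^ 2) / 2 := ⟨_, rfl⟩
  obtain ⟨ρ, hρ⟩ : ∃ ρ : F₁, ρ = (ι (φ 3) - 2 * r1 * r2) / 2 := ⟨_, rfl⟩
  obtain ⟨μ, hμ⟩ : ∃ μ : F₁, μ = (2 * r1 * ρ + r2 ^ 2 - ι (φ 4)) / (2 * ι o * s) := ⟨_, rfl⟩
  have e1 : ι (φ 1) = 2 * r1 := by rw [hr1]; ring
  have e2 : 2 * r2 = ι (φ 2) - r1 ^ 2 + ι o * s ^ 2 := by rw [hr2]; ring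
  have e3 : 2 * ρ = ι (φ 3) - 2 * r1 * r2 := by rw [hρ]; ring
  have e4 : 2 * ι o * s * μ = 2 * r1 * ρ + r2 ^ 2 - ι (φ 4) := by rw [hμ]; field_simp
  obtain ⟨G, hG⟩ : ∃ G : Fin 9 → F₁, G = fun k => ι (tc g c k) := ⟨_, rfl⟩
  obtain ⟨p, hp⟩ : ∃ p, p = p62 G (ι o) s r1 r2 ρ μ (ι (φ 5)) (ι (φ 6)) := ⟨_, rfl⟩
  obtain ⟨c0, c1⟩ := tc1_p62 (g := G) (o := ι o) (s := s) (r1 := r1) (r2 := r2) (ρ := ρ)
    (μ := μ) (p5 := ι (φ 5)) (p6 := ι (φ 6))
  have hW : W8 (tc p (0 : F₁)) ≠ 0 := by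
    rw [hp, W8_p62 e2 e3]
    refine mul_ne_zero (mul_ne_zero (mul_ne_zero (by norm_num) (pow_ne_zero _ hO))
      (pow_ne_zero _ hs0)) ?_
    have h2 := quad_ne (Ω := F₁) hs
      (A := 2 * o * tc g c 0 ^ 2 * (3 * tc g c 1 - φ 1 * tc g c 0))
      (B := 7 * tc g c 1 ^ 3 - 24 * tc g c 0 * tc g c 1 * tc g c 2 +
        16 * tc g c 0 ^ 2 * tc g c 2 * (φ 1 / 2) - 6 * tc g c 0 * tc g c 1 ^ 2 * (φ 1 / 2) -
        4 * tc g c 0 ^ 3 * φ 3 + (2 * tc g c 0 ^ 2 * tc g c 1 + 4 * tc g c 0 ^ 3 * (φ 1 / 2)) *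
          (φ 2 - (φ 1 / 2) ^ 2)) (Or.inl (mul_ne_zero (mul_ne_zero
            (mul_ne_zero (by norm_num) ho) (pow_ne_zero _ hg0)) (by
              intro h
              apply hJ3
              rw [← hφ1]
              linear_combination tc f c 0 * h)))
    rw [← hι] at h2
    intro h
    apply h2
    rw [← h, hr1, hG]
    simp only [map_add, map_sub, map_mul, map_pow, map_div₀, map_ofNat]
    ring
  obtain ⟨Z, hZ, P, Q, hPQ⟩ := mv8 (F := F₁) (Ω := Ω) (g := p) (by rw [hp]; exact p62_deg _ _ _ _ _ _ _ _ _)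
    (o := algebraMap F F₁ o') (c := 0) ((map_ne_zero_iff _ i1).2 ho')
    (by
      rw [hp, c0, hG]
      exact mul_ne_zero (pow_ne_zero _ hO) ((map_ne_zero_iff _ (hι ▸ i1)).2 hg0))
    (by
      rw [hp, c1]
      refine mul_ne_zero (mul_ne_zero (mul_ne_zero (by norm_num) (pow_ne_zero _ hO)) hs0) ?_
      have h : G 1 - 2 * r1 * G 0 = ι (tc g c 1 - φ 1 * tc g c 0) := by
        rw [hG, map_sub, map_mul, e1]
      rw [h]
      refine (map_ne_zero_iff _ (hι ▸ i1)).2 ?_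
      intro h
      apply hJ1
      rw [← hφ1]
      linear_combination tc f c 0 * h)
    hW hσ
  obtain ⟨j, hj⟩ : ∃ j : F₁ →+* Ω, j = algebraMap F₁ Ω := ⟨_, rfl⟩
  have hjι : ∀ x, j (ι x) = algebraMap F Ω x := fun x => by
    rw [hj, hι, ← IsScalarTower.algebraMap_apply]
  obtain ⟨TP, hTP⟩ : ∃ TP, TP = T6 (C (ι o)) (C s) (C r1) (C r2) (C ρ) (C μ) (C (ι (φ 5)))
    (X : F₁[X]) := ⟨_, rfl⟩
  obtain ⟨DP, hDP⟩ : ∃ DP, DP = D6 (C (ι o)) (C s) (C r1) (C ρ) (C μ) (C (ι (φ 6)))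
    (X : F₁[X]) := ⟨_, rfl⟩
  have hTp : aeval Z TP = T6 (algebraMap F Ω o) (j s) (j r1) (j r2) (j ρ) (j μ)
      (algebraMap F Ω (φ 5)) Z := by
    have h := T6_map (aeval Z : F₁[X] →ₐ[F₁] Ω).toRingHom (C (ι o)) (C s) (C r1) (C r2) (C ρ) (C μ)
      (C (ι (φ 5))) X
    rw [hTP, ← hjι, ← hjι, hj]
    simpa using h
  have hDp : aeval Z DP = D6 (algebraMap F Ω o) (j s) (j r1) (j ρ) (j μ)
      (algebraMap F Ω (φ 6)) Z := by
    have h := D6_map (aeval Z : F₁[X] →ₐ[F₁] Ω).toRingHom (C (ι o)) (C s) (C r1) (C ρ) (C μ)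
      (C (ι (φ 6))) X
    rw [hDP, ← hjι, ← hjι, hj]
    simpa using h
  have hT0 : TP.coeff 0 = 0 := by
    rw [hTP, T6, mul_comm, mul_assoc, coeff_X_mul_zero]
  have hT1 : TP ≠ 0 := by
    intro h
    have h1 := congrArg (fun p => coeff p 1) h
    rw [hTP, T6_eq] at h1
    simp only [coeff_add, coeff_C_mul, coeff_X_pow, coeff_X, coeff_zero] at h1
    norm_num at h1
    rcases h1 with h1 | h1
    · exact ho h1
    · exact hs0 h1
  have hD0 : DP.coeff 0 ≠ 0 := by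
    rw [hDP, D6_eq]
    simp only [coeff_add, coeff_C_mul, coeff_X_pow, coeff_X, coeff_C]
    norm_num
    exact ho
  have htr := tr_frac hZ hT1 hT0 hD0
  have hD := ne_of_tr hZ (p := DP) (fun h => hD0 (by rw [h, coeff_zero]))
  obtain ⟨T, hT⟩ : ∃ T, T = aeval Z TP := ⟨_, rfl⟩
  obtain ⟨D, hDD⟩ : ∃ D, D = aeval Z DP := ⟨_, rfl⟩
  rw [← hT, ← hDD] at htr
  rw [← hDD] at hD
  refine ⟨algebraMap F Ω c + T / D, tr_add htr c, ?_, ?_⟩
  · have h1 := h6_eq hf6 (algebraMap F Ω c) (T := T) hD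
    have h2 := sext_id (o := algebraMap F Ω o) (s := j s) (r1 := j r1) (r2 := j r2) (ρ := j ρ)
      (μ := j μ) (z := Z) (g := fun k => algebraMap F Ω (φ k)) (by rw [hφ0, map_one])
      (by
        have := congrArg j e1
        rwa [hjι, map_mul, map_ofNat] at this)
      (by
        have := congrArg j e2
        simp only [map_mul, map_sub, map_add, map_pow, map_ofNat, hjι] at this
        linear_combination -this)
      (by
        have := congrArg j e3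
        simp only [map_mul, map_sub, map_ofNat, hjι] at this
        linear_combination -this)
      (by
        have := congrArg j e4
        simp only [map_mul, map_sub, map_add, map_pow, map_ofNat, hjι] at this
        linear_combination this) (T := T) (D := D) rfl (by rw [hDD, hDp]) (by
          rw [hT, hTp, T6])
    have h3 : h6 (tc f (algebraMap F Ω c)) T D =
        algebraMap F Ω (tc f c 0) * h6 (fun k => algebraMap F Ω (φ k)) T D := by
      have h4' : ∀ k, tc f (algebraMap F Ω c) k =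
          algebraMap F Ω (tc f c 0) * algebraMap F Ω (φ k) := fun k => by
        rw [tc_base, ← map_mul, hφ]
        congr 1
        field_simp
      rw [h6, h6, h4' 0, h4' 1, h4' 2, h4' 3, h4' 4, h4' 5, h4' 6]
      ring
    rw [h3, h2] at h1
    generalize V6 (algebraMap F Ω o) (j s) (j r1) (j r2) (j ρ) (j μ) (algebraMap F Ω (φ 5)) Z = V
      at h1
    generalize a6 (algebraMap F Ω o) (j s) (j ρ) Z = a at h1
    generalize b6 (j s) (j r1) (j μ) Z = b at h1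
    refine ⟨(D ^ 3 + j r1 * T * D ^ 2 + j r2 * T ^ 2 * D + a * (4 * j s * V) * T ^ 2) / D ^ 3,
      (j s * T * D ^ 2 + 4 * j s * V * T * D + 8 * j s * b * V ^ 2 * T) / D ^ 3, ?_⟩
    have h5 : aeval (algebraMap F Ω c + T / D) f =
        (D ^ 6 * aeval (algebraMap F Ω c + T / D) f) / D ^ 6 := by field_simp
    rw [h5, ← h1]
    field_simp
  · have h1 := h2_eq hg2 (algebraMap F Ω c) (T := T) hD
    have h3 : aeval Z p = h2 (tc g (algebraMap F Ω c)) T D := by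
      have h := h2_map (aeval Z : F₁[X] →ₐ[F₁] Ω).toRingHom (fun k => C (G k)) TP DP
      rw [hp, p62, ← hTP, ← hDP]
      refine Eq.trans h ?_
      have hc : (fun i => (aeval Z : F₁[X] →ₐ[F₁] Ω).toRingHom (C (G i))) =
          tc g (algebraMap F Ω c) := by
        funext k
        rw [tc_base, ← hjι, hj]
        change aeval Z (C (G k)) = _
        rw [aeval_C, hG]
      rw [hc, hT, hDD]
      rfl
    rw [← h3, hPQ, hp, c0] at h1
    refine ⟨algebraMap F Ω o * P / D, algebraMap F Ω o * Q / D, ?_⟩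
    have h5 : aeval (algebraMap F Ω c + T / D) g =
        (D ^ 2 * aeval (algebraMap F Ω c + T / D) g) / D ^ 2 := by field_simp
    have h6 : algebraMap F₁ Ω (ι o ^ 2 * G 0) =
        algebraMap F Ω o ^ 2 * algebraMap F Ω (tc g c 0) := by
      rw [← hjι, ← hjι, hj, hG, map_mul, map_pow]
    rw [h5, ← h1, h6, IsScalarTower.algebraMap_apply F F₁ Ω o']
    field_simp

end mv62

section mv422

variable {F F₁ F₂ Ω : Type*} [Field F] [CharZero F] [Field F₁] [Algebra F F₁] [Field F₂]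
  [Algebra F₁ F₂] [Field Ω] [Algebra F₂ Ω] [Algebra F₁ Ω] [IsScalarTower F₁ F₂ Ω]
  [Algebra F Ω] [IsScalarTower F F₁ Ω]

/-- A polynomial of degree at most four and two of degree at most two. -/
theorem mv422 {f g h : F[X]} (hf4 : f.natDegree ≤ 4) (hg2 : g.natDegree ≤ 2)
    (hh2 : h.natDegree ≤ 2) {o o' o'' c : F} (ho : o ≠ 0) (ho' : o' ≠ 0) (ho'' : o'' ≠ 0)
    (hf0 : tc f c 0 ≠ 0) (hK : K4 (tc f c) ≠ 0) (hg0 : tc g c 0 ≠ 0) (hgD : D2 (tc g c) ≠ 0)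
    (hh0 : tc h c 0 ≠ 0) (hh1 : tc h c 1 ≠ 0) {s : F₁} (hs : Transcendental F s) {s' : F₂}
    (hs' : Transcendental F₁ s') {σ : Ω} (hσ : Transcendental F₂ σ) :
    ∃ T : Ω, Transcendental F T ∧
      Nm (algebraMap F Ω o) (aeval T f) (algebraMap F Ω (tc f c 0)) ∧
      Nm (algebraMap F Ω o') (aeval T g) (algebraMap F Ω (tc g c 0)) ∧
      Nm (algebraMap F Ω o'') (aeval T h) (algebraMap F Ω (tc h c 0)) := by
  have i1 := (algebraMap F F₁).injective
  have : CharZero F₁ := charZero_of_injective_algebraMap i1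
  have : CharZero Ω := charZero_of_injective_algebraMap (algebraMap F Ω).injective
  have hs0 : s ≠ 0 := by
    rintro rfl
    exact hs isAlgebraic_zero
  obtain ⟨ι, hι⟩ : ∃ ι : F →+* F₁, ι = algebraMap F F₁ := ⟨_, rfl⟩
  obtain ⟨φ, hφ⟩ : ∃ φ : Fin 9 → F, φ = fun k => tc f c k / tc f c 0 := ⟨_, rfl⟩
  have hφ0 : φ 0 = 1 := by rw [hφ]; exact div_self hf0
  have hKφ : K4 φ ≠ 0 := by
    intro h
    apply hK
    rw [hφ, K4] at h
    field_simp at h
    rw [K4]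
    linear_combination h
  have hO : ι o ≠ 0 := (map_ne_zero_iff _ (hι ▸ i1)).2 ho
  obtain ⟨r2, hr2⟩ : ∃ r2 : F₁, r2 = (ι (φ 2) - ι (φ 1) ^ 2 / 4 + ι o * s ^ 2) / 2 := ⟨_, rfl⟩
  obtain ⟨q, hq⟩ : ∃ q : F₁, q = (ι (φ 3) - ι (φ 1) * r2) / (2 * ι o * s) := ⟨_, rfl⟩
  obtain ⟨l, hl⟩ : ∃ l : F₁, l = (ι (φ 4) - r2 ^ 2) / ι o := ⟨_, rfl⟩
  have e2 : 2 * r2 = ι (φ 2) - ι (φ 1) ^ 2 / 4 + ι o * s ^ 2 := by rw [hr2]; ring
  have e3 : 2 * ι o * s * q = ι (φ 3) - ι (φ 1) * r2 := by rw [hq]; field_simp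
  have e4 : ι o * l = ι (φ 4) - r2 ^ 2 := by rw [hl]; field_simp
  obtain ⟨G, hG⟩ : ∃ G : Fin 9 → F₁, G = fun k => ι (tc g c k) := ⟨_, rfl⟩
  obtain ⟨H, hH⟩ : ∃ H : Fin 9 → F₁, H = fun k => ι (tc h c k) := ⟨_, rfl⟩
  obtain ⟨p, hp⟩ : ∃ p, p = p42 G s q l := ⟨_, rfl⟩
  obtain ⟨p', hp'⟩ : ∃ p', p' = p42 H s q l := ⟨_, rfl⟩
  obtain ⟨c0, c1, -, -⟩ := p42_tc G s q l
  obtain ⟨d0, d1, -, -⟩ := p42_tc H s q l
  have hGD : D2 G = ι (D2 (tc g c)) := by
    rw [hG]; simp only [D2, map_sub, map_mul, map_pow, map_ofNat]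
  have hφK : K4 (fun k => ι (φ k)) = ι (K4 φ) := by
    simp only [K4, map_sub, map_add, map_mul, map_pow, map_ofNat]
  have hKp : K4 (tc p (0 : F₁)) ≠ 0 := by
    intro h
    have e := K4_p42 hs0 hO (f := fun k => ι (φ k)) (g := G) (q := q) (l := l) e2 e3
      (by rw [hφ0, map_one])
    rw [← hp, h, mul_zero, hGD, hφK] at e
    have e0 : G 0 = ι (tc g c 0) := by rw [hG]
    have e1 : G 1 = ι (tc g c 1) := by rw [hG]
    rw [e0, e1] at e
    have h2 := quad_ne (Ω := F₁) hs (A := 8 * o * (tc g c 1 - φ 1 * tc g c 0 / 2))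
      (B := tc g c 0 * K4 φ) (Or.inr (mul_ne_zero hg0 hKφ))
    rw [← hι] at h2
    have h3 : -s * ι (D2 (tc g c)) ≠ 0 :=
      mul_ne_zero (neg_ne_zero.2 hs0) ((map_ne_zero_iff _ (hι ▸ i1)).2 hgD)
    apply mul_ne_zero h3 h2
    rw [e]
    simp only [map_sub, map_mul, map_div₀, map_ofNat]
  have hHp : H4 (tc p' (0 : F₁)) ≠ 0 := by
    intro h0
    have e := H4_p42 hs0 hO (f := fun k => ι (φ k)) (g := H) (q := q) (l := l) e2 e3 e4
    rw [← hp', h0, mul_zero] at e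
    have h2 := quart_ne (Ω := F₁) hs (A := 4 * o ^ 2 * tc h c 0 ^ 2)
      (B := o * (12 * tc h c 1 ^ 2 - 32 * tc h c 0 * tc h c 2 +
        8 * tc h c 0 ^ 2 * (φ 2 - φ 1 ^ 2 / 4) - 4 * tc h c 0 * tc h c 1 * φ 1))
      (D := 16 * tc h c 0 ^ 2 * ((φ 2 - φ 1 ^ 2 / 4) ^ 2 / 4 - φ 4) +
        8 * tc h c 0 * tc h c 1 * (φ 3 - φ 1 * (φ 2 - φ 1 ^ 2 / 4) / 2))
      (mul_ne_zero (mul_ne_zero (by norm_num) (pow_ne_zero _ ho)) (pow_ne_zero _ hh0))
    rw [← hι] at h2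
    apply h2
    rw [e, hH]
    simp only [map_add, map_sub, map_mul, map_pow, map_div₀, map_ofNat]
  obtain ⟨Z, hZ, ⟨P, Q, hPQ⟩, P', Q', hPQ'⟩ := mv44 (F := F₁) (F₁ := F₂) (Ω := Ω) (f := p)
    (g := p') (by rw [hp]; exact p42_deg _ _ _ _) (by rw [hp']; exact p42_deg _ _ _ _)
    (o := algebraMap F F₁ o') (o' := algebraMap F F₁ o'') (c := 0)
    ((map_ne_zero_iff _ i1).2 ho') ((map_ne_zero_iff _ i1).2 ho'')
    (by rw [hp, c0, hG]; exact (map_ne_zero_iff _ (hι ▸ i1)).2 hg0) hKp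
    (by rw [hp', d0, hH]; exact (map_ne_zero_iff _ (hι ▸ i1)).2 hh0)
    (by
      rw [hp', d1, hH]
      exact mul_ne_zero (mul_ne_zero (by norm_num) ((map_ne_zero_iff _ (hι ▸ i1)).2 hh1)) hs0)
    hHp hs' hσ
  obtain ⟨j, hj⟩ : ∃ j : F₁ →+* Ω, j = algebraMap F₁ Ω := ⟨_, rfl⟩
  have hjι : ∀ x, j (ι x) = algebraMap F Ω x := fun x => by
    rw [hj, hι, ← IsScalarTower.algebraMap_apply]
  have hTp : aeval Z (T4 (C s) (C q) (X : F₁[X])) = T4 (j s) (j q) Z := by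
    have h := T4_map (aeval Z : F₁[X] →ₐ[F₁] Ω).toRingHom (C s) (C q) X
    rw [hj]
    simpa using h
  have hDp : aeval Z (D4 (C l) (X : F₁[X])) = D4 (j l) Z := by
    have h := D4_map (aeval Z : F₁[X] →ₐ[F₁] Ω).toRingHom (C l) X
    rw [hj]
    simpa using h
  have hT0 : (T4 (C s) (C q) (X : F₁[X])).coeff 0 = 0 := by
    rw [T4, mul_comm, mul_assoc, coeff_X_mul_zero]
  have hT1 : T4 (C s) (C q) (X : F₁[X]) ≠ 0 := by
    intro h
    have h1 := congrArg (fun p => coeff p 1) h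
    have e : T4 (C s) (C q) (X : F₁[X]) = C (-2 * s) * X + C (-2 * s * q) * X ^ 2 := by
      rw [T4]
      simp only [map_mul, map_neg, map_ofNat]
      ring
    rw [e] at h1
    simp only [coeff_add, coeff_C_mul, coeff_X_pow, coeff_X, coeff_zero] at h1
    norm_num at h1
    exact hs0 h1
  have hD0 : (D4 (C l) (X : F₁[X])).coeff 0 ≠ 0 := by
    rw [D4, coeff_add, coeff_C_mul, coeff_X_pow, coeff_one]
    norm_num
  have htr := tr_frac hZ hT1 hT0 hD0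
  have hD : D4 (j l) Z ≠ 0 := by
    rw [← hDp]
    exact ne_of_tr hZ (fun h => hD0 (by rw [h, coeff_zero]))
  rw [hTp, hDp] at htr
  have key : ∀ {g : F[X]} {G : Fin 9 → F₁} {o : F} {P Q : Ω}, g.natDegree ≤ 2 →
      (G = fun k => ι (tc g c k)) → aeval Z (p42 G s q l) =
        algebraMap F₁ Ω (tc (p42 G s q l) 0 0) * (P ^ 2 - algebraMap F₁ Ω (algebraMap F F₁ o) * Q ^ 2) →
      Nm (algebraMap F Ω o) (aeval (algebraMap F Ω c + T4 (j s) (j q) Z / D4 (j l) Z) g)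
        (algebraMap F Ω (tc g c 0)) := by
    intro g G o P Q hg2 hG hPQ
    have h1 := h2_eq hg2 (algebraMap F Ω c) (T := T4 (j s) (j q) Z) hD
    have h3 : aeval Z (p42 G s q l) =
        h2 (tc g (algebraMap F Ω c)) (T4 (j s) (j q) Z) (D4 (j l) Z) := by
      have h := h2_map (aeval Z : F₁[X] →ₐ[F₁] Ω).toRingHom (fun k => C (G k))
        (T4 (C s) (C q) X) (D4 (C l) X)
      rw [p42]
      refine Eq.trans h ?_
      have hc : (fun i => (aeval Z : F₁[X] →ₐ[F₁] Ω).toRingHom (C (G i))) =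
          tc g (algebraMap F Ω c) := by
        funext k
        rw [tc_base, ← hjι, hj]
        change aeval Z (C (G k)) = _
        rw [aeval_C, hG]
      rw [hc]
      congr 1
    rw [← h3, hPQ, (p42_tc G s q l).1] at h1
    refine ⟨P / D4 (j l) Z, Q / D4 (j l) Z, ?_⟩
    have h5 : aeval (algebraMap F Ω c + T4 (j s) (j q) Z / D4 (j l) Z) g =
        (D4 (j l) Z ^ 2 * aeval (algebraMap F Ω c + T4 (j s) (j q) Z / D4 (j l) Z) g) /
          D4 (j l) Z ^ 2 := by field_simp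
    have h6 : algebraMap F₁ Ω (G 0) = algebraMap F Ω (tc g c 0) := by
      rw [← hjι, hj, hG]
    rw [h5, ← h1, h6, IsScalarTower.algebraMap_apply F F₁ Ω o]
    field_simp
  refine ⟨algebraMap F Ω c + T4 (j s) (j q) Z / D4 (j l) Z, tr_add htr c, ?_,
    key hg2 hG (by rw [← hp]; exact hPQ), key hh2 hH (by rw [← hp']; exact hPQ')⟩
  have h1 := h4_eq hf4 (algebraMap F Ω c) (T := T4 (j s) (j q) Z) hD
  have h2 := quart_id (o := algebraMap F Ω o) (s := j s) (q := j q) (l := j l) (r2 := j r2)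
    (z := Z) (g := fun k => algebraMap F Ω (φ k)) (by rw [hφ0, map_one])
    (by
      have := congrArg j e2
      simp only [map_mul, map_sub, map_add, map_pow, map_div₀, map_ofNat, hjι] at this
      exact this)
    (by
      have := congrArg j e3
      simp only [map_mul, map_sub, map_ofNat, hjι] at this
      exact this)
    (by
      have := congrArg j e4
      simp only [map_mul, map_sub, map_pow, hjι] at this
      exact this)
  have h3 : h4 (tc f (algebraMap F Ω c)) (T4 (j s) (j q) Z) (D4 (j l) Z) =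
      algebraMap F Ω (tc f c 0) *
        h4 (fun k => algebraMap F Ω (φ k)) (T4 (j s) (j q) Z) (D4 (j l) Z) := by
    have h4' : ∀ k, tc f (algebraMap F Ω c) k =
        algebraMap F Ω (tc f c 0) * algebraMap F Ω (φ k) := fun k => by
      rw [tc_base, ← map_mul, hφ]
      congr 1
      field_simp
    rw [h4, h4, h4' 0, h4' 1, h4' 2, h4' 3, h4' 4]
    ring
  rw [h3, h2] at h1
  generalize T4 (j s) (j q) Z = T at h1 ⊢
  generalize D4 (j l) Z = D at h1 hD ⊢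
  refine ⟨(D ^ 2 + algebraMap F Ω (φ 1) / 2 * T * D + j r2 * T ^ 2) / D ^ 2,
    (j s * T * D + 4 * j s ^ 2 * Z * (1 + j q * Z) ^ 2) / D ^ 2, ?_⟩
  have h5 : aeval (algebraMap F Ω c + T / D) f =
      (D ^ 4 * aeval (algebraMap F Ω c + T / D) f) / D ^ 4 := by field_simp
  rw [h5, ← h1]
  field_simp

end mv422

end Pool.Agent.H436.FP
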