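import Pool.Agent.H436.FP.Alg

/-!
# Polynomials pulled back along the first move (helper436)
-/

set_option autoImplicit false

namespace Pool.Agent.H436.FP

open Polynomial Pool.Agent.H436.HP

section coefs

variable {K : Type*} [Field K]

lemma tc_at_zero (p : K[X]) (k : Fin 9) : tc p (0 : K) k = p.coeff k := by
  rw [tc]
  change aeval (0 : K) (hasseDeriv (k : ℕ) p) = _
  rw [coe_aeval_eq_eval, ← taylor_coeff, taylor_zero]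

/-- Coefficients of a polynomial which is known modulo `X ^ 4`. -/
lemma tc_of {p r : K[X]} {c0 c1 c2 c3 : K}
    (h : p = C c0 + C c1 * X + C c2 * X ^ 2 + C c3 * X ^ 3 + X ^ 4 * r) :
    tc p (0 : K) 0 = c0 ∧ tc p (0 : K) 1 = c1 ∧ tc p (0 : K) 2 = c2 ∧ tc p (0 : K) 3 = c3 := by
  have e : ∀ k : Fin 9, tc p (0 : K) k = p.coeff k := tc_at_zero p
  have hr : ∀ n < 4, (X ^ 4 * r).coeff n = 0 := fun n hn => by
    rw [coeff_X_pow_mul', if_neg (by omega)]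
  refine ⟨?_, ?_, ?_, ?_⟩
  · rw [e, h]
    simp only [coeff_add, hr 0 (by norm_num), coeff_C_mul, coeff_X_pow, coeff_X, coeff_C,
      Fin.val_zero]
    norm_num
  · rw [e, h]
    change (C c0 + C c1 * X + C c2 * X ^ 2 + C c3 * X ^ 3 + X ^ 4 * r).coeff 1 = _
    simp only [coeff_add, hr 1 (by norm_num), coeff_C_mul, coeff_X_pow, coeff_X, coeff_C]
    norm_num
  · rw [e, h]
    change (C c0 + C c1 * X + C c2 * X ^ 2 + C c3 * X ^ 3 + X ^ 4 * r).coeff 2 = _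
    simp only [coeff_add, hr 2 (by norm_num), coeff_C_mul, coeff_X_pow, coeff_X, coeff_C]
    norm_num
  · rw [e, h]
    change (C c0 + C c1 * X + C c2 * X ^ 2 + C c3 * X ^ 3 + X ^ 4 * r).coeff 3 = _
    simp only [coeff_add, hr 3 (by norm_num), coeff_C_mul, coeff_X_pow, coeff_X, coeff_C]
    norm_num

/-- the pullback of a form of degree four -/
noncomputable def p44 (g : Fin 9 → K) (s q l : K) : K[X] :=
  h4 (fun k => C (g k)) (T4 (C s) (C q) X) (D4 (C l) X)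

/-- the pullback of a form of degree two along a move of degree four -/
noncomputable def p42 (g : Fin 9 → K) (s q l : K) : K[X] :=
  h2 (fun k => C (g k)) (T4 (C s) (C q) X) (D4 (C l) X)

/-- the pullback of a form of degree two along a move of degree six -/
noncomputable def p62 (g : Fin 9 → K) (o s r1 r2 ρ μ p5 p6 : K) : K[X] :=
  h2 (fun k => C (g k)) (T6 (C o) (C s) (C r1) (C r2) (C ρ) (C μ) (C p5) X)
    (D6 (C o) (C s) (C r1) (C ρ) (C μ) (C p6) X)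

lemma p44_deg (g : Fin 9 → K) (s q l : K) : (p44 g s q l).natDegree ≤ 8 := by
  rw [p44, h4, T4, D4]
  compute_degree

lemma p42_deg (g : Fin 9 → K) (s q l : K) : (p42 g s q l).natDegree ≤ 4 := by
  rw [p42, h2, T4, D4]
  compute_degree

lemma p62_deg (g : Fin 9 → K) (o s r1 r2 ρ μ p5 p6 : K) :
    (p62 g o s r1 r2 ρ μ p5 p6).natDegree ≤ 8 := by
  have h1 : (T6 (C o) (C s) (C r1) (C r2) (C ρ) (C μ) (C p5) (X : K[X])).natDegree ≤ 4 := by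
    rw [T6, V6, a6, b6]
    compute_degree
  have h2 : (D6 (C o) (C s) (C r1) (C ρ) (C μ) (C p6) (X : K[X])).natDegree ≤ 4 := by
    rw [D6, a6, b6]
    compute_degree
  rw [p62, FP.h2]
  refine (natDegree_add_le _ _).trans (max_le ((natDegree_add_le _ _).trans (max_le ?_ ?_)) ?_)
  · refine (natDegree_C_mul_le _ _).trans (natDegree_pow_le.trans ?_)
    omega
  · refine natDegree_mul_le.trans ?_
    have := natDegree_C_mul_le (g 1) (T6 (C o) (C s) (C r1) (C r2) (C ρ) (C μ) (C p5) (X : K[X]))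
    omega
  · refine (natDegree_C_mul_le _ _).trans (natDegree_pow_le.trans ?_)
    omega

lemma p44_tc (g : Fin 9 → K) (s q l : K) : tc (p44 g s q l) (0 : K) 0 = g 0 ∧
    tc (p44 g s q l) (0 : K) 1 = -2 * g 1 * s ∧
    tc (p44 g s q l) (0 : K) 2 = -2 * g 1 * q * s + 4 * g 2 * s ^ 2 + 4 * g 0 * l ∧
    tc (p44 g s q l) (0 : K) 3 = 8 * g 2 * q * s ^ 2 - 8 * g 3 * s ^ 3 - 6 * g 1 * l * s := by
  refine tc_of (r :=
        16 * C (g 4) * X ^ 4 * C q ^ 4 * C s ^ 4 - 8 * C (g 3) * X ^ 4 * C l * C q ^ 3 * C s ^ 3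
        + 4 * C (g 2) * X ^ 4 * C l ^ 2 * C q ^ 2 * C s ^ 2 + 64 * C (g 4) * X ^ 3 * C q ^ 3 * C
        s ^ 4 - 2 * C (g 1) * X ^ 4 * C l ^ 3 * C q * C s - 24 * C (g 3) * X ^ 3 * C l * C q ^ 2
        * C s ^ 3 + C (g 0) * X ^ 4 * C l ^ 4 + 8 * C (g 2) * X ^ 3 * C l ^ 2 * C q * C s ^ 2 -
        8 * C (g 3) * X ^ 2 * C q ^ 3 * C s ^ 3 + 96 * C (g 4) * X ^ 2 * C q ^ 2 * C s ^ 4 - 2 *
        C (g 1) * X ^ 3 * C l ^ 3 * C s + 8 * C (g 2) * X ^ 2 * C l * C q ^ 2 * C s ^ 2 - 24 * C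
        (g 3) * X ^ 2 * C l * C q * C s ^ 3 - 6 * C (g 1) * X ^ 2 * C l ^ 2 * C q * C s + 4 * C
        (g 2) * X ^ 2 * C l ^ 2 * C s ^ 2 - 24 * C (g 3) * X * C q ^ 2 * C s ^ 3 + 64 * C (g 4)
        * X * C q * C s ^ 4 + 4 * C (g 0) * X ^ 2 * C l ^ 3 + 16 * C (g 2) * X * C l * C q * C s
        ^ 2 - 8 * C (g 3) * X * C l * C s ^ 3 - 6 * C (g 1) * X * C l ^ 2 * C s + 4 * C (g 2) *
        C q ^ 2 * C s ^ 2 - 24 * C (g 3) * C q * C s ^ 3 + 16 * C (g 4) * C s ^ 4 - 6 * C (g 1)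
        * C l * C q * C s + 8 * C (g 2) * C l * C s ^ 2 + 6 * C (g 0) * C l ^ 2) ?_
  rw [p44, h4, T4, D4]
  simp only [map_add, map_sub, map_mul, map_pow, map_neg, map_ofNat]
  ring

lemma p42_tc (g : Fin 9 → K) (s q l : K) : tc (p42 g s q l) (0 : K) 0 = g 0 ∧
    tc (p42 g s q l) (0 : K) 1 = -2 * g 1 * s ∧
    tc (p42 g s q l) (0 : K) 2 = -2 * g 1 * q * s + 4 * g 2 * s ^ 2 + 2 * g 0 * l ∧
    tc (p42 g s q l) (0 : K) 3 = 8 * g 2 * q * s ^ 2 - 2 * g 1 * l * s := by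
  refine tc_of (r := 4 * C (g 2) * C q ^ 2 * C s ^ 2 - 2 * C (g 1) * C l * C q * C s +
    C (g 0) * C l ^ 2) ?_
  rw [p42, h2, T4, D4]
  simp only [map_add, map_sub, map_mul, map_pow, map_neg, map_ofNat]
  ring

lemma h2_tc {g : Fin 9 → K} {d0 d1 d2 d3 d4 t1 t2 t3 t4 : K} {T D : K[X]}
    (hT : T = C t1 * X + C t2 * X ^ 2 + C t3 * X ^ 3 + C t4 * X ^ 4)
    (hD : D = C d0 + C d1 * X + C d2 * X ^ 2 + C d3 * X ^ 3 + C d4 * X ^ 4) :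
    tc (h2 (fun k => C (g k)) T D) (0 : K) 0 = g 0 * d0 ^ 2 ∧
    tc (h2 (fun k => C (g k)) T D) (0 : K) 1 = 2 * g 0 * d0 * d1 + g 1 * d0 * t1 ∧
    tc (h2 (fun k => C (g k)) T D) (0 : K) 2 = 2 * g 0 * d0 * d2 + g 0 * d1 ^ 2 +
      g 1 * d0 * t2 + g 1 * d1 * t1 + g 2 * t1 ^ 2 ∧
    tc (h2 (fun k => C (g k)) T D) (0 : K) 3 = 2 * g 0 * d0 * d3 + 2 * g 0 * d1 * d2 +
      g 1 * d0 * t3 + g 1 * d1 * t2 + g 1 * d2 * t1 + 2 * g 2 * t1 * t2 := by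
  refine tc_of (r :=
        C (g 0) * X ^ 4 * C d4 ^ 2 + C (g 1) * X ^ 4 * C d4 * C t4 + C (g 2) * X ^ 4 * C t4 ^ 2
        + 2 * C (g 0) * X ^ 3 * C d3 * C d4 + C (g 1) * X ^ 3 * C d3 * C t4 + C (g 1) * X ^ 3 *
        C d4 * C t3 + 2 * C (g 2) * X ^ 3 * C t3 * C t4 + 2 * C (g 0) * X ^ 2 * C d2 * C d4 + C
        (g 0) * X ^ 2 * C d3 ^ 2 + C (g 1) * X ^ 2 * C d2 * C t4 + C (g 1) * X ^ 2 * C d3 * C t3
        + C (g 1) * X ^ 2 * C d4 * C t2 + 2 * C (g 2) * X ^ 2 * C t2 * C t4 + C (g 2) * X ^ 2 *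
        C t3 ^ 2 + 2 * C (g 0) * X * C d1 * C d4 + 2 * C (g 0) * X * C d2 * C d3 + C (g 1) * X *
        C d1 * C t4 + C (g 1) * X * C d2 * C t3 + C (g 1) * X * C d3 * C t2 + C (g 1) * X * C d4
        * C t1 + 2 * C (g 2) * X * C t1 * C t4 + 2 * C (g 2) * X * C t2 * C t3 + 2 * C (g 0) * C
        d0 * C d4 + 2 * C (g 0) * C d1 * C d3 + C (g 0) * C d2 ^ 2 + C (g 1) * C d0 * C t4 + C
        (g 1) * C d1 * C t3 + C (g 1) * C d2 * C t2 + C (g 1) * C d3 * C t1 + 2 * C (g 2) * C t1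
        * C t3 + C (g 2) * C t2 ^ 2) ?_
  rw [h2, hT, hD]
  simp only [map_add, map_sub, map_mul, map_pow, map_neg, map_ofNat]
  ring

lemma D6_eq (o s r1 ρ μ p6 : K) : D6 (C o) (C s) (C r1) (C ρ) (C μ) (C p6) (X : K[X]) =
    C o + C (-4 * o * r1 * s) * X +
      C (-4 * o ^ 2 * s ^ 4 + 4 * o * r1 ^ 2 * s ^ 2 - 4 * o * s * μ) * X ^ 2 +
      C (8 * o * r1 * s ^ 2 * μ - 8 * o * s ^ 3 * ρ) * X ^ 3 +
      C (4 * o * s ^ 2 * μ ^ 2 - 4 * s ^ 2 * ρ ^ 2 + 4 * p6 * s ^ 2) * X ^ 4 := by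
  rw [D6, a6, b6]
  simp only [map_add, map_sub, map_mul, map_pow, map_neg, map_ofNat]
  ring

lemma T6_eq (o s r1 r2 ρ μ p5 : K) : T6 (C o) (C s) (C r1) (C r2) (C ρ) (C μ) (C p5) (X : K[X]) =
    C (4 * o * s) * X + C (-8 * o * r1 * s ^ 2) * X ^ 2 +
      C (8 * o * r2 * s ^ 3 - 8 * o * s ^ 2 * μ) * X ^ 3 +
      C (8 * r2 * s ^ 2 * ρ - 4 * p5 * s ^ 2) * X ^ 4 := by
  rw [T6, V6, a6, b6]
  simp only [map_add, map_sub, map_mul, map_pow, map_neg, map_ofNat]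
  ring

end coefs

section covs

variable {K : Type*} [Field K] [CharZero K]

/-- The covariant of the pullback, degrees four and four. -/
lemma W8_p44 {o s q l r2 : K} (hs : s ≠ 0) (ho : o ≠ 0) {f g : Fin 9 → K}
    (e2 : 2 * r2 = f 2 - f 1 ^ 2 / 4 + o * s ^ 2) (e3 : 2 * o * s * q = f 3 - f 1 * r2)
    (hf : f 0 = 1) :
    o * W8 (tc (p44 g s q l) (0 : K)) = 8 * s * (s ^ 2 *
      (o * (f 1 * g 0 * H4 g - W8 g)) - g 0 * H4 g * K4 f / 4) := by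
  obtain ⟨h0, h1, h2, h3⟩ := p44_tc g s q l
  rw [W8, h0, h1, h2, h3, W8, H4, K4, hf]
  have e3' : q = (f 3 - f 1 * r2) / (2 * o * s) := by
    rw [← e3]; field_simp
  have e2' : r2 = (f 2 - f 1 ^ 2 / 4 + o * s ^ 2) / 2 := by
    rw [← e2]; field_simp
  rw [e3', e2']
  field_simp
  ring

/-- The covariant of the pullback, degrees four and two. -/
lemma K4_p42 {o s q l r2 : K} (hs : s ≠ 0) (ho : o ≠ 0) {f g : Fin 9 → K}
    (e2 : 2 * r2 = f 2 - f 1 ^ 2 / 4 + o * s ^ 2) (e3 : 2 * o * s * q = f 3 - f 1 * r2)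
    (hf : f 0 = 1) :
    o * K4 (tc (p42 g s q l) (0 : K)) = -s * D2 g * (s ^ 2 *
      (8 * o * (g 1 - f 1 * g 0 / 2)) + g 0 * K4 f) := by
  obtain ⟨h0, h1, h2, h3⟩ := p42_tc g s q l
  rw [K4, h0, h1, h2, h3, D2, K4, hf]
  have e3' : q = (f 3 - f 1 * r2) / (2 * o * s) := by
    rw [← e3]; field_simp
  have e2' : r2 = (f 2 - f 1 ^ 2 / 4 + o * s ^ 2) / 2 := by
    rw [← e2]; field_simp
  rw [e3', e2']
  field_simp
  ring

/-- The Hessian of the pullback, degrees four and two. -/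
lemma H4_p42 {o s q l r2 : K} (hs : s ≠ 0) (ho : o ≠ 0) {f g : Fin 9 → K}
    (e2 : 2 * r2 = f 2 - f 1 ^ 2 / 4 + o * s ^ 2) (e3 : 2 * o * s * q = f 3 - f 1 * r2)
    (e4 : o * l = f 4 - r2 ^ 2) :
    o * H4 (tc (p42 g s q l) (0 : K)) = 4 * o ^ 2 * g 0 ^ 2 * s ^ 4 + (o * (12 * g 1 ^ 2 -
      32 * g 0 * g 2 + 8 * g 0 ^ 2 * (f 2 - f 1 ^ 2 / 4) - 4 * g 0 * g 1 * f 1)) * s ^ 2 +
      (16 * g 0 ^ 2 * ((f 2 - f 1 ^ 2 / 4) ^ 2 / 4 - f 4) +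
        8 * g 0 * g 1 * (f 3 - f 1 * (f 2 - f 1 ^ 2 / 4) / 2)) := by
  obtain ⟨h0, h1, h2, h3⟩ := p42_tc g s q l
  rw [H4, h0, h1, h2]
  have e4' : l = (f 4 - r2 ^ 2) / o := by
    rw [← e4]; field_simp
  have e3' : q = (f 3 - f 1 * r2) / (2 * o * s) := by
    rw [← e3]; field_simp
  have e2' : r2 = (f 2 - f 1 ^ 2 / 4 + o * s ^ 2) / 2 := by
    rw [← e2]; field_simp
  rw [e4', e3', e2']
  field_simp
  ring

/-- The covariant of the pullback, degrees six and two. -/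
lemma W8_p62 {o s r1 r2 ρ μ p5 p6 p2 p3 : K} {g : Fin 9 → K}
    (e2 : 2 * r2 = p2 - r1 ^ 2 + o * s ^ 2) (e3 : 2 * ρ = p3 - 2 * r1 * r2) :
    W8 (tc (p62 g o s r1 r2 ρ μ p5 p6) (0 : K)) = 64 * o ^ 6 * s ^ 3 * (s ^ 2 *
      (2 * o * g 0 ^ 2 * (3 * g 1 - 2 * r1 * g 0)) + (7 * g 1 ^ 3 - 24 * g 0 * g 1 * g 2 +
        16 * g 0 ^ 2 * g 2 * r1 - 6 * g 0 * g 1 ^ 2 * r1 - 4 * g 0 ^ 3 * p3 +
        (2 * g 0 ^ 2 * g 1 + 4 * g 0 ^ 3 * r1) * (p2 - r1 ^ 2))) := by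
  obtain ⟨h0, h1, h2, h3⟩ := h2_tc (g := g) (T6_eq o s r1 r2 ρ μ p5) (D6_eq o s r1 ρ μ p6)
  rw [p62, W8, h0, h1, h2, h3]
  have e3' : ρ = p3 / 2 - r1 * r2 := by linear_combination e3 / 2
  have e2' : r2 = (p2 - r1 ^ 2 + o * s ^ 2) / 2 := by linear_combination e2 / 2
  rw [e3', e2']
  ring

lemma tc1_p62 {o s r1 r2 ρ μ p5 p6 : K} {g : Fin 9 → K} :
    tc (p62 g o s r1 r2 ρ μ p5 p6) (0 : K) 0 = o ^ 2 * g 0 ∧
    tc (p62 g o s r1 r2 ρ μ p5 p6) (0 : K) 1 = 4 * o ^ 2 * s * (g 1 - 2 * r1 * g 0) := by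
  obtain ⟨h0, h1, -, -⟩ := h2_tc (g := g) (T6_eq o s r1 r2 ρ μ p5) (D6_eq o s r1 ρ μ p6)
  rw [p62, h0, h1]
  constructor <;> ring

end covs

end Pool.Agent.H436.FP
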