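import Pool.Agent.H436.FP.Tower
import Pool.Agent.H436.HP.Three
import Pool.Graph.R_seed8.TH178.HI.Real

/-!
# The function field of the system embeds in a field of rational functions (helper436)
-/

set_option autoImplicit false

namespace Pool.Agent.H436.FP

open Pool.Agent.H436.HP Pool.Agent.TH178.HI

/-- `K` embeds over `k` in a field of rational functions. -/
def Uni (k K : Type) [Field k] [Field K] [Algebra k K] : Prop :=
  ∃ (E : Type) (_ : Field E) (_ : Algebra k E) (Ω : IntermediateField k E) (y : K →ₐ[k] E),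
    Pure Ω ∧ y.fieldRange ≤ Ω

/-- `K` is the function field of the system `w_i² = a_i(t) y_i² + f_i(t)`. -/
def IsPF (k : Type) [Field k] {n m : ℕ} (a f : Fin m → MvPolynomial (Fin n) k) (K : Type)
    [Field K] [Algebra k K] : Prop :=
  ∃ (t : Fin n → K) (y w : Fin m → K), AlgebraicIndependent k (Sum.elim t y) ∧
    (∀ i, w i ^ 2 = MvPolynomial.aeval t (a i) * y i ^ 2 + MvPolynomial.aeval t (f i)) ∧
    IntermediateField.adjoin k (Set.range t ∪ (Set.range y ∪ Set.range w)) = ⊤

section

variable {k E : Type} [Field k] [Field E] [Algebra k E]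

/-- The independence of the coordinates. -/
lemma ind_sum {n m N : ℕ} {z : Fin n → E} (hz : AlgebraicIndependent k z) {x : ℕ → E}
    (hx : AlgebraicIndependent k x) (hzx : ∀ i, z i ∈ AC k (x '' {i | i < N})) :
    AlgebraicIndependent k (Sum.elim z (fun i : Fin m => x (N + i))) := by
  obtain ⟨v, hv⟩ : ∃ v, v = Sum.elim z (fun i : Fin m => x (N + i)) := ⟨_, rfl⟩
  have key : ∀ j ≤ m, AlgebraicIndepOn k v
      (Set.range Sum.inl ∪ Sum.inr '' {i : Fin m | (i : ℕ) < j}) := by
    intro j
    induction j with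
    | zero =>
      intro _
      have e : Set.range (Sum.inl : Fin n → Fin n ⊕ Fin m) ∪
          Sum.inr '' {i : Fin m | (i : ℕ) < 0} = Set.range Sum.inl := by
        have : {i : Fin m | (i : ℕ) < 0} = ∅ := by
          ext i; simp
        rw [this, Set.image_empty, Set.union_empty]
      rw [e, AlgebraicIndepOn]
      obtain ⟨φ, hφ⟩ : ∃ φ : Set.range (Sum.inl : Fin n → Fin n ⊕ Fin m) → Fin n,
          ∀ i, Sum.inl (φ i) = (i : Fin n ⊕ Fin m) :=
        ⟨fun i => i.2.choose, fun i => i.2.choose_spec⟩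
      have h1 := hz.comp φ (fun a b h => by
        apply Subtype.ext
        rw [← hφ a, ← hφ b, h])
      have h2 : (fun i : Set.range (Sum.inl : Fin n → Fin n ⊕ Fin m) => v i) = z ∘ φ := by
        funext i
        have h3 : v i = v (Sum.inl (φ i)) := by rw [hφ i]
        rw [Function.comp_apply, h3, hv, Sum.elim_inl]
      rw [h2]
      exact h1
    | succ j ih =>
      intro hj
      obtain ⟨i₀, hi₀⟩ : ∃ i₀ : Fin m, (i₀ : ℕ) = j := ⟨⟨j, hj⟩, rfl⟩
      have hset : Set.range (Sum.inl : Fin n → Fin n ⊕ Fin m) ∪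
          Sum.inr '' {i : Fin m | (i : ℕ) < j + 1} = insert (Sum.inr i₀)
            (Set.range Sum.inl ∪ Sum.inr '' {i : Fin m | (i : ℕ) < j}) := by
        ext o
        rcases o with i | i
        · simp
        · have h1 : (i = i₀) ↔ (i : ℕ) = j := by rw [Fin.ext_iff, hi₀]
          constructor
          · rintro (⟨_, h⟩ | ⟨b, hb, h⟩)
            · exact absurd h Sum.inl_ne_inr
            · have h2 := Sum.inr_injective h
              rw [Set.mem_ofPred_eq, h2] at hb
              by_cases h3 : (i : ℕ) = j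
              · left; rw [h1.2 h3]
              · right; right; exact ⟨i, (by rw [Set.mem_ofPred_eq]; omega), rfl⟩
          · rintro (h | ⟨_, h⟩ | ⟨b, hb, h⟩)
            · right
              exact ⟨i, (by rw [Set.mem_ofPred_eq, h1.1 (Sum.inr_injective h)]; omega), rfl⟩
            · exact absurd h Sum.inl_ne_inr
            · right
              rw [Set.mem_ofPred_eq] at hb
              exact ⟨b, (by rw [Set.mem_ofPred_eq]; omega), h⟩
      rw [hset]
      refine (ih (by omega)).insert ?_
      rw [← IntermediateField.transcendental_adjoin_iff]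
      have h1 : v (Sum.inr i₀) = x (N + j) := by rw [hv, Sum.elim_inr, hi₀]
      rw [h1]
      refine transcendental_of_le hx (I := {i | i < N + j}) (by simp) ?_
      rw [IntermediateField.adjoin_le_iff]
      rintro _ ⟨o, (⟨i, rfl⟩ | ⟨i, hi, rfl⟩), rfl⟩
      · rw [hv, Sum.elim_inl]
        have h2 := mem_AC.1 (hzx i)
        refine mem_AC.2 (isAlgebraic_mono' ?_ h2)
        apply IntermediateField.adjoin.mono
        rintro _ ⟨l, hl, rfl⟩
        exact ⟨l, lt_of_lt_of_le hl (Nat.le_add_right _ _), rfl⟩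
      · rw [hv, Sum.elim_inr]
        exact subset_AC _ ⟨N + i, Nat.add_lt_add_left hi _, rfl⟩
  have h1 := key m le_rfl
  rw [← hv]
  have h2 : Set.range (Sum.inl : Fin n → Fin n ⊕ Fin m) ∪
      Sum.inr '' {i : Fin m | (i : ℕ) < m} = Set.univ := by
    ext o
    rcases o with i | i
    · simp
    · simp
  rw [h2] at h1
  have h3 := h1.comp (fun i => (⟨i, trivial⟩ : (Set.univ : Set (Fin n ⊕ Fin m))))
    (fun a b h => congrArg Subtype.val h)
  exact h3

end

/-- Realization of the function field. -/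
theorem realize {k E K : Type} [Field k] [Field E] [Algebra k E] [CharZero E] [IsAlgClosed E]
    [Field K] [Algebra k K] {n m N : ℕ} {a f : Fin m → MvPolynomial (Fin n) k} {z : Fin n → E}
    {Ω : IntermediateField k E} {x : ℕ → E} (hx : AlgebraicIndependent k x) (hz : ∀ i, z i ∈ Ω)
    (hp : Pure Ω) (hΩ : Ω ≤ AC k (x '' {i | i < N})) (hind : AlgebraicIndependent k z)
    (ha : ∀ i, MvPolynomial.aeval z (a i) ≠ 0) (hf : ∀ i, MvPolynomial.aeval z (f i) ≠ 0)
    (hsp : ∀ i, Sp Ω (MvPolynomial.aeval z (a i)) (MvPolynomial.aeval z (f i)))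
    (hK : IsPF k a f K) : Uni k K := by
  obtain ⟨t, y, w, ht, hw, htop⟩ := hK
  obtain ⟨s, hs⟩ : ∃ s : Fin m → E, s = fun i : Fin m => x (N + i) := ⟨_, rfl⟩
  have hy : AlgebraicIndependent k (Sum.elim z s) := by
    rw [hs]
    exact ind_sum hind hx (fun i => hΩ (hz i))
  obtain ⟨Ψ, hΨ, -⟩ := lift ht hy
  let F' := IntermediateField.adjoin k (Set.range (Sum.elim t y))
  let _ : Algebra F' E := Ψ.toRingHom.toAlgebra
  have htF : ∀ i, t i ∈ F' := fun i => IntermediateField.subset_adjoin k _ ⟨Sum.inl i, rfl⟩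
  have hyF : ∀ i, y i ∈ F' := fun i => IntermediateField.subset_adjoin k _ ⟨Sum.inr i, rfl⟩
  have hwal : ∀ i, IsAlgebraic F' (w i) := by
    intro i
    have h1 : IsAlgebraic F' (w i ^ 2) := by
      rw [hw]
      exact isAlgebraic_algebraMap (⟨_, add_mem (mul_mem (aeval_mem' htF (a i))
        (pow_mem (hyF i) 2)) (aeval_mem' htF (f i))⟩ : F')
    exact h1.of_pow two_pos
  have halg : Algebra.IsAlgebraic F' K := by
    constructor
    intro u
    have hu : u ∈ IntermediateField.adjoin k (Set.range t ∪ (Set.range y ∪ Set.range w)) := by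
      rw [htop]; trivial
    refine isAlgebraic_of_mem (L := F') (S := Set.range w) ?_ ?_
    · rintro _ ⟨i, rfl⟩
      exact hwal i
    · refine (IntermediateField.adjoin_le_iff.mpr ?_) hu
      rintro _ (⟨i, rfl⟩ | ⟨i, rfl⟩ | ⟨i, rfl⟩)
      · exact IntermediateField.subset_adjoin _ _ (Or.inl (htF i))
      · exact IntermediateField.subset_adjoin _ _ (Or.inl (hyF i))
      · exact IntermediateField.subset_adjoin _ _ (Or.inr ⟨i, rfl⟩)
  let h0 : K →ₐ[F'] E := IsAlgClosed.lift
  have h1 : ∀ b : F', h0 (b : K) = Ψ b := fun b => h0.commutes b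
  let h : K →ₐ[k] E :=
    { h0.toRingHom with
      commutes' := fun b => by
        have h3 := h1 (algebraMap k F' b)
        rw [Ψ.commutes] at h3
        exact h3 }
  have hht : ∀ i, h (t i) = z i := fun i => (h1 ⟨t i, htF i⟩).trans (hΨ (Sum.inl i))
  have hhy : ∀ i, h (y i) = s i := fun i => (h1 ⟨y i, hyF i⟩).trans (hΨ (Sum.inr i))
  obtain ⟨v, hv⟩ : ∃ v : Fin m → E, v = fun i => h (w i) := ⟨_, rfl⟩
  have haz : ∀ g : MvPolynomial (Fin n) k,
      h (MvPolynomial.aeval t g) = MvPolynomial.aeval z g := fun g => by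
    have e2 := MvPolynomial.comp_aeval_apply (φ := h) (f := t) g
    rw [e2]
    congr 2
    funext i
    exact hht i
  have hv2 : ∀ i, v i ^ 2 = MvPolynomial.aeval z (a i) * s i ^ 2 + 0 * s i +
      MvPolynomial.aeval z (f i) := by
    intro i
    rw [hv]
    change h (w i) ^ 2 = _
    rw [← map_pow, hw, map_add, map_mul, haz, haz, map_pow, hhy]
    ring
  have key : ∀ j ≤ m, ∃ Θ : IntermediateField k E, Ω ≤ Θ ∧ Pure Θ ∧
      Θ ≤ AC k (x '' {i | i < N + j}) ∧ ∀ i : Fin m, (i : ℕ) < j → s i ∈ Θ ∧ v i ∈ Θ := by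
    intro j
    induction j with
    | zero =>
      intro _
      exact ⟨Ω, le_rfl, hp, hΩ, fun i hi => absurd hi (Nat.not_lt_zero _)⟩
    | succ j ih =>
      intro hj
      obtain ⟨Θ, h1, h2, h3, h4⟩ := ih (by omega)
      obtain ⟨i₀, hi₀⟩ : ∃ i₀ : Fin m, (i₀ : ℕ) = j := ⟨⟨j, hj⟩, rfl⟩
      have hsx : s i₀ = x (N + j) := by rw [hs]; simp only [hi₀]
      have hst : Transcendental Θ (s i₀) := by
        rw [hsx]
        exact transcendental_of_le hx (I := {i | i < N + j}) (by simp) h3
      have haΘ : ∀ g : MvPolynomial (Fin n) k, MvPolynomial.aeval z g ∈ Θ := fun g =>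
        aeval_mem' (fun i => h1 (hz i)) g
      have hd : (0 : E) ^ 2 - 4 * MvPolynomial.aeval z (a i₀) * MvPolynomial.aeval z (f i₀) ≠ 0 := by
        have h5 : (4 : E) * MvPolynomial.aeval z (a i₀) * MvPolynomial.aeval z (f i₀) ≠ 0 :=
          mul_ne_zero (mul_ne_zero (by norm_num) (ha i₀)) (hf i₀)
        intro h6
        apply h5
        linear_combination -h6
      obtain ⟨b, hb, v₀, hv₀, hbv⟩ := ((hsp i₀).mono h1).affine (haΘ _) (ha i₀)
      have hpure := h2.conic hb hv₀ (haΘ _) Θ.zero_mem hd (by rw [hbv]; ring) hst (hv2 i₀)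
      refine ⟨IntermediateField.adjoin k ((Θ : Set E) ∪ {s i₀, v i₀}),
        fun b hb => IntermediateField.subset_adjoin _ _ (Or.inl (h1 hb)), hpure, ?_,
        fun i hi => ?_⟩
      · have hmono : AC k (x '' {i | i < N + j}) ≤ AC k (x '' {i | i < N + (j + 1)}) := by
          intro b hb
          refine mem_AC.2 (isAlgebraic_mono' ?_ (mem_AC.1 hb))
          apply IntermediateField.adjoin.mono
          rintro _ ⟨l, hl, rfl⟩
          refine ⟨l, ?_, rfl⟩
          rw [Set.mem_ofPred_eq] at hl ⊢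
          omega
        rw [IntermediateField.adjoin_le_iff]
        have hsA : s i₀ ∈ AC k (x '' {i | i < N + (j + 1)}) := by
          rw [hsx]
          exact subset_AC _ ⟨N + j, by simp, rfl⟩
        rintro b (hb | rfl | rfl)
        · exact hmono (h3 hb)
        · exact hsA
        · refine AC_sq ?_
          rw [hv2]
          exact add_mem (add_mem (mul_mem (hmono (h3 (haΘ _))) (pow_mem hsA 2))
            (mul_mem (zero_mem _) hsA)) (hmono (h3 (haΘ _)))
      · by_cases hi' : i = i₀
        · rw [hi']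
          exact ⟨IntermediateField.subset_adjoin _ _ (Or.inr (Or.inl rfl)),
            IntermediateField.subset_adjoin _ _ (Or.inr (Or.inr rfl))⟩
        · have h7 : (i : ℕ) < j := by
            have : (i : ℕ) ≠ (i₀ : ℕ) := fun h => hi' (Fin.ext h)
            omega
          exact ⟨IntermediateField.subset_adjoin _ _ (Or.inl (h4 i h7).1),
            IntermediateField.subset_adjoin _ _ (Or.inl (h4 i h7).2)⟩
  obtain ⟨Θ, h1, h2, -, h4⟩ := key m le_rfl
  refine ⟨E, inferInstance, inferInstance, Θ, h, h2, ?_⟩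
  rw [AlgHom.fieldRange_eq_map, ← htop, IntermediateField.adjoin_map,
    IntermediateField.adjoin_le_iff]
  rintro _ ⟨_, (⟨i, rfl⟩ | ⟨i, rfl⟩ | ⟨i, rfl⟩), rfl⟩
  · change h (t i) ∈ _
    rw [hht]
    exact h1 (hz i)
  · change h (y i) ∈ _
    rw [hhy]
    exact (h4 i i.2).1
  · have := (h4 i i.2).2
    rw [hv] at this
    exact this

/-- **Unirationality of the function field.** -/
theorem uni_good {k K : Type} [Field k] [CharZero k] [Field K] [Algebra k K] {n m : ℕ}
    {a f : Fin m → MvPolynomial (Fin n) k} (hT : Typ a f)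
    {H : MvPolynomial (Fin n) k} (hH : ∀ (E : Type) [Field E] [Algebra k E] (z : Fin n → E),
      MvPolynomial.aeval z H ≠ 0 → GoodF a f z)
    {c : Fin n → k} (hc : MvPolynomial.eval c H ≠ 0)
    (hXY : ∀ i, ∃ X Y W : k, ¬ (X = 0 ∧ Y = 0 ∧ W = 0) ∧
      X ^ 2 = MvPolynomial.eval c (a i) * Y ^ 2 + MvPolynomial.eval c (f i) * W ^ 2)
    (hK : IsPF k a f K) : Uni k K := by
  let F := FractionRing (MvPolynomial ℕ k)
  let E := AlgebraicClosure F
  let x : ℕ → E := fun i => algebraMap F E (algebraMap (MvPolynomial ℕ k) F (MvPolynomial.X i))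
  have hx : AlgebraicIndependent k x := by
    have h1 := (MvPolynomial.algebraicIndependent_X ℕ k).map'
      (f := IsScalarTower.toAlgHom k (MvPolynomial ℕ k) F)
      (IsFractionRing.injective (MvPolynomial ℕ k) F)
    exact h1.map' (f := IsScalarTower.toAlgHom k F E) (algebraMap F E).injective
  have : CharZero E := charZero_of_injective_algebraMap (algebraMap k E).injective
  have hinj := (algebraMap k E).injective
  obtain ⟨z, Ω, -, hz, hp, hΩ, hind, hsp⟩ := tower (E := E) hT (hH E) hx hc
    (fun i => by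
      obtain ⟨X, Y, W, h0, hXY⟩ := hXY i
      exact ⟨algebraMap k E X, IntermediateField.algebraMap_mem _ _, algebraMap k E Y,
        IntermediateField.algebraMap_mem _ _, algebraMap k E W,
        IntermediateField.algebraMap_mem _ _, fun h => h0
          ⟨(map_eq_zero_iff _ hinj).1 h.1, (map_eq_zero_iff _ hinj).1 h.2.1,
            (map_eq_zero_iff _ hinj).1 h.2.2⟩, by
        rw [← map_pow, hXY, map_add, map_mul, map_mul, map_pow, map_pow]⟩) n le_rfl
  have hind' : AlgebraicIndependent k z := by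
    have h2 := hind.comp (fun i : Fin n => (⟨i, i.2⟩ : {i : Fin n | (i : ℕ) < n})) (fun i j h => by
      simpa using h)
    exact h2
  have hg := (hH E z (by
    refine good (m := n) (c := c) hind (fun i hi => absurd i.2 (not_lt.2 hi)) hc)).1
  exact realize hx hz hp hΩ hind' (fun i => hg (Sum.inl i)) (fun i => hg (Sum.inr i)) hsp hK

end Pool.Agent.H436.FP
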