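import Pool.Agent.H436.FP.Real
import Pool.Agent.H436.FP.Cond
import Pool.Agent.H436.HQ.Res

/-!
# Systems over the field of rational functions in the common variables (helper436)
-/

set_option autoImplicit false

namespace Pool.Agent.H436.FP

open Pool.Agent.H436.HP Pool.Agent.H436.HQ Pool.Agent.TH178.HI MvPolynomial

section deg

variable {k : Type} [Field k] [CharZero k] {n : ℕ}

omit [CharZero k] in
lemma deg_Φj (j : Fin n) (p : MvPolynomial (Fin n) k) : degreeOf j p = (Φj k j p).natDegree :=
  degreeOf_eq_natDegree j p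

lemma deg_pderiv (j : Fin n) {p : MvPolynomial (Fin n) k} (h : degreeOf j p ≠ 0) :
    degreeOf j (pderiv j p) = degreeOf j p - 1 := by
  rw [deg_Φj, Φj_pderiv]
  rw [deg_Φj] at h ⊢
  exact Polynomial.natDegree_eq_of_degree_eq_some
    (Polynomial.degree_derivative h)

end deg

section rel

variable {k₀ k : Type} [Field k₀] [CharZero k₀] [Field k] [Algebra k₀ k] {r n : ℕ}

omit [CharZero k₀] in
lemma rel_inj' {E : Type} [Field E] [Algebra (RF r k) E] {z : Fin n → E}
    (hz : AlgebraicIndependent (RF r k) z) {p : MvPolynomial (Fin (r + n)) k₀}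
    (h : rel k p = 0) : p = 0 := by
  let _ : Algebra k E := ((algebraMap (RF r k) E).comp (algebraMap k (RF r k))).toAlgebra
  have tk : IsScalarTower k (RF r k) E := IsScalarTower.of_algebraMap_eq fun _ => rfl
  have h1 : AlgebraicIndependent k (Sum.elim z (algebraMap (RF r k) E ∘ xv r k)) :=
    AlgebraicIndependent.sumElim_comp xv_indep hz
  obtain ⟨y, hy⟩ : ∃ y : Fin (r + n) → E,
    y = Fin.append (fun i => algebraMap (RF r k) E (xv r k i)) z := ⟨_, rfl⟩
  have h2 : AlgebraicIndependent k y := by
    have h3 := h1.comp (Fin.addCases (fun i : Fin r => Sum.inr i) (fun j : Fin n => Sum.inl j) :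
      Fin (r + n) → Fin n ⊕ Fin r) (by
        intro a b
        refine Fin.addCases (fun i => ?_) (fun i => ?_) a <;>
        refine Fin.addCases (fun j => ?_) (fun j => ?_) b <;> intro hab <;>
        simp only [Fin.addCases_left, Fin.addCases_right, reduceCtorEq, Sum.inl.injEq,
          Sum.inr.injEq] at hab
        · rw [hab]
        · rw [hab])
    have h4 : Sum.elim z (algebraMap (RF r k) E ∘ xv r k) ∘
        (Fin.addCases (fun i : Fin r => Sum.inr i) (fun j : Fin n => Sum.inl j) :
          Fin (r + n) → Fin n ⊕ Fin r) = y := by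
      rw [hy]
      funext a
      refine Fin.addCases (fun i => ?_) (fun i => ?_) a
      · rw [Function.comp_apply, Fin.addCases_left, Fin.append_left]
        rfl
      · rw [Function.comp_apply, Fin.addCases_right, Fin.append_right]
        rfl
    rw [h4] at h3
    exact h3
  let _ : Algebra k₀ E := ((algebraMap k E).comp (algebraMap k₀ k)).toAlgebra
  have t1 : IsScalarTower k₀ k E := IsScalarTower.of_algebraMap_eq fun _ => rfl
  have t2 : IsScalarTower k₀ (RF r k) E := IsScalarTower.of_algebraMap_eq fun c => by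
    rw [IsScalarTower.algebraMap_apply k₀ k E, IsScalarTower.algebraMap_apply k (RF r k) E,
      ← IsScalarTower.algebraMap_apply k₀ k (RF r k)]
  have h5 : AlgebraicIndependent k₀ y := h2.restrictScalars (algebraMap k₀ k).injective
  have h6 := aeval_rel (k := k) (E := E) z p
  rw [h, map_zero, ← hy] at h6
  exact h5 (by rw [← h6, map_zero])

omit [CharZero k₀] in
lemma rel_inj {p : MvPolynomial (Fin (r + n)) k₀} (h : rel k p = 0) : p = 0 :=
  rel_inj' (E := RF n (RF r k)) (z := xv n (RF r k)) xv_indep h

/-- The degrees. -/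
lemma degreeOf_rel_eq (j : Fin n) (p : MvPolynomial (Fin (r + n)) k₀) :
    degreeOf j (rel k p) = degreeOf (Fin.natAdd r j) p := by
  have hk : CharZero k := charZero_of_injective_algebraMap (algebraMap k₀ k).injective
  have hF : CharZero (RF r k) := charZero_of_injective_algebraMap
    (algebraMap k (RF r k)).injective
  refine le_antisymm (degreeOf_rel j p) ?_
  obtain ⟨N, hN⟩ : ∃ N, N = degreeOf j (rel k p) := ⟨_, rfl⟩
  rw [← hN]
  induction N generalizing p with
  | zero =>
    have h1 : pderiv j (rel k p) = 0 := pderiv_eq_zero_of_notMem_vars fun h =>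
      mem_vars_iff_degreeOf_ne_zero.1 h hN.symm
    rw [pderiv_rel] at h1
    have h2 := rel_inj h1
    by_contra h3
    exact pderiv_ne (mem_vars_iff_degreeOf_ne_zero.2 fun h => h3 (by rw [h])) h2
  | succ N ih =>
    have h1 := deg_pderiv j (p := rel k p) (by omega)
    rw [pderiv_rel, ← hN] at h1
    have h2 := ih (pderiv (Fin.natAdd r j) p) (by rw [h1]; rfl)
    by_cases h3 : degreeOf (Fin.natAdd r j) p = 0
    · rw [h3]; exact Nat.zero_le _
    · rw [deg_pderiv _ h3] at h2
      omega

omit [CharZero k₀] in
lemma Gd_rel {E : Type} [Field E] [Algebra (RF r k) E] [Algebra k₀ E]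
    [IsScalarTower k₀ (RF r k) E] {z : Fin n → E} {j : Fin n} {g : MvPolynomial (Fin (r + n)) k₀}
    (h : Gd (Fin.natAdd r j) g
      (Fin.append (fun i => algebraMap (RF r k) E (xv r k i)) z)) : Gd j (rel k g) z := by
  obtain ⟨h0, h1, h2, h3, h4, h5⟩ := h
  refine ⟨?_, ?_, ?_, ?_, ?_, ?_⟩
  · rwa [aeval_rel]
  · rwa [pderiv_rel, aeval_rel]
  · rwa [W3_rel, aeval_rel]
  · have e : K3 j (rel k g) = rel k (K3 (Fin.natAdd r j) g) := by
      rw [K3, K3, pderiv_rel, pderiv_rel, pderiv_rel]
      simp only [map_add, map_sub, map_mul, map_pow, map_ofNat]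
    rwa [e, aeval_rel]
  · have e : H2 j (rel k g) = rel k (H2 (Fin.natAdd r j) g) := by
      rw [H2, H2, pderiv_rel, pderiv_rel]
      simp only [map_sub, map_mul, map_pow, map_ofNat]
    rwa [e, aeval_rel]
  · have e : Dd j (rel k g) = rel k (Dd (Fin.natAdd r j) g) := by
      rw [Dd, Dd, pderiv_rel, pderiv_rel]
      simp only [map_sub, map_mul, map_pow, map_ofNat]
    rwa [e, aeval_rel]

omit [CharZero k₀] in
lemma Gp_rel {E : Type} [Field E] [Algebra (RF r k) E] [Algebra k₀ E]
    [IsScalarTower k₀ (RF r k) E] {z : Fin n → E} {j : Fin n}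
    {f g : MvPolynomial (Fin (r + n)) k₀} (h : Gp (Fin.natAdd r j) f g
      (Fin.append (fun i => algebraMap (RF r k) E (xv r k i)) z)) :
    Gp j (rel k f) (rel k g) z := by
  obtain ⟨h0, h1⟩ := h
  refine ⟨?_, ?_⟩
  · have e : J1 j (rel k f) (rel k g) = rel k (J1 (Fin.natAdd r j) f g) := by
      rw [J1, J1, pderiv_rel, pderiv_rel, map_sub, map_mul, map_mul]
    rwa [e, aeval_rel]
  · have e : J3 j (rel k f) (rel k g) = rel k (J3 (Fin.natAdd r j) f g) := by
      rw [J3, J3, pderiv_rel, pderiv_rel, map_sub, map_mul, map_mul, map_mul, map_ofNat]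
    rwa [e, aeval_rel]

end rel

section res

variable {k : Type} [Field k] {r : ℕ}

/-- Restriction of the ground field. -/
theorem uni_res {K : Type} [Field K] [Algebra k K] [Algebra (RF r k) K]
    [IsScalarTower k (RF r k) K] (h : Uni (RF r k) K) : Uni k K := by
  obtain ⟨E, _, _, Ω, y, ⟨ι, hι, u, hu, hΩ⟩, hle⟩ := h
  let _ : Algebra k E := ((algebraMap (RF r k) E).comp (algebraMap k (RF r k))).toAlgebra
  have : IsScalarTower k (RF r k) E := IsScalarTower.of_algebraMap_eq fun _ => rfl
  have hmem : ∀ z, z ∈ (y.restrictScalars k).fieldRange ↔ z ∈ y.fieldRange := by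
    intro z
    rw [AlgHom.mem_fieldRange, AlgHom.mem_fieldRange]
    rfl
  refine ⟨E, inferInstance, inferInstance, Ω.restrictScalars k, y.restrictScalars k,
    ⟨ι ⊕ Fin r, inferInstance, Sum.elim u (algebraMap (RF r k) E ∘ xv r k),
      AlgebraicIndependent.sumElim_comp xv_indep hu, ?_⟩, ?_⟩
  · apply le_antisymm
    · rw [IntermediateField.adjoin_le_iff]
      rintro _ ⟨i | i, rfl⟩
      · change u i ∈ Ω
        rw [← hΩ]
        exact IntermediateField.subset_adjoin _ _ ⟨i, rfl⟩
      · exact Ω.algebraMap_mem _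
    · intro z hz
      change z ∈ Ω at hz
      rw [← hΩ] at hz
      induction hz using IntermediateField.adjoin_induction with
      | mem x hx =>
        obtain ⟨i, rfl⟩ := hx
        exact IntermediateField.subset_adjoin _ _ ⟨Sum.inl i, rfl⟩
      | algebraMap z =>
        exact rf_mem (L := IntermediateField.adjoin k
          (Set.range (Sum.elim u (algebraMap (RF r k) E ∘ xv r k))))
          (fun i => IntermediateField.subset_adjoin k _ ⟨Sum.inr i, rfl⟩) z
      | add x y _ _ hx hy => exact add_mem hx hy
      | inv x _ hx => exact inv_mem hx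
      | mul x y _ _ hx hy => exact mul_mem hx hy
  · intro z hz
    exact hle ((hmem z).1 hz)

end res

section cov

variable {k₀ k K : Type} [Field k₀] [Field k] [Field K] [Algebra k₀ k] [Algebra k K]
  {r n m : ℕ}

/-- Systems over the field of rational functions. -/
theorem pf_rel {a f : Fin m → MvPolynomial (Fin (r + n)) k₀}
    (hK : IsPF k (fun i => map (algebraMap k₀ k) (a i)) (fun i => map (algebraMap k₀ k) (f i)) K) :
    ∃ _ : Algebra (RF r k) K, IsScalarTower k (RF r k) K ∧
      IsPF (RF r k) (fun i => rel k (a i)) (fun i => rel k (f i)) K := by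
  obtain ⟨t, y, w, hty, hw, htop⟩ := hK
  obtain ⟨x', hx'⟩ : ∃ x' : Fin r → K, x' = fun i => t (Fin.castAdd n i) := ⟨_, rfl⟩
  obtain ⟨t', ht'⟩ : ∃ t' : Fin n → K, t' = fun j => t (Fin.natAdd r j) := ⟨_, rfl⟩
  have hxt : AlgebraicIndependent k (Sum.elim (Sum.elim t' y) x') := by
    have h1 : Sum.elim (Sum.elim t' y) x' = Sum.elim t y ∘
        Sum.elim (Sum.elim (fun j : Fin n => Sum.inl (Fin.natAdd r j)) Sum.inr)
        (fun i : Fin r => Sum.inl (Fin.castAdd n i)) := by
      funext i
      rcases i with (i | i) | i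
      · simp only [Sum.elim_inl, Function.comp_apply, ht']
      · simp only [Sum.elim_inl, Sum.elim_inr, Function.comp_apply]
      · simp only [Sum.elim_inl, Sum.elim_inr, Function.comp_apply, hx']
    rw [h1]
    refine hty.comp _ ?_
    rintro ((i | i) | i) ((j | j) | j) h <;>
      simp only [Sum.elim_inl, Sum.elim_inr, Sum.inl.injEq, Sum.inr.injEq, reduceCtorEq] at h
    · have h2 := congrArg Fin.val h
      simp only [Fin.val_natAdd] at h2
      congr 2
      ext
      omega
    · have h2 := congrArg Fin.val h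
      simp only [Fin.val_natAdd, Fin.val_castAdd] at h2
      have := j.2
      omega
    · rw [h]
    · have h2 := congrArg Fin.val h
      simp only [Fin.val_natAdd, Fin.val_castAdd] at h2
      have := i.2
      omega
    · have h2 := congrArg Fin.val h
      simp only [Fin.val_castAdd] at h2
      congr 1
      ext
      omega
  obtain ⟨hx, ht2⟩ := AlgebraicIndependent.sumElim_iff.1 hxt
  let e : RF r k ≃ₐ[k] IntermediateField.adjoin k (Set.range x') := hx.aevalEquivField
  let φ : RF r k →ₐ[k] K := (IntermediateField.val _).comp e.toAlgHom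
  let alg : Algebra (RF r k) K := φ.toRingHom.toAlgebra
  have tow : IsScalarTower k (RF r k) K := IsScalarTower.of_algebraMap_eq fun c =>
    (φ.commutes c).symm
  have hφ : ∀ i, algebraMap (RF r k) K (xv r k i) = x' i := by
    intro i
    exact (hx.aevalEquivField_algebraMap_apply_coe (X i)).trans (aeval_X x' i)
  refine ⟨alg, tow, t', y, w, ?_, ?_, ?_⟩
  · rw [← IntermediateField.algebraicIndependent_adjoin_iff] at ht2
    let _ : Algebra (RF r k) (IntermediateField.adjoin k (Set.range x')) :=
      e.toRingEquiv.toRingHom.toAlgebra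
    have : IsScalarTower (RF r k) (IntermediateField.adjoin k (Set.range x')) K :=
      IsScalarTower.of_algebraMap_eq fun c => rfl
    exact ht2.restrictScalars e.injective
  · let _ : Algebra k₀ K := ((algebraMap k K).comp (algebraMap k₀ k)).toAlgebra
    have t1 : IsScalarTower k₀ k K := IsScalarTower.of_algebraMap_eq fun _ => rfl
    have t2 : IsScalarTower k₀ (RF r k) K := IsScalarTower.of_algebraMap_eq fun c => by
      rw [IsScalarTower.algebraMap_apply k₀ k K, IsScalarTower.algebraMap_apply k (RF r k) K,
        ← IsScalarTower.algebraMap_apply k₀ k (RF r k)]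
    have h3 : Fin.append (fun i => algebraMap (RF r k) K (xv r k i)) t' = t := by
      funext i
      refine Fin.addCases (fun i => ?_) (fun i => ?_) i
      · rw [Fin.append_left, hφ, hx']
      · rw [Fin.append_right, ht']
    intro i
    rw [hw, aeval_rel, aeval_rel, h3, aeval_map_algebraMap, aeval_map_algebraMap]
  · rw [eq_top_iff]
    have h4 : IntermediateField.adjoin k (Set.range t ∪ (Set.range y ∪ Set.range w)) ≤
        (IntermediateField.adjoin (RF r k)
          (Set.range t' ∪ (Set.range y ∪ Set.range w))).restrictScalars k := by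
      rw [IntermediateField.adjoin_le_iff]
      rintro b (⟨i, rfl⟩ | hb)
      · change t i ∈ IntermediateField.adjoin (RF r k)
          (Set.range t' ∪ (Set.range y ∪ Set.range w))
        refine Fin.addCases (fun i => ?_) (fun i => ?_) i
        · have h6 : t (Fin.castAdd n i) = algebraMap (RF r k) K (xv r k i) := by
            rw [hφ, hx']
          rw [h6]
          exact IntermediateField.algebraMap_mem _ _
        · refine IntermediateField.subset_adjoin (RF r k) _ (Or.inl ⟨i, ?_⟩)
          rw [ht']
      · exact IntermediateField.subset_adjoin (RF r k) _ (Or.inr hb)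
    intro z _
    exact h4 (by rw [htop]; trivial)

end cov

end Pool.Agent.H436.FP
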