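import Pool.Agent.H436.FP.Fam
import Pool.Agent.H436.HQ.Pot
import Pool.Graph.R_seed8.Y742.HC.Dense

/-!
# Schemes birational to fibre products of conic bundles (helper436)
-/

set_option autoImplicit false

namespace Pool.Agent.H436.FP

open Pool.Agent.H436.HP Pool.Agent.H436.HQ Pool.Agent.TH178.HI MvPolynomial

section uni

/-- From the intrinsic form to the field of rational functions. -/
lemma of_uni {k K : Type} [Field k] [Field K] [Algebra k K] (h : Uni k K) :
    ∃ N : ℕ, Nonempty (K →ₐ[k] FractionRing (MvPolynomial (Fin N) k)) := by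
  classical
  obtain ⟨E, _, _, Ω, y, ⟨ι, hι, x, hx, hΩ⟩, hle⟩ := h
  have := Fintype.ofFinite ι
  let e0 : ι ≃ Fin (Fintype.card ι) := Fintype.equivFin ι
  let x' : Fin (Fintype.card ι) → E := x ∘ e0.symm
  have hx' : AlgebraicIndependent k x' := hx.comp e0.symm e0.symm.injective
  have hr : Set.range x' = Set.range x := by
    rw [Set.range_comp, e0.symm.surjective.range_eq, Set.image_univ]
  have hadj : IntermediateField.adjoin k (Set.range x') = Ω := by rw [hr, hΩ]
  let e1 := hx'.aevalEquivField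
  have hle' : y.fieldRange ≤ IntermediateField.adjoin k (Set.range x') := by rw [hadj]; exact hle
  exact ⟨Fintype.card ι, ⟨(e1.symm.toAlgHom.comp (IntermediateField.inclusion hle')).comp
    (AlgEquiv.ofInjectiveField y).toAlgHom⟩⟩

/-- From a place of the function field to a point. -/
lemma point_of_pf {k : Type} [Field k] {n m : ℕ} {a f : Fin m → MvPolynomial (Fin n) k}
    {h : MvPolynomial (Fin n) k} (hh : h ≠ 0) {K : Type} [Field K] [Algebra k K]
    (hK : IsPF k a f K)
    (hp : ∀ y : Option ((Fin n ⊕ Fin m) ⊕ Fin m) → K,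
      ∃ b : Option ((Fin n ⊕ Fin m) ⊕ Fin m) → k,
        ∀ P : MvPolynomial (Option ((Fin n ⊕ Fin m) ⊕ Fin m)) k,
          aeval y P = 0 → eval b P = 0) :
    ∃ c : Fin n → k, eval c h ≠ 0 ∧ ∀ i, ∃ X Y W : k, ¬ (X = 0 ∧ Y = 0 ∧ W = 0) ∧
      X ^ 2 = eval c (a i) * Y ^ 2 + eval c (f i) * W ^ 2 := by
  obtain ⟨t, y, w, hty, hw, htop⟩ := hK
  have ht : AlgebraicIndependent k t := hty.comp Sum.inl Sum.inl_injective
  have hht : aeval t h ≠ 0 := fun h0 => hh (ht (by rw [h0, map_zero]))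
  obtain ⟨b, hb⟩ := hp (fun o => o.elim (aeval t h)⁻¹ (Sum.elim (Sum.elim t y) w))
  let τ : Fin n → Option ((Fin n ⊕ Fin m) ⊕ Fin m) := fun i => some (Sum.inl (Sum.inl i))
  have er : ∀ g : MvPolynomial (Fin n) k, aeval (fun o : Option ((Fin n ⊕ Fin m) ⊕ Fin m) =>
      o.elim (aeval t h)⁻¹ (Sum.elim (Sum.elim t y) w)) (rename τ g) = aeval t g := fun g => by
    rw [aeval_rename]
    rfl
  refine ⟨fun i => b (τ i), ?_, fun i => ⟨b (some (Sum.inr i)), b (some (Sum.inl (Sum.inr i))), 1,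
    fun h3 => one_ne_zero h3.2.2, ?_⟩⟩
  · have h1 := hb (X none * rename τ h - 1) (by
      rw [map_sub, map_mul, aeval_X, er, map_one]
      change (aeval t h)⁻¹ * _ - 1 = 0
      rw [inv_mul_cancel₀ hht, sub_self])
    intro h2
    rw [map_sub, map_mul, eval_rename, map_one] at h1
    have h3 : eval (b ∘ τ) h = 0 := h2
    rw [h3, mul_zero, zero_sub] at h1
    exact one_ne_zero (neg_eq_zero.1 h1)
  · have h1 := hb (X (some (Sum.inr i)) ^ 2 - (rename τ (a i) *
        X (some (Sum.inl (Sum.inr i))) ^ 2 + rename τ (f i))) (by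
      rw [map_sub, map_add, map_mul, map_pow, map_pow, aeval_X, aeval_X, er, er]
      change w i ^ 2 - (aeval t (a i) * y i ^ 2 + aeval t (f i)) = 0
      rw [hw, sub_self])
    rw [map_sub, map_add, map_mul, map_pow, map_pow, eval_rename, eval_rename, eval_X,
      eval_X] at h1
    have h2 : b (some (Sum.inr i)) ^ 2 = eval (b ∘ τ) (a i) * b (some (Sum.inl (Sum.inr i))) ^ 2 +
        eval (b ∘ τ) (f i) := sub_eq_zero.1 h1
    rw [h2]
    change _ = eval (b ∘ τ) (a i) * _ + eval (b ∘ τ) (f i) * _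
    ring

end uni

section tse

variable {k₀ : Type} [Field k₀] {n m : ℕ}

/-- The solutions are defined over a common finite extension. -/
lemma tsenF_fin (A B : Fin m → MvPolynomial (Fin 1) k₀) :
    ∃ k : IntermediateField k₀ (AlgebraicClosure k₀), FiniteDimensional k₀ k ∧
      ∀ i, ∃ P Q R : MvPolynomial (Fin 1) k, ¬ (P = 0 ∧ Q = 0 ∧ R = 0) ∧
        P ^ 2 = map (algebraMap k₀ k) (A i) * Q ^ 2 + map (algebraMap k₀ k) (B i) * R ^ 2 := by
  choose L hL P Q R h0 h using fun i => tsen_fin (A i) (B i)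
  have hfin : FiniteDimensional k₀ (⨆ i, L i : IntermediateField k₀ (AlgebraicClosure k₀)) :=
    IntermediateField.finiteDimensional_iSup_of_finite
  refine ⟨⨆ i, L i, hfin, fun i => ?_⟩
  obtain ⟨M, hM⟩ : ∃ M, M = (⨆ i, L i : IntermediateField k₀ (AlgebraicClosure k₀)) := ⟨_, rfl⟩
  have hle : L i ≤ M := by rw [hM]; exact le_iSup L i
  rw [← hM]
  obtain ⟨ψ, hψ⟩ : ∃ ψ : L i →ₐ[k₀] M, ψ = IntermediateField.inclusion hle := ⟨_, rfl⟩
  obtain ⟨φ, hφ⟩ : ∃ φ : L i →+* M, φ = (ψ : L i →+* M) := ⟨_, rfl⟩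
  have hinj : Function.Injective (map φ :
      MvPolynomial (Fin 1) (L i) → MvPolynomial (Fin 1) M) := map_injective φ φ.injective
  refine ⟨map φ (P i), map φ (Q i), map φ (R i), ?_, ?_⟩
  · rintro ⟨h1, h2, h3⟩
    refine h0 i ⟨hinj ?_, hinj ?_, hinj ?_⟩
    · rw [h1, map_zero]
    · rw [h2, map_zero]
    · rw [h3, map_zero]
  · have h1 := congrArg (map φ) (h i)
    rw [map_pow, map_add, map_mul, map_mul, map_pow, map_pow, map_map, map_map] at h1
    have h2 : φ.comp (algebraMap k₀ (L i)) = algebraMap k₀ M := by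
      rw [hφ]
      exact ψ.comp_algebraMap
    rw [h2] at h1
    exact h1

/-- There is a split section over a finite extension. -/
lemma exists_splitF [CharZero k₀] {a f : Fin m → MvPolynomial (Fin (1 + n)) k₀}
    {h : MvPolynomial (Fin (1 + n)) k₀} (hh : h ≠ 0) :
    ∃ k : IntermediateField k₀ (AlgebraicClosure k₀), FiniteDimensional k₀ k ∧
      SplitF k a f h := by
  obtain ⟨b, hb⟩ : ∃ b : Fin (1 + n) → k₀, eval b h ≠ 0 := by
    by_contra hc
    push Not at hc
    exact hh (MvPolynomial.funext fun b => by rw [hc b, map_zero])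
  obtain ⟨k, hk, hP⟩ := tsenF_fin (fun i => sp b (a i)) (fun i => sp b (f i))
  have hinj := IsFractionRing.injective (MvPolynomial (Fin 1) k) (RF 1 k)
  refine ⟨k, hk, fun j => algebraMap k₀ (RF 1 k) (b (Fin.natAdd 1 j)), ?_, fun i => ?_⟩
  · rw [av_sp, Ne, map_eq_zero_iff _ hinj]
    refine map_ne fun h' => hb ?_
    rw [← eval_sp, h', map_zero]
  · obtain ⟨P, Q, R, h0, hPQ⟩ := hP i
    refine ⟨algebraMap _ _ P, algebraMap _ _ Q, algebraMap _ _ R, ?_, ?_⟩
    · rintro ⟨h1, h2, h3⟩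
      exact h0 ⟨(map_eq_zero_iff _ hinj).1 h1, (map_eq_zero_iff _ hinj).1 h2,
        (map_eq_zero_iff _ hinj).1 h3⟩
    · rw [av_sp, av_sp, ← map_pow, ← map_pow, ← map_pow, ← map_mul, ← map_mul, ← map_add, hPQ]

/-- There is a split section over an algebraically closed field. -/
lemma splitF_closed [CharZero k₀] [IsAlgClosed k₀] {a f : Fin m → MvPolynomial (Fin (1 + n)) k₀}
    {h : MvPolynomial (Fin (1 + n)) k₀} (hh : h ≠ 0) : SplitF k₀ a f h := by
  obtain ⟨b, hb⟩ : ∃ b : Fin (1 + n) → k₀, eval b h ≠ 0 := by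
    by_contra hc
    push Not at hc
    exact hh (MvPolynomial.funext fun b => by rw [hc b, map_zero])
  have hinj := IsFractionRing.injective (MvPolynomial (Fin 1) k₀) (RF 1 k₀)
  refine ⟨fun j => algebraMap k₀ (RF 1 k₀) (b (Fin.natAdd 1 j)), ?_, fun i => ?_⟩
  · rw [av_sp, Ne, map_eq_zero_iff _ hinj]
    refine map_ne fun h' => hb ?_
    rw [← eval_sp, h', map_zero]
  · rw [av_sp, av_sp]
    exact tsen _ _

omit [Field k₀] in
/-- Sections for `r = 0`. -/
lemma splitF_zero [Field k₀] {a f : Fin m → MvPolynomial (Fin (0 + n)) k₀}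
    {h : MvPolynomial (Fin (0 + n)) k₀} {k : Type} [Field k] [Algebra k₀ k]
    (hg : ∃ c : Fin (0 + n) → k, aeval c h ≠ 0 ∧ ∀ i, ∃ X Y W : k,
      ¬ (X = 0 ∧ Y = 0 ∧ W = 0) ∧ X ^ 2 = aeval c (a i) * Y ^ 2 + aeval c (f i) * W ^ 2) :
    SplitF k a f h := by
  obtain ⟨c, hc, hs⟩ := hg
  have hinj := (algebraMap k (RF 0 k)).injective
  have e : ∀ p : MvPolynomial (Fin (0 + n)) k₀,
      av k (fun j => algebraMap k (RF 0 k) (c (Fin.natAdd 0 j))) p =
        algebraMap k (RF 0 k) (aeval c p) := by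
    intro p
    have h1 : Fin.append (xv 0 k) (fun j => algebraMap k (RF 0 k) (c (Fin.natAdd 0 j))) =
        fun i => algebraMap k (RF 0 k) (c i) := by
      funext i
      refine Fin.addCases (fun i => i.elim0) (fun i => ?_) i
      rw [Fin.append_right]
    rw [av, h1]
    exact aeval_algebraMap_apply (RF 0 k) c p
  refine ⟨fun j => algebraMap k (RF 0 k) (c (Fin.natAdd 0 j)), ?_, fun i => ?_⟩
  · rw [e, Ne, map_eq_zero_iff _ hinj]
    exact hc
  · obtain ⟨X, Y, W, h0, hX⟩ := hs i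
    refine ⟨algebraMap k _ X, algebraMap k _ Y, algebraMap k _ W, ?_, ?_⟩
    · rintro ⟨h1, h2, h3⟩
      exact h0 ⟨(map_eq_zero_iff _ hinj).1 h1, (map_eq_zero_iff _ hinj).1 h2,
        (map_eq_zero_iff _ hinj).1 h3⟩
    · rw [e, e, ← map_pow, ← map_pow, ← map_pow, ← map_mul, ← map_mul, ← map_add, hX]

end tse

section sch

open AlgebraicGeometry CategoryTheory W560.HP

/-- Unirationality and density of the rational points. -/
theorem sch_uni {k : Type} [Field k] [CharZero k] {K : Type} [Field K] [Algebra k K]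
    (hU : Uni k K) (X : Scheme.{0}) [IsIntegral X] (p : X ⟶ Spec (CommRingCat.of k))
    [LocallyOfFiniteType p] (e : X.functionField ≃+* K)
    (he : ∀ a : k, e (toFF k X p a) = algebraMap k K a) :
    UnirationalScheme k X p ∧ Pool.Agent.TH178.HI.DensePoints k X p := by
  obtain ⟨N, ⟨φ⟩⟩ := of_uni hU
  have : Infinite k := CharZero.infinite k
  refine ⟨⟨Fin N, inferInstance, (φ : K →+* FractionRing (MvPolynomial (Fin N) k)).comp
      (e : X.functionField →+* K), fun b => ?_⟩, ?_⟩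
  · change φ (e (toFF k X p b)) = _
    rw [he b, AlgHom.commutes]
  · exact Pool.Agent.Y742.HC.dense_of_uni X p e he φ

/-- Points from unirationality. -/
theorem dense_of_unis {k : Type} [Field k] [CharZero k] (X : Scheme.{0}) [IsIntegral X]
    (p : X ⟶ Spec (CommRingCat.of k)) [LocallyOfFiniteType p] (h : UnirationalScheme k X p) :
    Pool.Agent.TH178.HI.DensePoints k X p := by
  classical
  obtain ⟨ι, hι, φ, hφ⟩ := h
  have : Infinite k := CharZero.infinite k
  have := Fintype.ofFinite ι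
  let K := X.functionField
  let _ : Algebra k K := (toFF k X p).toAlgebra
  let ψ : K →ₐ[k] FractionRing (MvPolynomial ι k) := { φ with commutes' := hφ }
  let e1 : MvPolynomial ι k ≃ₐ[k] MvPolynomial (Fin (Fintype.card ι)) k :=
    renameEquiv k (Fintype.equivFin ι)
  let e2 : FractionRing (MvPolynomial ι k) ≃ₐ[k]
      FractionRing (MvPolynomial (Fin (Fintype.card ι)) k) :=
    IsFractionRing.fieldEquivOfAlgEquiv k _ _ e1
  exact Pool.Agent.Y742.HC.dense_of_uni X p (RingEquiv.refl K) (fun a => rfl)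
    (e2.toAlgHom.comp ψ)

end sch

end Pool.Agent.H436.FP
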