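import Pool.Agent.H436.FP.Cond
import Pool.Graph.R_seed8.TH178.HI.Rel
import Pool.Graph.R_seed8.TH178.HI.Pure

/-!
# The step in one direction for a family of conics (helper436)
-/

set_option autoImplicit false

namespace Pool.Agent.H436.FP

open Polynomial Pool.Agent.H436.HP Pool.Agent.TH178.HI

section aux

variable {k E : Type} [Field k] [Field E] [Algebra k E]

lemma mem_adj {L : Type} [Field L] [Algebra L E] {M : IntermediateField k E}
    (hL : ∀ y : L, algebraMap L E y ∈ M) {x : E} (hx : x ∈ M)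
    (y : IntermediateField.adjoin L {x}) : algebraMap (IntermediateField.adjoin L {x}) E y ∈ M := by
  obtain ⟨y, hy⟩ := y
  change y ∈ M
  induction hy using IntermediateField.adjoin_induction with
  | mem y hy =>
    rw [Set.mem_singleton_iff] at hy
    rw [hy]
    exact hx
  | algebraMap z => exact hL z
  | add a b _ _ ha hb => exact add_mem ha hb
  | mul a b _ _ ha hb => exact mul_mem ha hb
  | inv a _ ha => exact inv_mem ha

lemma tr_sub {L : Type} [Field L] [Algebra L E] {Λ : IntermediateField k E}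
    (hL : ∀ y : L, algebraMap L E y ∈ Λ) {x : E} (hx : Transcendental Λ x) :
    Transcendental L x := by
  rintro ⟨p, hp, h⟩
  apply hx
  let φ : L →+* Λ := (algebraMap L E).codRestrict Λ hL
  refine ⟨p.map φ, ?_, ?_⟩
  · rwa [Ne, Polynomial.map_eq_zero]
  · rw [aeval_def, eval₂_map, ← h, aeval_def]
    rfl

lemma tr_up {F L : Type} [Field F] [Field L] [Algebra F L] [Algebra L E] [Algebra F E]
    [IsScalarTower F L E] {T : L} (h : Transcendental F T) :
    Transcendental F (algebraMap L E T) :=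
  (transcendental_algebraMap_iff (algebraMap L E).injective).2 h

/-- the polynomial is multiplied by a norm -/
def Mvd {α : Type} [DecidableEq α] (M : IntermediateField k E) (z : α → E) (j : α) (t : E)
    (o g : MvPolynomial α k) : Prop :=
  ∃ P ∈ M, ∃ Q ∈ M, MvPolynomial.aeval (Function.update z j t) g =
    MvPolynomial.aeval z g * (P ^ 2 - MvPolynomial.aeval z o * Q ^ 2)

lemma nm_conv {α : Type} [DecidableEq α] {Ω : IntermediateField k E} {L : Type} [Field L]
    [Algebra L E] [Algebra Ω L] [IsScalarTower Ω L E] {M : IntermediateField k E}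
    (hL : ∀ y : L, algebraMap L E y ∈ M) {z : α → Ω} {j : α} {o g : MvPolynomial α k} {T : L}
    (h : Nm (algebraMap Ω L (MvPolynomial.aeval z o)) (aeval T (uni j z g))
      (algebraMap Ω L (tc (uni j z g) (z j) 0))) :
    Mvd M (fun i => (z i : E)) j (algebraMap L E T) o g := by
  obtain ⟨P, Q, hPQ⟩ := h
  refine ⟨_, hL P, _, hL Q, ?_⟩
  have h1 := congrArg (algebraMap L E) hPQ
  rw [← aeval_algebraMap_apply, aeval_uni, tc_uni_zero, map_mul, map_sub, map_mul, map_pow,
    map_pow, ← IsScalarTower.algebraMap_apply, ← IsScalarTower.algebraMap_apply] at h1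
  have h2 : ∀ p : MvPolynomial α k, algebraMap Ω E (MvPolynomial.aeval z p) =
      MvPolynomial.aeval (fun i => (z i : E)) p := fun p =>
    (MvPolynomial.aeval_algebraMap_apply E z p).symm
  rw [h2, h2] at h1
  exact h1

end aux

section step

variable {k E : Type} [Field k] [Field E] [CharZero E] [Algebra k E]

lemma deg_uni {F : Type*} [Field F] [Algebra k F] {α : Type} [DecidableEq α] {j : α} {z : α → F}
    {g : MvPolynomial α k} {d : ℕ} (h : MvPolynomial.degreeOf j g ≤ d) :
    (uni j z g).natDegree ≤ d := (natDegree_uni j z g).trans h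

variable {Ω M : IntermediateField k E} {x1 x2 x3 : E} {α : Type} [DecidableEq α] {j : α}
  {z : α → Ω}

theorem one_step (h1 : Transcendental Ω x1) (hM : Ω ≤ M) (m1 : x1 ∈ M)
    {o g : MvPolynomial α k} (hd : MvPolynomial.degreeOf j g ≤ 8)
    (ho : MvPolynomial.aeval z o ≠ 0) (hg : Gd j g z) :
    ∃ T ∈ M, Transcendental Ω T ∧ Mvd M (fun i => (z i : E)) j T o g := by
  have hchar : CharZero Ω :=
    ⟨fun a b h => by
      have h2 := congrArg (algebraMap Ω E) h
      rw [map_natCast, map_natCast] at h2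
      exact_mod_cast h2⟩
  have hx1 : x1 ∈ IntermediateField.adjoin Ω {x1} := IntermediateField.subset_adjoin _ _ rfl
  have hL1 : ∀ y : IntermediateField.adjoin Ω {x1},
      algebraMap (IntermediateField.adjoin Ω {x1}) E y ∈ M := mem_adj (fun y => hM y.2) m1
  have t1 : Transcendental Ω (⟨x1, hx1⟩ : IntermediateField.adjoin Ω {x1}) :=
    (transcendental_algebraMap_iff
      (algebraMap (IntermediateField.adjoin Ω {x1}) E).injective).1 h1
  obtain ⟨T, hT, hN⟩ := mv8 (Ω := IntermediateField.adjoin Ω {x1}) (g := uni j z g)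
    (deg_uni hd) ho (c := z j) (by rw [tc_uni_zero]; exact hg.1)
    (by rw [tc_uni_one]; exact hg.2.1) (W8_uni hg.2.2.1) t1
  exact ⟨_, hL1 T, (transcendental_algebraMap_iff
    (algebraMap (IntermediateField.adjoin Ω {x1}) E).injective).2 hT, nm_conv hL1 hN⟩

theorem two_step (h1 : Transcendental Ω x1)
    (h2 : Transcendental (IntermediateField.adjoin Ω {x1}) x2) (hM : Ω ≤ M) (m1 : x1 ∈ M)
    (m2 : x2 ∈ M) {o g o' g' : MvPolynomial α k}
    (hd : MvPolynomial.degreeOf j g ≤ 4 ∧ MvPolynomial.degreeOf j g' ≤ 4 ∨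
      MvPolynomial.degreeOf j g ≤ 6 ∧ MvPolynomial.degreeOf j g' ≤ 2 ∧
        MvPolynomial.degreeOf j g' < MvPolynomial.degreeOf j g)
    (ho : MvPolynomial.aeval z o ≠ 0) (ho' : MvPolynomial.aeval z o' ≠ 0) (hg : Gd j g z)
    (hg' : Gd j g' z)
    (hp : MvPolynomial.degreeOf j g' < MvPolynomial.degreeOf j g → Gp j g g' z) :
    ∃ T ∈ M, Transcendental Ω T ∧ Mvd M (fun i => (z i : E)) j T o g ∧
      Mvd M (fun i => (z i : E)) j T o' g' := by
  have hchar : CharZero Ω :=
    ⟨fun a b h => by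
      have h2 := congrArg (algebraMap Ω E) h
      rw [map_natCast, map_natCast] at h2
      exact_mod_cast h2⟩
  have hx1 : x1 ∈ IntermediateField.adjoin Ω {x1} := IntermediateField.subset_adjoin _ _ rfl
  have hL1 : ∀ y : IntermediateField.adjoin Ω {x1},
      algebraMap (IntermediateField.adjoin Ω {x1}) E y ∈ M := mem_adj (fun y => hM y.2) m1
  have t1 : Transcendental Ω (⟨x1, hx1⟩ : IntermediateField.adjoin Ω {x1}) :=
    (transcendental_algebraMap_iff
      (algebraMap (IntermediateField.adjoin Ω {x1}) E).injective).1 h1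
  have hx2 : x2 ∈ IntermediateField.adjoin (IntermediateField.adjoin Ω {x1}) {x2} :=
    IntermediateField.subset_adjoin _ _ rfl
  have hL2 : ∀ y : IntermediateField.adjoin (IntermediateField.adjoin Ω {x1}) {x2},
      algebraMap (IntermediateField.adjoin (IntermediateField.adjoin Ω {x1}) {x2}) E y ∈ M :=
    mem_adj hL1 m2
  have t2 : Transcendental (IntermediateField.adjoin Ω {x1})
      (⟨x2, hx2⟩ : IntermediateField.adjoin (IntermediateField.adjoin Ω {x1}) {x2}) :=
    (transcendental_algebraMap_iff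
      (algebraMap (IntermediateField.adjoin (IntermediateField.adjoin Ω {x1}) {x2}) E).injective).1
        h2
  have tow : IsScalarTower Ω
      (IntermediateField.adjoin (IntermediateField.adjoin Ω {x1}) {x2}) E :=
    IsScalarTower.of_algebraMap_eq fun _ => rfl
  rcases hd with ⟨d1, d2⟩ | ⟨d1, d2, d3⟩
  · obtain ⟨T, hT, hN, hN'⟩ := mv44
      (Ω := IntermediateField.adjoin (IntermediateField.adjoin Ω {x1}) {x2}) (f := uni j z g)
      (g := uni j z g') (deg_uni d1) (deg_uni d2) ho ho' (c := z j)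
      (by rw [tc_uni_zero]; exact hg.1) (K4_uni hg.2.2.2.1) (by rw [tc_uni_zero]; exact hg'.1)
      (by rw [tc_uni_one]; exact hg'.2.1) (H4_uni hg'.2.2.2.2.1) t1 t2
    exact ⟨_, hL2 T, tr_up hT,
      nm_conv hL2 hN, nm_conv hL2 hN'⟩
  · obtain ⟨p1, p3⟩ := hp d3
    obtain ⟨T, hT, hN, hN'⟩ := mv62
      (Ω := IntermediateField.adjoin (IntermediateField.adjoin Ω {x1}) {x2}) (f := uni j z g)
      (g := uni j z g') (deg_uni d1) (deg_uni d2) ho ho' (c := z j)
      (by rw [tc_uni_zero]; exact hg.1) (by rw [tc_uni_zero]; exact hg'.1)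
      (by
        rw [tc_uni_zero, tc_uni_zero, tc_uni_one, tc_uni_one]
        rw [J1, map_sub, map_mul, map_mul] at p1
        exact p1)
      (by
        rw [tc_uni_zero, tc_uni_zero, tc_uni_one, tc_uni_one]
        rw [J3, map_sub, map_mul, map_mul, map_mul, map_ofNat] at p3
        exact p3) t1 t2
    exact ⟨_, hL2 T, tr_up hT,
      nm_conv hL2 hN, nm_conv hL2 hN'⟩

theorem three_abs {F1 F2 F3 : Type} [Field F1] [Field F2] [Field F3] [Algebra Ω F1]
    [Algebra F1 F2] [Algebra F2 F3] [Algebra F1 F3] [IsScalarTower F1 F2 F3] [Algebra Ω F3]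
    [IsScalarTower Ω F1 F3] [Algebra F3 E] [IsScalarTower Ω F3 E] {y1 : F1} {y2 : F2} {y3 : F3}
    (t1 : Transcendental Ω y1) (t2 : Transcendental F1 y2) (t3 : Transcendental F2 y3)
    (hL3 : ∀ y : F3, algebraMap F3 E y ∈ M)
    {o g o' g' o'' g'' : MvPolynomial α k} (d1 : MvPolynomial.degreeOf j g ≤ 4)
    (d2 : MvPolynomial.degreeOf j g' ≤ 2) (d3 : MvPolynomial.degreeOf j g'' ≤ 2)
    (ho : MvPolynomial.aeval z o ≠ 0) (ho' : MvPolynomial.aeval z o' ≠ 0)
    (ho'' : MvPolynomial.aeval z o'' ≠ 0) (hg : Gd j g z) (hg' : Gd j g' z)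
    (hg'' : Gd j g'' z) :
    ∃ T ∈ M, Transcendental Ω T ∧ Mvd M (fun i => (z i : E)) j T o g ∧
      Mvd M (fun i => (z i : E)) j T o' g' ∧ Mvd M (fun i => (z i : E)) j T o'' g'' := by
  have hchar : CharZero Ω :=
    ⟨fun a b h => by
      have h2 := congrArg (algebraMap Ω E) h
      rw [map_natCast, map_natCast] at h2
      exact_mod_cast h2⟩
  obtain ⟨T, hT, hN, hN', hN''⟩ := mv422 (Ω := F3) (f := uni j z g)
    (g := uni j z g') (h := uni j z g'') (deg_uni d1) (deg_uni d2) (deg_uni d3) ho ho' ho''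
    (c := z j) (by rw [tc_uni_zero]; exact hg.1) (K4_uni hg.2.2.2.1)
    (by rw [tc_uni_zero]; exact hg'.1) (D2_uni hg'.2.2.2.2.2)
    (by rw [tc_uni_zero]; exact hg''.1) (by rw [tc_uni_one]; exact hg''.2.1) t1 t2 t3
  exact ⟨_, hL3 T, tr_up hT, nm_conv hL3 hN, nm_conv hL3 hN', nm_conv hL3 hN''⟩

theorem three_step (h1 : Transcendental Ω x1)
    (h2 : Transcendental (IntermediateField.adjoin Ω {x1}) x2)
    (h3 : Transcendental (IntermediateField.adjoin (IntermediateField.adjoin Ω {x1}) {x2}) x3)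
    (hM : Ω ≤ M) (m1 : x1 ∈ M) (m2 : x2 ∈ M) (m3 : x3 ∈ M)
    {o g o' g' o'' g'' : MvPolynomial α k} (d1 : MvPolynomial.degreeOf j g ≤ 4)
    (d2 : MvPolynomial.degreeOf j g' ≤ 2) (d3 : MvPolynomial.degreeOf j g'' ≤ 2)
    (ho : MvPolynomial.aeval z o ≠ 0) (ho' : MvPolynomial.aeval z o' ≠ 0)
    (ho'' : MvPolynomial.aeval z o'' ≠ 0) (hg : Gd j g z) (hg' : Gd j g' z)
    (hg'' : Gd j g'' z) :
    ∃ T ∈ M, Transcendental Ω T ∧ Mvd M (fun i => (z i : E)) j T o g ∧
      Mvd M (fun i => (z i : E)) j T o' g' ∧ Mvd M (fun i => (z i : E)) j T o'' g'' := by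
  have hx1 : x1 ∈ IntermediateField.adjoin Ω {x1} := IntermediateField.subset_adjoin _ _ rfl
  have hL1 : ∀ y : IntermediateField.adjoin Ω {x1},
      algebraMap (IntermediateField.adjoin Ω {x1}) E y ∈ M := mem_adj (fun y => hM y.2) m1
  have t1 : Transcendental Ω (⟨x1, hx1⟩ : IntermediateField.adjoin Ω {x1}) :=
    (transcendental_algebraMap_iff
      (algebraMap (IntermediateField.adjoin Ω {x1}) E).injective).1 h1
  have hx2 : x2 ∈ IntermediateField.adjoin (IntermediateField.adjoin Ω {x1}) {x2} :=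
    IntermediateField.subset_adjoin _ _ rfl
  have hL2 : ∀ y : IntermediateField.adjoin (IntermediateField.adjoin Ω {x1}) {x2},
      algebraMap (IntermediateField.adjoin (IntermediateField.adjoin Ω {x1}) {x2}) E y ∈ M :=
    mem_adj hL1 m2
  have t2 : Transcendental (IntermediateField.adjoin Ω {x1})
      (⟨x2, hx2⟩ : IntermediateField.adjoin (IntermediateField.adjoin Ω {x1}) {x2}) :=
    (transcendental_algebraMap_iff
      (algebraMap (IntermediateField.adjoin (IntermediateField.adjoin Ω {x1}) {x2}) E).injective).1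
        h2
  have hx3 : x3 ∈ IntermediateField.adjoin
      (IntermediateField.adjoin (IntermediateField.adjoin Ω {x1}) {x2}) {x3} :=
    IntermediateField.subset_adjoin _ _ rfl
  have hL3 : ∀ y : IntermediateField.adjoin
      (IntermediateField.adjoin (IntermediateField.adjoin Ω {x1}) {x2}) {x3},
      algebraMap (IntermediateField.adjoin
        (IntermediateField.adjoin (IntermediateField.adjoin Ω {x1}) {x2}) {x3}) E y ∈ M :=
    mem_adj hL2 m3
  have t3 : Transcendental (IntermediateField.adjoin (IntermediateField.adjoin Ω {x1}) {x2})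
      (⟨x3, hx3⟩ : IntermediateField.adjoin
        (IntermediateField.adjoin (IntermediateField.adjoin Ω {x1}) {x2}) {x3}) :=
    (transcendental_algebraMap_iff (algebraMap (IntermediateField.adjoin
        (IntermediateField.adjoin (IntermediateField.adjoin Ω {x1}) {x2}) {x3})
          E).injective).1 h3
  let a13 : Algebra (IntermediateField.adjoin Ω {x1}) (IntermediateField.adjoin
      (IntermediateField.adjoin (IntermediateField.adjoin Ω {x1}) {x2}) {x3}) :=
    ((algebraMap (IntermediateField.adjoin (IntermediateField.adjoin Ω {x1}) {x2})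
      (IntermediateField.adjoin
      (IntermediateField.adjoin (IntermediateField.adjoin Ω {x1}) {x2}) {x3})).comp
      (algebraMap (IntermediateField.adjoin Ω {x1})
        (IntermediateField.adjoin (IntermediateField.adjoin Ω {x1}) {x2}))).toAlgebra
  have s13 : IsScalarTower (IntermediateField.adjoin Ω {x1})
      (IntermediateField.adjoin (IntermediateField.adjoin Ω {x1}) {x2})
      (IntermediateField.adjoin
      (IntermediateField.adjoin (IntermediateField.adjoin Ω {x1}) {x2}) {x3}) :=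
    IsScalarTower.of_algebraMap_eq fun _ => rfl
  let a03 : Algebra Ω (IntermediateField.adjoin
      (IntermediateField.adjoin (IntermediateField.adjoin Ω {x1}) {x2}) {x3}) :=
    ((algebraMap (IntermediateField.adjoin Ω {x1}) (IntermediateField.adjoin
      (IntermediateField.adjoin (IntermediateField.adjoin Ω {x1}) {x2}) {x3})).comp
      (algebraMap Ω (IntermediateField.adjoin Ω {x1}))).toAlgebra
  have s03 : IsScalarTower Ω (IntermediateField.adjoin Ω {x1}) (IntermediateField.adjoin
      (IntermediateField.adjoin (IntermediateField.adjoin Ω {x1}) {x2}) {x3}) :=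
    IsScalarTower.of_algebraMap_eq fun _ => rfl
  have s0E : IsScalarTower Ω (IntermediateField.adjoin
      (IntermediateField.adjoin (IntermediateField.adjoin Ω {x1}) {x2}) {x3}) E :=
    IsScalarTower.of_algebraMap_eq fun _ => rfl
  exact three_abs t1 t2 t3 hL3 d1 d2 d3 ho ho' ho'' hg hg' hg''

/-- **The step in one direction.** -/
theorem dir_step (h1 : Transcendental Ω x1)
    (h2 : Transcendental (IntermediateField.adjoin Ω {x1}) x2)
    (h3 : Transcendental (IntermediateField.adjoin (IntermediateField.adjoin Ω {x1}) {x2}) x3)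
    (hM : Ω ≤ M) (m1 : x1 ∈ M) (m2 : x2 ∈ M) (m3 : x3 ∈ M) {ι : Type} [DecidableEq ι]
    (S : Finset ι) {o g : ι → MvPolynomial α k} (hS3 : S.card ≤ 3)
    (hS4 : ∑ i ∈ S, (MvPolynomial.degreeOf j (g i) + 1) / 2 ≤ 4)
    (hact : ∀ i ∈ S, MvPolynomial.degreeOf j (g i) ≠ 0)
    (ho : ∀ i ∈ S, MvPolynomial.aeval z (o i) ≠ 0) (hG : ∀ i ∈ S, Gd j (g i) z)
    (hP : ∀ i ∈ S, ∀ i' ∈ S, MvPolynomial.degreeOf j (g i') < MvPolynomial.degreeOf j (g i) →
      Gp j (g i) (g i') z) :
    ∃ T ∈ M, Transcendental Ω T ∧ ∀ i ∈ S, Mvd M (fun i => (z i : E)) j T (o i) (g i) := by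
  rcases Nat.lt_or_ge 0 S.card with hc | hc
  swap
  · have hS : S = ∅ := Finset.card_eq_zero.1 (by omega)
    refine ⟨x1, m1, h1, fun i hi => ?_⟩
    rw [hS] at hi
    exact absurd hi (Finset.notMem_empty i)
  rcases Nat.lt_or_ge 1 S.card with hc1 | hc1
  swap
  · obtain ⟨a, ha⟩ := Finset.card_eq_one.1 (by omega : S.card = 1)
    rw [ha, Finset.sum_singleton] at hS4
    obtain ⟨T, hT, hT', hN⟩ := one_step h1 hM m1 (o := o a) (g := g a) (j := j) (by omega)
      (ho a (by rw [ha]; exact Finset.mem_singleton_self a))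
      (hG a (by rw [ha]; exact Finset.mem_singleton_self a))
    refine ⟨T, hT, hT', fun i hi => ?_⟩
    rw [ha, Finset.mem_singleton] at hi
    rw [hi]
    exact hN
  rcases Nat.lt_or_ge 2 S.card with hc2 | hc2
  swap
  · obtain ⟨a, b, hab, hS⟩ := Finset.card_eq_two.1 (by omega : S.card = 2)
    have ha : a ∈ S := by rw [hS]; simp
    have hb : b ∈ S := by rw [hS]; simp
    rw [hS, Finset.sum_pair hab] at hS4
    have da := hact a ha
    have db := hact b hb
    have key : ∃ T ∈ M, Transcendental Ω T ∧ Mvd M (fun i => (z i : E)) j T (o a) (g a) ∧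
        Mvd M (fun i => (z i : E)) j T (o b) (g b) := by
      by_cases h4 : MvPolynomial.degreeOf j (g a) ≤ 4 ∧ MvPolynomial.degreeOf j (g b) ≤ 4
      · exact two_step h1 h2 hM m1 m2 (Or.inl h4) (ho a ha) (ho b hb) (hG a ha) (hG b hb)
          (hP a ha b hb)
      by_cases h5 : MvPolynomial.degreeOf j (g b) < MvPolynomial.degreeOf j (g a)
      · exact two_step h1 h2 hM m1 m2 (Or.inr ⟨by omega, by omega, h5⟩) (ho a ha) (ho b hb)
          (hG a ha) (hG b hb) (hP a ha b hb)
      · obtain ⟨T, t1, t2, t3, t4⟩ := two_step h1 h2 hM m1 m2 (o := o b) (g := g b)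
          (Or.inr ⟨by omega, by omega, by omega⟩) (ho b hb) (ho a ha) (hG b hb) (hG a ha)
          (hP b hb a ha)
        exact ⟨T, t1, t2, t4, t3⟩
    obtain ⟨T, t1, t2, t3, t4⟩ := key
    refine ⟨T, t1, t2, fun i hi => ?_⟩
    rw [hS, Finset.mem_insert, Finset.mem_singleton] at hi
    rcases hi with rfl | rfl
    · exact t3
    · exact t4
  · obtain ⟨a, b, c, hab, hac, hbc, hS⟩ := Finset.card_eq_three.1 (by omega : S.card = 3)
    have ha : a ∈ S := by rw [hS]; simp
    have hb : b ∈ S := by rw [hS]; simp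
    have hc : c ∈ S := by rw [hS]; simp
    have hsum : ∑ i ∈ S, (MvPolynomial.degreeOf j (g i) + 1) / 2 =
        (MvPolynomial.degreeOf j (g a) + 1) / 2 + ((MvPolynomial.degreeOf j (g b) + 1) / 2 +
          (MvPolynomial.degreeOf j (g c) + 1) / 2) := by
      rw [hS, Finset.sum_insert (by simp [hab, hac]), Finset.sum_pair hbc]
    rw [hsum] at hS4
    have da := hact a ha
    have db := hact b hb
    have dc := hact c hc
    have key : ∃ T ∈ M, Transcendental Ω T ∧ Mvd M (fun i => (z i : E)) j T (o a) (g a) ∧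
        Mvd M (fun i => (z i : E)) j T (o b) (g b) ∧
        Mvd M (fun i => (z i : E)) j T (o c) (g c) := by
      by_cases h4 : MvPolynomial.degreeOf j (g a) ≤ 2 ∧ MvPolynomial.degreeOf j (g b) ≤ 2
      · obtain ⟨T, t1, t2, t3, t4, t5⟩ := three_step h1 h2 h3 hM m1 m2 m3 (j := j) (o := o c)
          (g := g c) (by omega) h4.1 h4.2 (ho c hc) (ho a ha) (ho b hb) (hG c hc) (hG a ha)
          (hG b hb)
        exact ⟨T, t1, t2, t4, t5, t3⟩
      by_cases h5 : MvPolynomial.degreeOf j (g a) ≤ 2 ∧ MvPolynomial.degreeOf j (g c) ≤ 2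
      · obtain ⟨T, t1, t2, t3, t4, t5⟩ := three_step h1 h2 h3 hM m1 m2 m3 (j := j) (o := o b)
          (g := g b) (by omega) h5.1 h5.2 (ho b hb) (ho a ha) (ho c hc) (hG b hb) (hG a ha)
          (hG c hc)
        exact ⟨T, t1, t2, t4, t3, t5⟩
      · obtain ⟨T, t1, t2, t3, t4, t5⟩ := three_step h1 h2 h3 hM m1 m2 m3 (j := j) (o := o a)
          (g := g a) (o' := o b) (g' := g b) (o'' := o c) (g'' := g c) (by omega) (by omega)
          (by omega) (ho a ha) (ho b hb) (ho c hc) (hG a ha) (hG b hb) (hG c hc)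
        exact ⟨T, t1, t2, t3, t4, t5⟩
    obtain ⟨T, t1, t2, t3, t4, t5⟩ := key
    refine ⟨T, t1, t2, fun i hi => ?_⟩
    rw [hS, Finset.mem_insert, Finset.mem_insert, Finset.mem_singleton] at hi
    rcases hi with rfl | rfl | rfl
    · exact t3
    · exact t4
    · exact t5

end step

end Pool.Agent.H436.FP
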