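import Pool.Agent.H436.FP.Step

/-!
# The tower of the moves in all the directions, for a family of conics (helper436)
-/

set_option autoImplicit false

namespace Pool.Agent.H436.FP

open Pool.Agent.H436.HP Pool.Agent.TH178.HI

variable {k E : Type} [Field k] [Field E] [Algebra k E]

/-- the conditions on a point -/
def GoodF {Ω : Type} [Field Ω] [Algebra k Ω] {n m : ℕ} (a f : Fin m → MvPolynomial (Fin n) k)
    (z : Fin n → Ω) : Prop :=
  (∀ e, MvPolynomial.aeval z (Sum.elim a f e) ≠ 0) ∧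
  (∀ e, ∀ j ∈ (Sum.elim a f e).vars, Gd j (Sum.elim a f e) z) ∧
  ∀ e e' j, MvPolynomial.degreeOf j (Sum.elim a f e') < MvPolynomial.degreeOf j (Sum.elim a f e) →
    Gp j (Sum.elim a f e) (Sum.elim a f e') z

/-- the conditions on the degrees -/
def Typ {n m : ℕ} (a f : Fin m → MvPolynomial (Fin n) k) : Prop :=
  (∀ j i, j ∉ (a i).vars ∨ j ∉ (f i).vars) ∧
  (∀ j, (Finset.univ.filter fun i => MvPolynomial.degreeOf j (a i) +
    MvPolynomial.degreeOf j (f i) ≠ 0).card ≤ 3) ∧
  ∀ j, ∑ i, (MvPolynomial.degreeOf j (a i) + MvPolynomial.degreeOf j (f i) + 1) / 2 ≤ 4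

lemma Gd.down {n : ℕ} {Ω : IntermediateField k E} {z : Fin n → Ω} {j : Fin n}
    {g : MvPolynomial (Fin n) k} (h : Gd j g (fun i => (z i : E))) : Gd j g z := by
  have e : ∀ p : MvPolynomial (Fin n) k, MvPolynomial.aeval (fun i => (z i : E)) p ≠ 0 →
      MvPolynomial.aeval z p ≠ 0 := fun p hp h0 => by
    rw [← coe_aeval, h0] at hp
    exact hp rfl
  exact ⟨e _ h.1, e _ h.2.1, e _ h.2.2.1, e _ h.2.2.2.1, e _ h.2.2.2.2.1, e _ h.2.2.2.2.2⟩

lemma Gp.down {n : ℕ} {Ω : IntermediateField k E} {z : Fin n → Ω} {j : Fin n}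
    {f g : MvPolynomial (Fin n) k} (h : Gp j f g (fun i => (z i : E))) : Gp j f g z := by
  have e : ∀ p : MvPolynomial (Fin n) k, MvPolynomial.aeval (fun i => (z i : E)) p ≠ 0 →
      MvPolynomial.aeval z p ≠ 0 := fun p hp h0 => by
    rw [← coe_aeval, h0] at hp
    exact hp rfl
  exact ⟨e _ h.1, e _ h.2⟩

variable [CharZero E]

/-- One direction. -/
lemma tstep {n m₀ : ℕ} {a f : Fin m₀ → MvPolynomial (Fin n) k} (hT : Typ a f)
    {x : ℕ → E} (hx : AlgebraicIndependent k x) {m : ℕ} (j : Fin n) {z : Fin n → E}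
    {Ω : IntermediateField k E} (hz : ∀ i, z i ∈ Ω) (hp : Pure Ω)
    (hΩ : Ω ≤ AC k (x '' {i | i < 3 * m})) (hg : GoodF a f z)
    (hsp : ∀ i, Sp Ω (MvPolynomial.aeval z (a i)) (MvPolynomial.aeval z (f i))) :
    ∃ (Ω' : IntermediateField k E) (t : E), Ω ≤ Ω' ∧ t ∈ Ω' ∧ Pure Ω' ∧
      Ω' ≤ AC k (x '' {i | i < 3 * (m + 1)}) ∧ Transcendental Ω t ∧
      ∀ i, MvPolynomial.aeval (Function.update z j t) (a i) ≠ 0 →
        MvPolynomial.aeval (Function.update z j t) (f i) ≠ 0 →
        Sp Ω' (MvPolynomial.aeval (Function.update z j t) (a i))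
          (MvPolynomial.aeval (Function.update z j t) (f i)) := by
  classical
  obtain ⟨hdis, hcard, hsum⟩ := hT
  obtain ⟨g1, g2, g3⟩ := hg
  obtain ⟨x1, hx1⟩ : ∃ x1, x1 = x (3 * m) := ⟨_, rfl⟩
  obtain ⟨x2, hx2⟩ : ∃ x2, x2 = x (3 * m + 1) := ⟨_, rfl⟩
  obtain ⟨x3, hx3⟩ : ∃ x3, x3 = x (3 * m + 2) := ⟨_, rfl⟩
  have t1 : Transcendental Ω x1 := by
    rw [hx1]
    exact transcendental_of_le hx (I := {i | i < 3 * m}) (by simp) hΩ
  obtain ⟨M1, hM1⟩ : ∃ M1, M1 = IntermediateField.adjoin k ((Ω : Set E) ∪ {x1}) := ⟨_, rfl⟩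
  have hMA1 : M1 ≤ AC k (x '' {i | i < 3 * m + 1}) := by
    rw [hM1]
    refine adj_AC (Nat.le_succ _) hΩ ?_
    rintro y hy
    exact ⟨3 * m, Nat.lt_succ_self _, hx1 ▸ hy⟩
  have t2 : Transcendental M1 x2 := by
    rw [hx2]
    exact transcendental_of_le hx (I := {i | i < 3 * m + 1}) (by simp) hMA1
  obtain ⟨M2, hM2⟩ : ∃ M2, M2 = IntermediateField.adjoin k ((M1 : Set E) ∪ {x2}) := ⟨_, rfl⟩
  have hMA2 : M2 ≤ AC k (x '' {i | i < 3 * m + 2}) := by
    rw [hM2]
    refine adj_AC (Nat.le_succ _) hMA1 ?_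
    rintro y hy
    exact ⟨3 * m + 1, Nat.lt_succ_self _, hx2 ▸ hy⟩
  have t3 : Transcendental M2 x3 := by
    rw [hx3]
    exact transcendental_of_le hx (I := {i | i < 3 * m + 2}) (by simp) hMA2
  obtain ⟨M3, hM3⟩ : ∃ M3, M3 = IntermediateField.adjoin k ((M2 : Set E) ∪ {x3}) := ⟨_, rfl⟩
  have hMA3 : M3 ≤ AC k (x '' {i | i < 3 * (m + 1)}) := by
    rw [hM3]
    refine adj_AC (by omega) hMA2 ?_
    rintro y hy
    exact ⟨3 * m + 2, by omega, hx3 ▸ hy⟩
  have p1 : Pure M1 := by rw [hM1]; exact hp.step t1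
  have p2 : Pure M2 := by rw [hM2]; exact p1.step t2
  have p3 : Pure M3 := by rw [hM3]; exact p2.step t3
  have l1 : Ω ≤ M1 := fun y hy => by
    rw [hM1]; exact IntermediateField.subset_adjoin _ _ (Or.inl hy)
  have l2 : M1 ≤ M2 := fun y hy => by
    rw [hM2]; exact IntermediateField.subset_adjoin _ _ (Or.inl hy)
  have l3 : M2 ≤ M3 := fun y hy => by
    rw [hM3]; exact IntermediateField.subset_adjoin _ _ (Or.inl hy)
  have hΩ3 : Ω ≤ M3 := l1.trans (l2.trans l3)
  have m1 : x1 ∈ M1 := by rw [hM1]; exact IntermediateField.subset_adjoin _ _ (Or.inr rfl)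
  have m2 : x2 ∈ M2 := by rw [hM2]; exact IntermediateField.subset_adjoin _ _ (Or.inr rfl)
  have m3 : x3 ∈ M3 := by rw [hM3]; exact IntermediateField.subset_adjoin _ _ (Or.inr rfl)
  have e1 : ∀ y : IntermediateField.adjoin Ω {x1},
      algebraMap (IntermediateField.adjoin Ω {x1}) E y ∈ M1 := mem_adj (fun y => l1 y.2) m1
  have e2 : ∀ y : IntermediateField.adjoin (IntermediateField.adjoin Ω {x1}) {x2},
      algebraMap (IntermediateField.adjoin (IntermediateField.adjoin Ω {x1}) {x2}) E y ∈ M2 :=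
    mem_adj (fun y => l2 (e1 y)) m2
  -- the coordinates in `Ω`
  obtain ⟨z', hz'⟩ : ∃ z' : Fin n → Ω, (fun i => (z' i : E)) = z :=
    ⟨fun i => ⟨z i, hz i⟩, rfl⟩
  let e : Fin m₀ → Fin m₀ ⊕ Fin m₀ := fun i => if j ∈ (f i).vars then Sum.inr i else Sum.inl i
  let e' : Fin m₀ → Fin m₀ ⊕ Fin m₀ := fun i => if j ∈ (f i).vars then Sum.inl i else Sum.inr i
  obtain ⟨S, hS⟩ : ∃ S, S = Finset.univ.filter
    (fun i : Fin m₀ => j ∈ (Sum.elim a f (e i)).vars) := ⟨_, rfl⟩
  have hdeg : ∀ i, MvPolynomial.degreeOf j (Sum.elim a f (e i)) ≤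
      MvPolynomial.degreeOf j (a i) + MvPolynomial.degreeOf j (f i) := by
    intro i
    simp only [e]
    split_ifs
    · rw [Sum.elim_inr]; omega
    · rw [Sum.elim_inl]; omega
  have hgood : ∀ {i}, Gd j (Sum.elim a f (e i)) z → Gd j (Sum.elim a f (e i)) z' := fun h =>
    Gd.down (by rw [hz']; exact h)
  obtain ⟨t, htM, htt, htv⟩ := dir_step (z := z') (j := j) t1
    (tr_sub e1 t2) (tr_sub e2 t3) hΩ3 (l3 (l2 m1)) (l3 m2) m3 S
    (o := fun i => Sum.elim a f (e' i)) (g := fun i => Sum.elim a f (e i))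
    (by
      refine le_trans (Finset.card_le_card ?_) (hcard j)
      intro i hi
      rw [hS, Finset.mem_filter] at hi
      rw [Finset.mem_filter]
      have h5 := MvPolynomial.mem_vars_iff_degreeOf_ne_zero.1 hi.2
      have h6 := hdeg i
      exact ⟨Finset.mem_univ _, by omega⟩)
    (by
      refine le_trans ?_ (hsum j)
      refine le_trans (Finset.sum_le_sum (g := fun i => (MvPolynomial.degreeOf j (a i) +
        MvPolynomial.degreeOf j (f i) + 1) / 2) fun i _ => ?_)
        (Finset.sum_le_sum_of_subset (Finset.subset_univ S))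
      have h6 := hdeg i
      show (MvPolynomial.degreeOf j (Sum.elim a f (e i)) + 1) / 2 ≤ _
      omega)
    (by
      intro i hi
      rw [hS, Finset.mem_filter] at hi
      exact MvPolynomial.mem_vars_iff_degreeOf_ne_zero.1 hi.2)
    (by
      intro i _ h0
      apply g1 (e' i)
      rw [← hz', ← coe_aeval, h0]
      rfl)
    (by
      intro i hi
      rw [hS, Finset.mem_filter] at hi
      exact hgood (g2 (e i) j hi.2))
    (by
      intro i _ i' _ h5
      exact Gp.down (by rw [hz']; exact g3 (e i) (e i') j h5))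
  rw [hz'] at htv
  refine ⟨M3, t, hΩ3, htM, p3, hMA3, htt, fun i ha hf => ?_⟩
  have hazM : ∀ p : MvPolynomial (Fin n) k, MvPolynomial.aeval z p ∈ M3 := fun p =>
    aeval_mem' (fun i => hΩ3 (hz i)) p
  by_cases hjf : j ∈ (f i).vars
  · have hja : j ∉ (a i).vars := (hdis j i).resolve_right (fun h => h hjf)
    have he : e i = Sum.inr i := if_pos hjf
    have he' : e' i = Sum.inl i := if_pos hjf
    obtain ⟨P, hP, Q, hQ, hv⟩ := htv i (by
      rw [hS, Finset.mem_filter, he]
      exact ⟨Finset.mem_univ _, hjf⟩)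
    simp only [he, he', Sum.elim_inl, Sum.elim_inr] at hv
    rw [hv] at hf ⊢
    rw [aeval_update _ _ _ hja]
    exact ((hsp i).mono hΩ3).norm (hazM _) hP hQ (right_ne_zero_of_mul hf)
  by_cases hja : j ∈ (a i).vars
  · have he : e i = Sum.inl i := if_neg hjf
    have he' : e' i = Sum.inr i := if_neg hjf
    obtain ⟨P, hP, Q, hQ, hv⟩ := htv i (by
      rw [hS, Finset.mem_filter, he]
      exact ⟨Finset.mem_univ _, hja⟩)
    simp only [he, he', Sum.elim_inl, Sum.elim_inr] at hv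
    rw [hv] at ha ⊢
    rw [aeval_update _ _ _ hjf]
    exact (((hsp i).mono hΩ3).symm.norm (hazM _) hP hQ (right_ne_zero_of_mul ha)).symm
  · rw [aeval_update _ _ _ hja, aeval_update _ _ _ hjf]
    exact (hsp i).mono hΩ3

/-- **The tower.** -/
theorem tower {n m₀ : ℕ} {a f : Fin m₀ → MvPolynomial (Fin n) k} (hT : Typ a f)
    {H : MvPolynomial (Fin n) k} (hH : ∀ z : Fin n → E, MvPolynomial.aeval z H ≠ 0 →
      GoodF a f z)
    {x : ℕ → E} (hx : AlgebraicIndependent k x) {c : Fin n → k} (hc : MvPolynomial.eval c H ≠ 0)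
    (hsp : ∀ i, Sp (⊥ : IntermediateField k E) (algebraMap k E (MvPolynomial.eval c (a i)))
      (algebraMap k E (MvPolynomial.eval c (f i)))) (m : ℕ) (hm : m ≤ n) :
    ∃ (z : Fin n → E) (Ω : IntermediateField k E),
      (∀ i : Fin n, m ≤ (i : ℕ) → z i = algebraMap k E (c i)) ∧ (∀ i, z i ∈ Ω) ∧ Pure Ω ∧
      Ω ≤ AC k (x '' {i | i < 3 * m}) ∧
      AlgebraicIndependent k (fun i : {i : Fin n | (i : ℕ) < m} => z i) ∧
      ∀ i, Sp Ω (MvPolynomial.aeval z (a i)) (MvPolynomial.aeval z (f i)) := by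
  induction m with
  | zero =>
    refine ⟨fun i => algebraMap k E (c i), ⊥, fun i _ => rfl,
      fun i => IntermediateField.algebraMap_mem _ _, Pure.bot, bot_le, ?_, ?_⟩
    · have : IsEmpty {i : Fin n | (i : ℕ) < 0} := ⟨fun i => Nat.not_lt_zero _ i.2⟩
      rw [algebraicIndependent_empty_type_iff]
      exact (algebraMap k E).injective
    · have e : ∀ g : MvPolynomial (Fin n) k, MvPolynomial.aeval (fun i => algebraMap k E (c i)) g =
          algebraMap k E (MvPolynomial.eval c g) := fun g => by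
        exact MvPolynomial.aeval_algebraMap_apply E c g
      intro i
      rw [e, e]
      exact hsp i
  | succ m ih =>
    obtain ⟨z, Ω, hzc, hz, hp, hΩ, hind, hs⟩ := ih (by omega)
    have hg := hH z (good hind hzc hc)
    have hmn : m < n := hm
    obtain ⟨j, hj⟩ : ∃ j : Fin n, (j : ℕ) = m := ⟨⟨m, hmn⟩, rfl⟩
    obtain ⟨Ω', t, hle, ht, hp', hΩ', htr, hs'⟩ := tstep hT hx j hz hp hΩ hg hs
    obtain ⟨z', hz'⟩ : ∃ z' : Fin n → E, z' = Function.update z j t := ⟨_, rfl⟩
    have hold : ∀ i : Fin n, i ≠ j → z' i = z i := fun i hi => by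
      rw [hz', Function.update_of_ne hi]
    have hnew : z' j = t := by rw [hz', Function.update_self]
    have hset : {i : Fin n | (i : ℕ) < m + 1} = insert j {i : Fin n | (i : ℕ) < m} := by
      ext i
      simp only [Set.mem_ofPred_eq, Set.mem_insert_iff, Fin.ext_iff, hj]
      omega
    have him : z' '' {i : Fin n | (i : ℕ) < m} = z '' {i : Fin n | (i : ℕ) < m} := by
      refine Set.image_congr fun i hi => hold i ?_
      rintro rfl
      rw [Set.mem_ofPred_eq, hj] at hi
      exact lt_irrefl _ hi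
    have hLle : IntermediateField.adjoin k (z '' {i : Fin n | (i : ℕ) < m}) ≤ Ω := by
      rw [IntermediateField.adjoin_le_iff]
      rintro _ ⟨i, -, rfl⟩
      exact hz i
    have hzc' : ∀ i : Fin n, m + 1 ≤ (i : ℕ) → z' i = algebraMap k E (c i) := by
      intro i hi
      rw [hold i, hzc i (by omega)]
      rintro rfl
      omega
    have hind' : AlgebraicIndependent k (fun i : {i : Fin n | (i : ℕ) < m + 1} => z' i) := by
      have h5 : AlgebraicIndepOn k z' {i : Fin n | (i : ℕ) < m} := by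
        have e : (fun i : {i : Fin n | (i : ℕ) < m} => z' i) =
            fun i : {i : Fin n | (i : ℕ) < m} => z i := by
          funext i
          refine hold i ?_
          rintro h
          have := i.2
          rw [Set.mem_ofPred_eq, h, hj] at this
          exact lt_irrefl _ this
        rw [AlgebraicIndepOn, e]
        exact hind
      have h6 : AlgebraicIndepOn k z' (insert j {i : Fin n | (i : ℕ) < m}) := by
        refine h5.insert ?_
        rw [hnew, him, ← IntermediateField.transcendental_adjoin_iff]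
        exact fun h => htr (isAlgebraic_mono' hLle h)
      rw [← hset] at h6
      exact h6
    have g' := (hH z' (good hind' hzc' hc)).1
    refine ⟨z', Ω', hzc', fun i => ?_, hp', hΩ', hind', fun i => ?_⟩
    · by_cases hi : i = j
      · rw [hi, hnew]; exact ht
      · rw [hold i hi]; exact hle (hz i)
    · have q1 := g' (Sum.inl i)
      have q2 := g' (Sum.inr i)
      rw [Sum.elim_inl, hz'] at q1
      rw [Sum.elim_inr, hz'] at q2
      rw [hz']
      exact hs' i q1 q2

end Pool.Agent.H436.FP
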